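import Mathlib

/-!
# Compressible orbit-universal subshifts (MP_35fb4b_lc): definitions

Internal convention: a group `G` acts on `G → α` by `(act γ x) g = x (g * γ)`; the neighbours of `g` are the elements `s * g`,
`s ∈ S`, where `S` is a finite symmetric set containing `1`.
-/

set_option autoImplicit false

namespace Pool.Agent.Lib.MP_35fb4b_lc

open scoped Classical Pointwise

noncomputable section

/-- the action on configurations -/
def act {G α : Type} [Group G] (γ : G) (x : G → α) : G → α := fun g => x (g * γ)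

/-- `x` and `y` lie in the same orbit -/
def SameOrb {G α : Type} [Group G] (x y : G → α) : Prop := ∃ γ : G, x = act γ y

/-- the action of `Γ` on `X` has an invariant mean -/
def HasMean (Γ X : Type) [Group Γ] [MulAction Γ X] : Prop :=
  ∃ m : Set X → ℝ, (∀ A, 0 ≤ m A) ∧ m Set.univ = 1 ∧
    (∀ A B, Disjoint A B → m (A ∪ B) = m A + m B) ∧
      ∀ (γ : Γ) (A : Set X), m ((fun x => γ • x) '' A) = m A

/-- a height function: Lipschitz, and the mean over the neighbours exceeds the value by `κ` -/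
structure Ht (Γ X : Type) [Group Γ] [MulAction Γ X] where
  S : Finset Γ
  h : X → ℝ
  H : ℝ
  κ : ℝ
  one_mem : (1 : Γ) ∈ S
  inv_mem : ∀ s ∈ S, s⁻¹ ∈ S
  κ_pos : 0 < κ
  H_nonneg : 0 ≤ H
  lip : ∀ s ∈ S, ∀ x, |h (s • x) - h x| ≤ H
  sub : ∀ x, (S.card : ℝ) * (h x + κ) ≤ ∑ s ∈ S, h (s • x)

section codes
variable {Γ : Type} [Group Γ]

/-- `z` is constantly `b` on the ball of radius one around `g` -/
def Deep (S : Finset Γ) (b : Bool) (z : Γ → Bool) (g : Γ) : Prop := ∀ s ∈ S, z (s * g) = b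

/-- there is a deep point within distance `r` -/
def flag (S : Finset Γ) (r : ℕ) (b : Bool) (z : Γ → Bool) (g : Γ) : Prop :=
  ∃ t ∈ S ^ r, Deep S b z (t * g)

/-- Gray code of the two flags -/
def code (S : Finset Γ) (r : ℕ) (z : Γ → Bool) (g : Γ) : ℤ :=
  if flag S r false z g then (if flag S r true z g then 3 else 0)
  else (if flag S r true z g then 2 else 1)

/-- lift of a residue modulo 4 -/
def lft (d : ℤ) : ℤ := if d % 4 = 1 then 1 else if d % 4 = 3 then -1 else 0

/-- signed edge -/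
def Led (S : Finset Γ) (r : ℕ) (z : Γ → Bool) (g s : Γ) : ℤ :=
  lft (code S r z (s * g) - code S r z g)

/-- sum over words of length `n` of the lifted increments -/
def Wn (S : Finset Γ) (r : ℕ) : ℕ → (Γ → Bool) → Γ → ℤ
  | 0, _, _ => 0
  | n + 1, z, g => ∑ s ∈ S, ((S.card : ℤ) ^ n * Led S r z g s + Wn S r n z (s * g))

/-- ones that are explained by the background -/
def Expl (S : Finset Γ) (q : ℕ) (z : Γ → Bool) (g : Γ) : Prop :=
  ∃ t ∈ S ^ q, Deep S true z (t * g) ∨ ¬ flag S 3 false z (t * g)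

theorem act_one {α : Type} (x : Γ → α) : act (1 : Γ) x = x := by
  funext g
  simp [act]

theorem act_mul {α : Type} (γ δ : Γ) (x : Γ → α) : act (γ * δ) x = act γ (act δ x) := by
  funext g
  simp [act, mul_assoc]

theorem Deep_act (S : Finset Γ) (b : Bool) (z : Γ → Bool) (γ g : Γ) :
    Deep S b (act γ z) g ↔ Deep S b z (g * γ) := by
  simp [Deep, act, mul_assoc]

theorem flag_act (S : Finset Γ) (r : ℕ) (b : Bool) (z : Γ → Bool) (γ g : Γ) :
    flag S r b (act γ z) g ↔ flag S r b z (g * γ) := by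
  simp [flag, Deep_act, mul_assoc]

theorem code_act (S : Finset Γ) (r : ℕ) (z : Γ → Bool) (γ g : Γ) :
    code S r (act γ z) g = code S r z (g * γ) := by
  simp [code, flag_act]

theorem Led_act (S : Finset Γ) (r : ℕ) (z : Γ → Bool) (γ g s : Γ) :
    Led S r (act γ z) g s = Led S r z (g * γ) s := by
  simp [Led, code_act, mul_assoc]

theorem Wn_act (S : Finset Γ) (r n : ℕ) (z : Γ → Bool) (γ g : Γ) :
    Wn S r n (act γ z) g = Wn S r n z (g * γ) := by
  induction n generalizing g with
  | zero => rfl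
  | succ n ih => simp [Wn, Led_act, ih, mul_assoc]

theorem Expl_act (S : Finset Γ) (q : ℕ) (z : Γ → Bool) (γ g : Γ) :
    Expl S q (act γ z) g ↔ Expl S q z (g * γ) := by
  simp [Expl, Deep_act, flag_act, mul_assoc]

theorem lft_neg (d : ℤ) : lft (-d) = -lft d := by
  unfold lft
  have h1 := Int.emod_nonneg d (show (4 : ℤ) ≠ 0 by norm_num)
  have h2 := Int.emod_lt_of_pos d (show (0 : ℤ) < 4 by norm_num)
  split_ifs <;> first | omega | rfl

theorem lft_cases (d : ℤ) : lft d = -1 ∨ lft d = 0 ∨ lft d = 1 := by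
  unfold lft
  split_ifs <;> simp

end codes

/-- divergences of finite families of group elements with restricted domains -/
def IsDiv (Γ : Type) [Group Γ] {Z : Type} [MeasurableSpace Z] [MulAction Γ Z] (D : Z → ℤ) :
    Prop :=
  ∃ (ι : Type) (_ : Fintype ι) (γ : ι → Γ) (A : ι → Set Z), (∀ i, MeasurableSet (A i)) ∧
    ∀ z, D z = ∑ i, ((if z ∈ A i then (1 : ℤ) else 0) - (if (γ i)⁻¹ • z ∈ A i then 1 else 0))

/-- compression of a group action -/
def Compr (Γ : Type) [Group Γ] (Z : Type) [MeasurableSpace Z] [MulAction Γ Z] : Prop :=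
  ∃ f : Z → Z, Measurable f ∧ Function.Injective f ∧ (∀ z, ∃ γ : Γ, f z = γ • z) ∧
    ∀ z, ∃ γ : Γ, γ • z ∉ Set.range f

end

end Pool.Agent.Lib.MP_35fb4b_lc
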