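import Pool.Agent.Lib.MP_35fb4b_lc.FMDefs

/-!
# Analytic sets on which a map is injective (MP_35fb4b_lc)
-/

set_option autoImplicit false

namespace Pool.Agent.Lib.MP_35fb4b_lc

open scoped Classical
open MeasureTheory

noncomputable section

section
variable {P X : Type} [MetricSpace P] [CompleteSpace P] [SecondCountableTopology P]
  [MeasurableSpace P] [BorelSpace P] [TopologicalSpace X] [PolishSpace X] [MeasurableSpace X]
  [BorelSpace X]

theorem extend_inj {f : P → X} (hf : Continuous f) {C : Set P} (hC : AnalyticSet C)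
    (h : Set.InjOn f C) : ∃ C' : Set P, MeasurableSet C' ∧ C ⊆ C' ∧ Set.InjOn f C' := by
  have hB := TopologicalSpace.isBasis_countableBasis P
  have hcnt : Countable (TopologicalSpace.countableBasis P) :=
    (TopologicalSpace.countable_countableBasis P).to_subtype
  have hinter : ∀ U : Set P, MeasurableSet U → AnalyticSet (C ∩ U) := by
    intro U hU
    have h1 : C ∩ U = ⋂ b : Bool, cond b C U := by
      rw [Set.inter_eq_iInter]
    rw [h1]
    apply AnalyticSet.iInter
    intro b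
    cases b
    · exact hU.analyticSet
    · exact hC
  let J := {u : TopologicalSpace.countableBasis P × TopologicalSpace.countableBasis P //
    Disjoint (u.1 : Set P) (u.2 : Set P)}
  have hopen : ∀ U : TopologicalSpace.countableBasis P, MeasurableSet (U : Set P) := fun U =>
    (TopologicalSpace.isOpen_of_mem_countableBasis U.2).measurableSet
  have hS : ∀ u : J, ∃ S : Set X, f '' (C ∩ u.1.1) ⊆ S ∧ Disjoint (f '' (C ∩ u.1.2)) S ∧
      MeasurableSet S := by
    intro u
    refine AnalyticSet.measurablySeparable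
      ((hinter _ (hopen u.1.1)).image_of_continuous hf)
      ((hinter _ (hopen u.1.2)).image_of_continuous hf) ?_
    rw [Set.disjoint_left]
    rintro x ⟨p, ⟨hpC, hpU⟩, hpx⟩ ⟨q, ⟨hqC, hqU⟩, hqx⟩
    have hpq : p = q := h hpC hqC (by rw [hpx, hqx])
    rw [hpq] at hpU
    exact Set.disjoint_left.1 u.2 hpU hqU
  choose S hS1 hS2 hS3 using hS
  refine ⟨⋂ u : J, ({p | p ∈ (u.1.1 : Set P) → f p ∈ S u} ∩
    {p | p ∈ (u.1.2 : Set P) → f p ∉ S u}), ?_, ?_, ?_⟩
  · refine MeasurableSet.iInter fun u => ?_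
    have e1 : {p | p ∈ (u.1.1 : Set P) → f p ∈ S u} = (u.1.1 : Set P)ᶜ ∪ f ⁻¹' (S u) := by
      ext p
      simp only [Set.mem_ofPred_eq, Set.mem_union, Set.mem_compl_iff, Set.mem_preimage]
      tauto
    have e2 : {p | p ∈ (u.1.2 : Set P) → f p ∉ S u} = (u.1.2 : Set P)ᶜ ∪ (f ⁻¹' (S u))ᶜ := by
      ext p
      simp only [Set.mem_ofPred_eq, Set.mem_union, Set.mem_compl_iff, Set.mem_preimage]
      tauto
    rw [e1, e2]
    exact ((hopen u.1.1).compl.union (hf.measurable (hS3 u))).inter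
      ((hopen u.1.2).compl.union (hf.measurable (hS3 u)).compl)
  · intro p hp
    rw [Set.mem_iInter]
    intro u
    refine ⟨fun hpU => hS1 u ⟨p, ⟨hp, hpU⟩, rfl⟩, fun hpU hx => ?_⟩
    exact Set.disjoint_left.1 (hS2 u) ⟨p, ⟨hp, hpU⟩, rfl⟩ hx
  · intro p hp q hq hpq
    by_contra hne
    obtain ⟨A, A', hA, hA', hpA, hqA', hd⟩ := t2_separation hne
    obtain ⟨U, hU, hpU, hUA⟩ := hB.exists_subset_of_mem_open hpA hA
    obtain ⟨U', hU', hqU', hUA'⟩ := hB.exists_subset_of_mem_open hqA' hA'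
    have hdU : Disjoint U U' := hd.mono hUA hUA'
    rw [Set.mem_iInter] at hp hq
    have h1 := (hp ⟨(⟨U, hU⟩, ⟨U', hU'⟩), hdU⟩).1 hpU
    have h2 := (hq ⟨(⟨U, hU⟩, ⟨U', hU'⟩), hdU⟩).2 hqU'
    rw [hpq] at h1
    exact h2 h1

end

end

end Pool.Agent.Lib.MP_35fb4b_lc
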