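import Pool.Agent.Lib.MP_35fb4b_lc.FM1

/-!
# Lusin-Novikov: the splitting step (MP_35fb4b_lc)
-/

set_option autoImplicit false

namespace Pool.Agent.Lib.MP_35fb4b_lc

open scoped Classical
open MeasureTheory

noncomputable section

section
variable {P X : Type} [MetricSpace P] [CompleteSpace P] [SecondCountableTopology P]
  [MeasurableSpace P] [BorelSpace P] [TopologicalSpace X] [PolishSpace X] [MeasurableSpace X]
  [BorelSpace X]

/-- tuples split at the indices in T are large -/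
def fm2_LT (f : P → X) {ι : Type} (T : Finset ι) (W : ι × Bool → Set P) : Prop :=
  ∀ B, SInj f B → ∃ x, ∀ i, (∃ p, p ∈ W (i, false) ∧ p ∉ B ∧ f p = x) ∧
    (i ∈ T → ∃ p, p ∈ W (i, true) ∧ p ∉ B ∧ f p = x)

/-- separate two points by small basic sets with disjoint closures -/
theorem fm2_sep {p q : P} (hpq : p ≠ q) {ε : ℝ} (hε : 0 < ε) :
    ∃ U ∈ TopologicalSpace.countableBasis P, ∃ U' ∈ TopologicalSpace.countableBasis P,
      p ∈ U ∧ q ∈ U' ∧ Disjoint (closure U) (closure U') ∧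
      (∀ a ∈ U, ∀ b ∈ U, dist a b ≤ ε) ∧ ∀ a ∈ U', ∀ b ∈ U', dist a b ≤ ε := by
  have hd : 0 < dist p q := dist_pos.2 hpq
  obtain ⟨r, hr, hr1, hr2⟩ : ∃ r : ℝ, 0 < r ∧ r ≤ ε / 2 ∧ r ≤ dist p q / 4 :=
    ⟨min (ε / 2) (dist p q / 4), by positivity, min_le_left _ _, min_le_right _ _⟩
  have hB := TopologicalSpace.isBasis_countableBasis P
  obtain ⟨U, hU, hpU, hUr⟩ := hB.exists_subset_of_mem_open (Metric.mem_ball_self (x := p) hr)
    Metric.isOpen_ball
  obtain ⟨U', hU', hqU', hUr'⟩ := hB.exists_subset_of_mem_open (Metric.mem_ball_self (x := q) hr)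
    Metric.isOpen_ball
  refine ⟨U, hU, U', hU', hpU, hqU', ?_, ?_, ?_⟩
  · rw [Set.disjoint_left]
    intro a ha ha'
    have h1 : a ∈ Metric.closedBall p r :=
      Metric.isClosed_closedBall.closure_subset_iff.2 (hUr.trans Metric.ball_subset_closedBall) ha
    have h2 : a ∈ Metric.closedBall q r :=
      Metric.isClosed_closedBall.closure_subset_iff.2 (hUr'.trans Metric.ball_subset_closedBall) ha'
    rw [Metric.mem_closedBall] at h1 h2
    have := dist_triangle_left p q a
    linarith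
  · intro a ha b hb
    have h1 := hUr ha
    have h2 := hUr hb
    rw [Metric.mem_ball] at h1 h2
    have := dist_triangle_right a b p
    linarith
  · intro a ha b hb
    have h1 := hUr' ha
    have h2 := hUr' hb
    rw [Metric.mem_ball] at h1 h2
    have := dist_triangle_right a b q
    linarith

/-- the split family -/
def fm2_upd {ι : Type} (W : ι × Bool → Set P) (i0 : ι) (U U' : Set P) (j : ι × Bool) : Set P :=
  if j.1 = i0 then (if j.2 then W (i0, false) ∩ U' else W (i0, false) ∩ U) else W j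

theorem fm2_one {f : P → X} (hf : Continuous f) {ι : Type} [Fintype ι] (T : Finset ι)
    (W : ι × Bool → Set P) (hW : ∀ j, MeasurableSet (W j)) (hL : fm2_LT f T W) {i0 : ι}
    (hi0 : i0 ∉ T) {ε : ℝ} (hε : 0 < ε) :
    ∃ U U' : Set P, MeasurableSet U ∧ MeasurableSet U' ∧ Disjoint (closure U) (closure U') ∧
      (∀ a ∈ U, ∀ b ∈ U, dist a b ≤ ε) ∧ (∀ a ∈ U', ∀ b ∈ U', dist a b ≤ ε) ∧
      fm2_LT f (insert i0 T) (fm2_upd W i0 U U') := by
  by_contra hcon
  let J := {u : TopologicalSpace.countableBasis P × TopologicalSpace.countableBasis P //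
    Disjoint (closure (u.1 : Set P)) (closure (u.2 : Set P)) ∧
      (∀ a ∈ (u.1 : Set P), ∀ b ∈ (u.1 : Set P), dist a b ≤ ε) ∧
      ∀ a ∈ (u.2 : Set P), ∀ b ∈ (u.2 : Set P), dist a b ≤ ε}
  have hcnt : Countable (TopologicalSpace.countableBasis P) :=
    (TopologicalSpace.countable_countableBasis P).to_subtype
  have hJ : ∀ u : J, ∃ B, SInj f B ∧ ¬ ∃ x, ∀ i,
      (∃ p, p ∈ fm2_upd W i0 u.1.1 u.1.2 (i, false) ∧ p ∉ B ∧ f p = x) ∧
      (i ∈ insert i0 T → ∃ p, p ∈ fm2_upd W i0 u.1.1 u.1.2 (i, true) ∧ p ∉ B ∧ f p = x) := by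
    intro u
    have h1 : ¬ fm2_LT f (insert i0 T) (fm2_upd W i0 u.1.1 u.1.2) := by
      intro h
      exact hcon ⟨u.1.1, u.1.2,
        (TopologicalSpace.isOpen_of_mem_countableBasis u.1.1.2).measurableSet,
        (TopologicalSpace.isOpen_of_mem_countableBasis u.1.2.2).measurableSet,
        u.2.1, u.2.2.1, u.2.2.2, h⟩
    unfold fm2_LT at h1
    push Not at h1
    obtain ⟨B, hB, h2⟩ := h1
    refine ⟨B, hB, ?_⟩
    push Not
    exact h2
  choose BJ hBJ1 hBJ2 using hJ
  obtain ⟨B, hB⟩ : ∃ B, B = ⋃ u, BJ u := ⟨_, rfl⟩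
  have hBS : SInj f B := by
    rw [hB]
    exact SInj.iUnion hBJ1
  have hBm := hBS.measurableSet
  have hsub : ∀ u p, p ∉ B → p ∉ BJ u := by
    intro u p hp h
    apply hp
    rw [hB]
    exact Set.mem_iUnion_of_mem u h
  -- the analytic set of good points
  let Sf : Option (ι × Bool) → Set X := fun o => match o with
    | none => Set.univ
    | some j => if j.1 ≠ i0 ∧ (j.2 = true → j.1 ∈ T) then f '' (W j \ B) else Set.univ
  have hSf : ∀ o, AnalyticSet (Sf o) := by
    intro o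
    rcases o with _ | j
    · exact MeasurableSet.univ.analyticSet
    · change AnalyticSet (if j.1 ≠ i0 ∧ (j.2 = true → j.1 ∈ T) then f '' (W j \ B) else Set.univ)
      split_ifs
      · exact ((hW j).diff hBm).analyticSet_image hf.measurable
      · exact MeasurableSet.univ.analyticSet
  have hA : AnalyticSet (⋂ o, Sf o) := AnalyticSet.iInter hSf
  have hmemA : ∀ x, x ∈ (⋂ o, Sf o) ↔ ∀ i, i ≠ i0 →
      (∃ p, p ∈ W (i, false) ∧ p ∉ B ∧ f p = x) ∧
      (i ∈ T → ∃ p, p ∈ W (i, true) ∧ p ∉ B ∧ f p = x) := by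
    intro x
    rw [Set.mem_iInter]
    constructor
    · intro h i hi
      constructor
      · have h1 := h (some (i, false))
        change x ∈ (if i ≠ i0 ∧ (false = true → i ∈ T) then f '' (W (i, false) \ B)
          else Set.univ) at h1
        rw [if_pos ⟨hi, by simp⟩] at h1
        obtain ⟨p, ⟨hp, hpB⟩, hfp⟩ := h1
        exact ⟨p, hp, hpB, hfp⟩
      · intro hiT
        have h1 := h (some (i, true))
        change x ∈ (if i ≠ i0 ∧ (true = true → i ∈ T) then f '' (W (i, true) \ B)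
          else Set.univ) at h1
        rw [if_pos ⟨hi, fun _ => hiT⟩] at h1
        obtain ⟨p, ⟨hp, hpB⟩, hfp⟩ := h1
        exact ⟨p, hp, hpB, hfp⟩
    · intro h o
      rcases o with _ | ⟨i, b⟩
      · exact Set.mem_univ x
      · change x ∈ (if i ≠ i0 ∧ (b = true → i ∈ T) then f '' (W (i, b) \ B) else Set.univ)
        split_ifs with hc
        · obtain ⟨h1, h2⟩ := h i hc.1
          cases b
          · obtain ⟨p, hp, hpB, hfp⟩ := h1
            exact ⟨p, ⟨hp, hpB⟩, hfp⟩
          · obtain ⟨p, hp, hpB, hfp⟩ := h2 (hc.2 rfl)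
            exact ⟨p, ⟨hp, hpB⟩, hfp⟩
        · exact Set.mem_univ x
  let Cf : Bool → Set P := fun b => cond b (W (i0, false) \ B) (f ⁻¹' ⋂ o, Sf o)
  have hC : AnalyticSet (⋂ b, Cf b) := by
    apply AnalyticSet.iInter
    intro b
    cases b
    · exact hA.preimage hf
    · exact ((hW _).diff hBm).analyticSet
  have hmemC : ∀ p, p ∈ (⋂ b, Cf b) ↔ (p ∈ W (i0, false) ∧ p ∉ B) ∧ f p ∈ ⋂ o, Sf o := by
    intro p
    rw [Set.mem_iInter]
    constructor
    · intro h
      exact ⟨h true, h false⟩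
    · rintro ⟨h1, h2⟩ b
      cases b
      · exact h2
      · exact h1
  have hinj : Set.InjOn f (⋂ b, Cf b) := by
    intro p hp q hq hpq
    by_contra hne
    obtain ⟨⟨hp1, hp2⟩, hp3⟩ := (hmemC p).1 hp
    obtain ⟨⟨hq1, hq2⟩, hq3⟩ := (hmemC q).1 hq
    obtain ⟨U, hU, U', hU', hpU, hqU', hd, he, he'⟩ := fm2_sep hne hε
    apply hBJ2 ⟨(⟨U, hU⟩, ⟨U', hU'⟩), hd, he, he'⟩
    refine ⟨f p, fun i => ?_⟩
    by_cases hi : i = i0
    · subst hi
      constructor
      · refine ⟨p, ?_, hsub _ _ hp2, rfl⟩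
        unfold fm2_upd
        rw [if_pos rfl]
        exact ⟨hp1, hpU⟩
      · intro _
        refine ⟨q, ?_, hsub _ _ hq2, hpq.symm⟩
        unfold fm2_upd
        rw [if_pos rfl]
        exact ⟨hq1, hqU'⟩
    · obtain ⟨h1, h2⟩ := (hmemA (f p)).1 hp3 i hi
      constructor
      · obtain ⟨p', hp', hpB', hfp'⟩ := h1
        refine ⟨p', ?_, hsub _ _ hpB', hfp'⟩
        unfold fm2_upd
        rw [if_neg hi]
        exact hp'
      · intro hiT
        obtain ⟨p', hp', hpB', hfp'⟩ := h2 (by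
          rcases Finset.mem_insert.1 hiT with h | h
          · exact absurd h hi
          · exact h)
        refine ⟨p', ?_, hsub _ _ hpB', hfp'⟩
        unfold fm2_upd
        rw [if_neg hi]
        exact hp'
  obtain ⟨C', hC'm, hCC', hC'inj⟩ := extend_inj hf hC hinj
  obtain ⟨x, hx⟩ := hL (B ∪ C') (hBS.union (SInj.of_injOn hC'm hC'inj))
  obtain ⟨⟨p, hp1, hp2, hp3⟩, -⟩ := hx i0
  rw [Set.mem_union, not_or] at hp2
  apply hp2.2
  apply hCC'
  rw [hmemC]
  refine ⟨⟨hp1, hp2.1⟩, ?_⟩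
  rw [hmemA]
  intro i _
  obtain ⟨h1, h2⟩ := hx i
  constructor
  · obtain ⟨p', hp', hpB', hfp'⟩ := h1
    rw [Set.mem_union, not_or] at hpB'
    exact ⟨p', hp', hpB'.1, by rw [hfp', hp3]⟩
  · intro hiT
    obtain ⟨p', hp', hpB', hfp'⟩ := h2 hiT
    rw [Set.mem_union, not_or] at hpB'
    exact ⟨p', hp', hpB'.1, by rw [hfp', hp3]⟩

theorem fm2_all {f : P → X} (hf : Continuous f) {ι : Type} [Fintype ι] (V : ι → Set P)
    (hV : ∀ i, MeasurableSet (V i)) (hL : Large f V) {ε : ℝ} (hε : 0 < ε) (T : Finset ι) :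
    ∃ W : ι × Bool → Set P, (∀ j, MeasurableSet (W j)) ∧ (∀ i b, W (i, b) ⊆ V i) ∧
      (∀ i ∈ T, Disjoint (closure (W (i, false))) (closure (W (i, true)))) ∧
      (∀ i ∈ T, ∀ b, ∀ p ∈ W (i, b), ∀ q ∈ W (i, b), dist p q ≤ ε) ∧ fm2_LT f T W := by
  induction T using Finset.induction_on with
  | empty =>
    refine ⟨fun j => V j.1, fun j => hV j.1, fun i b => subset_rfl, by simp, by simp, ?_⟩
    intro B hB
    obtain ⟨x, hx⟩ := hL B hB
    exact ⟨x, fun i => ⟨hx i, fun h => by simp at h⟩⟩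
  | insert i0 T hi0 ih =>
    obtain ⟨W, h1, h2, h3, h4, h5⟩ := ih
    obtain ⟨U, U', hU, hU', hd, he, he', hLT⟩ := fm2_one hf T W h1 h5 hi0 hε
    refine ⟨fm2_upd W i0 U U', ?_, ?_, ?_, ?_, hLT⟩
    · intro j
      unfold fm2_upd
      split_ifs
      · exact (h1 _).inter hU'
      · exact (h1 _).inter hU
      · exact h1 j
    · intro i b
      unfold fm2_upd
      split_ifs with ha hb
      · have ha' : i = i0 := ha
        rw [ha']
        exact Set.inter_subset_left.trans (h2 i0 false)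
      · have ha' : i = i0 := ha
        rw [ha']
        exact Set.inter_subset_left.trans (h2 i0 false)
      · exact h2 i b
    · intro i hi
      by_cases hi' : i = i0
      · subst hi'
        unfold fm2_upd
        simp only [if_true]
        exact hd.mono (closure_mono Set.inter_subset_right) (closure_mono Set.inter_subset_right)
      · unfold fm2_upd
        simp only [if_neg hi']
        exact h3 i (by
          rcases Finset.mem_insert.1 hi with h | h
          · exact absurd h hi'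
          · exact h)
    · intro i hi b p hp q hq
      by_cases hi' : i = i0
      · subst hi'
        unfold fm2_upd at hp hq
        simp only [if_true] at hp hq
        cases b
        · exact he p hp.2 q hq.2
        · exact he' p hp.2 q hq.2
      · unfold fm2_upd at hp hq
        simp only [if_neg hi'] at hp hq
        exact h4 i (by
          rcases Finset.mem_insert.1 hi with h | h
          · exact absurd h hi'
          · exact h) b p hp q hq

theorem large_step {f : P → X} (hf : Continuous f) {ι : Type} [Fintype ι] (V : ι → Set P)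
    (hV : ∀ i, MeasurableSet (V i)) (hL : Large f V) {ε : ℝ} (hε : 0 < ε) :
    ∃ W : ι × Bool → Set P, (∀ j, MeasurableSet (W j)) ∧ (∀ i b, W (i, b) ⊆ V i) ∧
      (∀ i, Disjoint (closure (W (i, false))) (closure (W (i, true)))) ∧
      (∀ j, ∀ p ∈ W j, ∀ q ∈ W j, dist p q ≤ ε) ∧ Large f W := by
  obtain ⟨W, h1, h2, h3, h4, h5⟩ := fm2_all hf V hV hL hε Finset.univ
  refine ⟨W, h1, h2, fun i => h3 i (Finset.mem_univ i), fun j => h4 j.1 (Finset.mem_univ _) j.2,
    ?_⟩
  intro B hB
  obtain ⟨x, hx⟩ := h5 B hB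
  refine ⟨x, fun j => ?_⟩
  rcases j with ⟨i, b⟩
  cases b
  · exact (hx i).1
  · exact (hx i).2 (Finset.mem_univ i)

end

end

end Pool.Agent.Lib.MP_35fb4b_lc
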