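import Pool.Agent.Lib.MP_35fb4b_lc.FM2

/-!
# A large continuous map has an uncountable fibre
-/

set_option autoImplicit false

namespace Pool.Agent.Lib.MP_35fb4b_lc

open scoped Classical
open MeasureTheory

noncomputable section

section
variable {P X : Type} [MetricSpace P] [CompleteSpace P] [SecondCountableTopology P]
  [MeasurableSpace P] [BorelSpace P] [TopologicalSpace X] [PolishSpace X] [MeasurableSpace X]
  [BorelSpace X]

/-- the first `n` values of a sequence -/
def fm3_res (n : ℕ) (α : ℕ → Bool) : Fin n → Bool := fun i => α i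

theorem fm3_step {f : P → X} (hf : Continuous f) (n : ℕ) (V : (Fin n → Bool) → Set P)
    (hV : ∀ s, MeasurableSet (V s)) (hL : Large f V) :
    ∃ V' : (Fin (n + 1) → Bool) → Set P, ((∀ s, MeasurableSet (V' s)) ∧ Large f V') ∧
      (∀ s, V' s ⊆ V (Fin.init s)) ∧
      (∀ s s', Fin.init s = Fin.init s' → s (Fin.last n) ≠ s' (Fin.last n) →
        Disjoint (closure (V' s)) (closure (V' s'))) ∧
      ∀ s, ∀ p ∈ V' s, ∀ q ∈ V' s, dist p q ≤ (1 / 2 : ℝ) ^ n := by
  obtain ⟨W, h1, h2, h3, h4, h5⟩ := large_step hf V hV hL (ε := (1 / 2 : ℝ) ^ n) (by positivity)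
  refine ⟨fun s => W (Fin.init s, s (Fin.last n)), ⟨fun s => h1 _, ?_⟩, fun s => h2 _ _, ?_,
    fun s => h4 _⟩
  · intro B hB
    obtain ⟨x, hx⟩ := h5 B hB
    exact ⟨x, fun s => hx _⟩
  · intro s s' hs hne
    simp only
    rw [hs]
    cases h : s (Fin.last n) <;> cases h' : s' (Fin.last n)
    · rw [h, h'] at hne
      exact absurd rfl hne
    · exact h3 _
    · exact (h3 _).symm
    · rw [h, h'] at hne
      exact absurd rfl hne

theorem fm3_not_countable : ¬ Countable (ℕ → Bool) := by
  intro h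
  obtain ⟨g, hg⟩ := exists_surjective_nat (ℕ → Bool)
  obtain ⟨m, hm⟩ := hg (fun n => !(g n n))
  have := congrFun hm m
  simp at this

theorem uncountable_fiber {f : P → X} (hf : Continuous f)
    (hL : Large f (fun _ : Unit => (Set.univ : Set P))) : ∃ x, ¬ (f ⁻¹' {x}).Countable := by
  -- the scheme
  let St : ℕ → Type := fun n => {V : (Fin n → Bool) → Set P // (∀ s, MeasurableSet (V s)) ∧ Large f V}
  choose next hnext using fun (n : ℕ) (V : St n) => fm3_step hf n V.1 V.2.1 V.2.2
  have hL0 : Large f (fun _ : Fin 0 → Bool => (Set.univ : Set P)) := by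
    intro B hB
    obtain ⟨x, hx⟩ := hL B hB
    exact ⟨x, fun _ => hx ()⟩
  let S : ∀ n, St n := fun n => Nat.rec
    (⟨fun _ => Set.univ, fun _ => MeasurableSet.univ, hL0⟩ : St 0)
    (fun n V => (⟨next n V, (hnext n V).1⟩ : St (n + 1))) n
  have hS : ∀ n, (S (n + 1)).1 = next n (S n) := fun n => rfl
  have hsub : ∀ n s, (S (n + 1)).1 s ⊆ (S n).1 (Fin.init s) := fun n s => by
    rw [hS]
    exact (hnext n (S n)).2.1 s
  have hdisj : ∀ n s s', Fin.init s = Fin.init s' → s (Fin.last n) ≠ s' (Fin.last n) →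
      Disjoint (closure ((S (n + 1)).1 s)) (closure ((S (n + 1)).1 s')) := fun n => by
    rw [hS]
    exact (hnext n (S n)).2.2.1
  have hdiam : ∀ n s, ∀ p ∈ (S (n + 1)).1 s, ∀ q ∈ (S (n + 1)).1 s, dist p q ≤ (1 / 2 : ℝ) ^ n :=
    fun n => by
      rw [hS]
      exact (hnext n (S n)).2.2.2
  -- points
  have hpt : ∀ n, ∃ x, ∀ s, ∃ p, p ∈ (S n).1 s ∧ f p = x := by
    intro n
    obtain ⟨x, hx⟩ := (S n).2.2 ∅ (SInj.of_injOn MeasurableSet.empty (Set.injOn_empty f))
    refine ⟨x, fun s => ?_⟩
    obtain ⟨p, hp1, _, hp2⟩ := hx s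
    exact ⟨p, hp1, hp2⟩
  choose x p hp1 hp2 using hpt
  have hinit : ∀ n (α : ℕ → Bool), Fin.init (fm3_res (n + 1) α) = fm3_res n α := fun n α => rfl
  have hanti : ∀ (α : ℕ → Bool) m n, m ≤ n → (S n).1 (fm3_res n α) ⊆ (S m).1 (fm3_res m α) := by
    intro α m n hmn
    induction n, hmn using Nat.le_induction with
    | base => exact subset_rfl
    | succ n _ ih =>
      refine Set.Subset.trans ?_ ih
      have := hsub n (fm3_res (n + 1) α)
      rwa [hinit] at this
  let u : (ℕ → Bool) → ℕ → P := fun α n => p (n + 1) (fm3_res (n + 1) α)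
  have hu : ∀ α n, u α n ∈ (S (n + 1)).1 (fm3_res (n + 1) α) := fun α n => hp1 _ _
  have hcau : ∀ α, CauchySeq (u α) := by
    intro α
    refine cauchySeq_of_le_geometric (1 / 2) 1 (by norm_num) fun n => ?_
    rw [one_mul]
    exact hdiam n _ _ (hu α n) _ (hanti α (n + 1) (n + 2) (by omega) (hu α (n + 1)))
  choose L hLim using fun α => cauchySeq_tendsto_of_complete (hcau α)
  have hcl : ∀ α m, L α ∈ closure ((S m).1 (fm3_res m α)) := by
    intro α m
    refine mem_closure_of_tendsto (hLim α) ?_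
    filter_upwards [Filter.eventually_ge_atTop m] with n hn
    exact hanti α m (n + 1) (by omega) (hu α n)
  have hfL : ∀ α, Filter.Tendsto (fun n => x (n + 1)) Filter.atTop (nhds (f (L α))) := by
    intro α
    have h1 := (hf.tendsto (L α)).comp (hLim α)
    refine h1.congr fun n => ?_
    exact hp2 _ _
  have hinj : Function.Injective L := by
    intro α β hαβ
    by_contra hne
    have hex : ∃ n, α n ≠ β n := by
      by_contra h
      push Not at h
      exact hne (funext h)
    have hn := Nat.find_spec hex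
    set n := Nat.find hex with hndef
    have hlt : ∀ m < n, α m = β m := by
      intro m hm
      by_contra h
      exact Nat.find_min hex hm h
    have hres : fm3_res n α = fm3_res n β := funext fun i => hlt i i.2
    have h1 := hdisj n (fm3_res (n + 1) α) (fm3_res (n + 1) β)
      (by rw [hinit, hinit, hres]) hn
    rw [Set.disjoint_left] at h1
    refine h1 (hcl α (n + 1)) ?_
    rw [hαβ]
    exact hcl β (n + 1)
  refine ⟨f (L fun _ => false), fun hc => fm3_not_countable ?_⟩
  have hrange : Set.range L ⊆ f ⁻¹' {f (L fun _ => false)} := by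
    rintro _ ⟨α, rfl⟩
    exact tendsto_nhds_unique (hfL α) (hfL _)
  have h2 : (Set.range L).Countable := hc.mono hrange
  have h3 : Countable (Set.range L) := h2
  exact (Set.rangeFactorization_injective.mpr hinj).countable

end

end

end Pool.Agent.Lib.MP_35fb4b_lc
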