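import Pool.Agent.Lib.MP_35fb4b_lc.FM3

set_option autoImplicit false

namespace Pool.Agent.Lib.MP_35fb4b_lc

open scoped Classical
open MeasureTheory

noncomputable section

section
variable {P X : Type} [MetricSpace P] [CompleteSpace P] [SecondCountableTopology P]
  [MeasurableSpace P] [BorelSpace P] [TopologicalSpace X] [PolishSpace X] [MeasurableSpace X]
  [BorelSpace X]

theorem fm4_core {f : P → X} (hf : Continuous f) (hc : ∀ x, (f ⁻¹' {x}).Countable) :
    SInj f (Set.univ : Set P) := by
  by_contra h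
  have hL : Large f (fun _ : Unit => (Set.univ : Set P)) := by
    intro B hB
    have hne : B ≠ Set.univ := by
      rintro rfl
      exact h hB
    obtain ⟨p, hp⟩ := (Set.ne_univ_iff_exists_notMem B).1 hne
    exact ⟨f p, fun _ => ⟨p, Set.mem_univ p, hp, rfl⟩⟩
  obtain ⟨x, hx⟩ := uncountable_fiber hf hL
  exact hx (hc x)

end

/-! ### FM4 -/
theorem lusin_novikov {P X : Type} [MeasurableSpace P] [StandardBorelSpace P] [MeasurableSpace X]
    [StandardBorelSpace X] {f : P → X} (hf : Measurable f) (hc : ∀ x, (f ⁻¹' {x}).Countable) :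
    ∃ C : ℕ → Set P, (∀ n, MeasurableSet (C n)) ∧ (∀ n, Set.InjOn f (C n)) ∧
      ⋃ n, C n = Set.univ := by
  obtain ⟨tP, hbP, hpP⟩ := StandardBorelSpace.polish (α := P)
  obtain ⟨tX, hbX, hpX⟩ := StandardBorelSpace.polish (α := X)
  obtain ⟨t', ht', hfc, hp'⟩ := hf.exists_continuous
  have hb' : @BorelSpace P t' _ :=
    @BorelSpace.mk P t' _ (by
      rw [hbP.measurable_eq]
      exact (borel_eq_borel_of_le hp' hpP ht').symm)
  clear ht' hbP hpP
  clear tP
  let : TopologicalSpace P := t'
  let := TopologicalSpace.upgradeIsCompletelyMetrizable P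
  have : SecondCountableTopology P := inferInstance
  obtain ⟨C, hC1, hC2, hC3⟩ := fm4_core hfc hc
  exact ⟨C, hC1, hC2, hC3.symm⟩

end

end Pool.Agent.Lib.MP_35fb4b_lc
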