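import Pool.Agent.Lib.MP_35fb4b_lc.FM4

set_option autoImplicit false

namespace Pool.Agent.Lib.MP_35fb4b_lc

open scoped Classical
open MeasureTheory

noncomputable section

/-! ### FM5 -/
theorem exists_selectors {X : Type} [MeasurableSpace X] [StandardBorelSpace X] (E : X → X → Prop)
    (hE : MeasurableSet {p : X × X | E p.1 p.2}) (hc : ∀ x, {y | E x y}.Countable) :
    ∃ G : ℕ → X → X, (∀ n, Measurable (G n)) ∧ ∀ x y, E x y → ∃ n, G n x = y := by
  have : StandardBorelSpace {p : X × X | E p.1 p.2} := hE.standardBorel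
  have hf : Measurable (fun p : {p : X × X | E p.1 p.2} => p.1.1) :=
    measurable_fst.comp measurable_subtype_coe
  have hs : Measurable (fun p : {p : X × X | E p.1 p.2} => p.1.2) :=
    measurable_snd.comp measurable_subtype_coe
  obtain ⟨C, hC1, hC2, hC3⟩ := lusin_novikov hf (by
    intro x
    refine Set.Countable.mono (s₂ := ((fun p : {p : X × X | E p.1 p.2} => p.1.2) ⁻¹' {y | E x y}) ∩
      ((fun p : {p : X × X | E p.1 p.2} => p.1.1) ⁻¹' {x})) ?_ ?_
    · rintro ⟨⟨a, b⟩, hab⟩ h
      simp only [Set.mem_preimage, Set.mem_singleton_iff] at h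
      subst h
      exact ⟨hab, rfl⟩
    · refine Set.MapsTo.countable_of_injOn (f := fun p : {p : X × X | E p.1 p.2} => p.1.2)
        (t := {y | E x y}) ?_ ?_ (hc x)
      · intro p hp
        exact hp.1
      · intro p hp q hq hpq
        have h1 : p.1.1 = x := hp.2
        have h2 : q.1.1 = x := hq.2
        exact Subtype.ext (Prod.ext (h1.trans h2.symm) hpq))
  have key : ∀ n, ∃ g : X → X, Measurable g ∧ ∀ p ∈ C n, g p.1.1 = p.1.2 := by
    intro n
    have : StandardBorelSpace (C n) := (hC1 n).standardBorel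
    have hfn : Measurable (fun p : C n => p.1.1.1) := hf.comp measurable_subtype_coe
    have hsn : Measurable (fun p : C n => p.1.1.2) := hs.comp measurable_subtype_coe
    have hinj : Function.Injective (fun p : C n => p.1.1.1) := by
      intro p q hpq
      exact Subtype.ext (hC2 n p.2 q.2 hpq)
    have hemb := hfn.measurableEmbedding hinj
    obtain ⟨g, hg, hgf⟩ := hemb.exists_measurable_extend hsn (fun x => ⟨x⟩)
    exact ⟨g, hg, fun p hp => congrFun hgf ⟨p, hp⟩⟩
  choose G hG1 hG2 using key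
  refine ⟨G, hG1, fun x y hxy => ?_⟩
  have hmem : (⟨(x, y), hxy⟩ : {p : X × X | E p.1 p.2}) ∈ ⋃ n, C n := by
    rw [hC3]
    trivial
  obtain ⟨n, hn⟩ := Set.mem_iUnion.1 hmem
  exact ⟨n, hG2 n _ hn⟩

end

end Pool.Agent.Lib.MP_35fb4b_lc
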