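import Pool.Agent.Lib.MP_35fb4b_lc.FMDefs
import Pool.Agent.Lib.MP_35fb4b_lc.FM5

/-!
# The theorem of Feldman and Moore (MP_35fb4b_lc, module FM6)
-/

set_option autoImplicit false

namespace Pool.Agent.Lib.MP_35fb4b_lc

open scoped Classical
open MeasureTheory

noncomputable section

/-- first piece -/
def fm6_D {X : Type} (E : X → X → Prop) (u v : X → X) (A : Set X) : Set X :=
  {x | E x (u x) ∧ v (u x) = x ∧ x ∈ A ∧ u x ∉ A}

/-- the involution exchanging the two pieces -/
def fm6_g {X : Type} (E : X → X → Prop) (u v : X → X) (A : Set X) (x : X) : X :=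
  if x ∈ fm6_D E u v A then u x else if x ∈ fm6_D E v u Aᶜ then v x else x

theorem fm6_D_symm {X : Type} {E : X → X → Prop} (hE : Equivalence E) {u v : X → X} {A : Set X}
    {x : X} (h : x ∈ fm6_D E u v A) : u x ∈ fm6_D E v u Aᶜ := by
  obtain ⟨h1, h2, h3, h4⟩ := h
  refine ⟨?_, ?_, h4, ?_⟩
  · rw [h2]; exact hE.symm h1
  · rw [h2]
  · rw [h2]
    intro h
    exact h h3

theorem fm6_not_mem {X : Type} {E : X → X → Prop} {u v : X → X} {A : Set X}
    {x : X} (h : x ∈ fm6_D E v u Aᶜ) : x ∉ fm6_D E u v A := by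
  intro h'
  exact h.2.2.1 h'.2.2.1

theorem fm6_g_g {X : Type} {E : X → X → Prop} (hE : Equivalence E) (u v : X → X) (A : Set X)
    (x : X) : fm6_g E u v A (fm6_g E u v A x) = x := by
  by_cases h1 : x ∈ fm6_D E u v A
  · have h2 : fm6_g E u v A x = u x := by
      unfold fm6_g
      rw [if_pos h1]
    have h3 := fm6_D_symm hE h1
    have h4 := fm6_not_mem h3
    rw [h2]
    unfold fm6_g
    rw [if_neg h4, if_pos h3]
    exact h1.2.1
  · by_cases h2 : x ∈ fm6_D E v u Aᶜ
    · have h3 : fm6_g E u v A x = v x := by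
        unfold fm6_g
        rw [if_neg h1, if_pos h2]
      have h4 := fm6_D_symm hE h2
      rw [compl_compl] at h4
      rw [h3]
      unfold fm6_g
      rw [if_pos h4]
      exact h2.2.1
    · have h3 : fm6_g E u v A x = x := by
        unfold fm6_g
        rw [if_neg h1, if_neg h2]
      rw [h3, h3]

theorem fm6_g_rel {X : Type} {E : X → X → Prop} (hE : Equivalence E) (u v : X → X) (A : Set X)
    (x : X) : E x (fm6_g E u v A x) := by
  unfold fm6_g
  split_ifs with h1 h2
  · exact h1.1
  · exact h2.1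
  · exact hE.refl x

theorem fm6_D_meas {X : Type} [MeasurableSpace X] [StandardBorelSpace X] {E : X → X → Prop}
    (hm : MeasurableSet {p : X × X | E p.1 p.2}) {u v : X → X} (hu : Measurable u)
    (hv : Measurable v) {A : Set X} (hA : MeasurableSet A) : MeasurableSet (fm6_D E u v A) := by
  have h1 : MeasurableSet {x | E x (u x)} := (measurable_id.prodMk hu) hm
  have h2 : MeasurableSet {x | v (u x) = x} := measurableSet_eq_fun (hv.comp hu) measurable_id
  have h3 : MeasurableSet {x | u x ∉ A} := hu hA.compl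
  exact h1.inter (h2.inter (hA.inter h3))

theorem fm6_g_meas {X : Type} [MeasurableSpace X] [StandardBorelSpace X] {E : X → X → Prop}
    (hm : MeasurableSet {p : X × X | E p.1 p.2}) {u v : X → X} (hu : Measurable u)
    (hv : Measurable v) {A : Set X} (hA : MeasurableSet A) : Measurable (fm6_g E u v A) := by
  refine Measurable.ite (fm6_D_meas hm hu hv hA) hu ?_
  exact Measurable.ite (fm6_D_meas hm hv hu hA.compl) hv measurable_id

/-- the involution as a permutation -/
def fm6_perm {X : Type} {E : X → X → Prop} (hE : Equivalence E) (u v : X → X) (A : Set X) :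
    Equiv.Perm X where
  toFun := fm6_g E u v A
  invFun := fm6_g E u v A
  left_inv := fm6_g_g hE u v A
  right_inv := fm6_g_g hE u v A

theorem feldman_moore {X : Type} [MeasurableSpace X] [StandardBorelSpace X] (E : X → X → Prop)
    (hE : Equivalence E) (hm : MeasurableSet {p : X × X | E p.1 p.2})
    (hc : ∀ x, {y | E x y}.Countable) :
    ∃ (G : Type) (_ : Group G) (_ : Countable G) (_ : MulAction G X),
      (∀ γ : G, Measurable (fun x : X => γ • x)) ∧ ∀ x y, E x y ↔ ∃ γ : G, x = γ • y := by
  obtain ⟨G, hG, hsel⟩ := exists_selectors E hm hc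
  obtain ⟨ι, hι, hinj⟩ := MeasurableSpace.measurable_injection_nat_bool_of_countablySeparated X
  set A : ℕ × Bool → Set X := fun p => {x | ι x p.1 = p.2} with hAdef
  have hA : ∀ p, MeasurableSet (A p) := by
    intro p
    have h1 : Measurable (fun x => ι x p.1) := (measurable_pi_apply p.1).comp hι
    exact h1 (measurableSet_singleton p.2)
  set σ : ℕ × ℕ × (ℕ × Bool) → Equiv.Perm X :=
    fun i => fm6_perm hE (G i.1) (G i.2.1) (A i.2.2) with hσ
  have hσg : ∀ i x, σ i x = fm6_g E (G i.1) (G i.2.1) (A i.2.2) x := fun i x => rfl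
  have hσinv : ∀ i, (σ i)⁻¹ = σ i := by
    intro i
    ext x
    rfl
  let Φ : FreeGroup (ℕ × ℕ × (ℕ × Bool)) →* Equiv.Perm X := FreeGroup.lift σ
  have hΦ : ∀ γ : FreeGroup (ℕ × ℕ × (ℕ × Bool)), Measurable (fun x : X => Φ γ x) ∧
      ∀ x, E (Φ γ x) x := by
    intro γ
    induction γ using FreeGroup.induction_on with
    | C1 =>
      refine ⟨?_, ?_⟩
      · simp only [map_one, Equiv.Perm.coe_one, id_eq]
        exact measurable_id
      · intro x
        simp only [map_one, Equiv.Perm.coe_one, id_eq]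
        exact hE.refl x
    | of i =>
      have h1 : Φ (FreeGroup.of i) = σ i := FreeGroup.lift_apply_of
      rw [h1]
      exact ⟨fm6_g_meas hm (hG _) (hG _) (hA _), fun x => hE.symm (fm6_g_rel hE _ _ _ x)⟩
    | inv_of i h =>
      have h1 : Φ (FreeGroup.of i) = σ i := FreeGroup.lift_apply_of
      rw [map_inv, h1, hσinv]
      exact ⟨fm6_g_meas hm (hG _) (hG _) (hA _), fun x => hE.symm (fm6_g_rel hE _ _ _ x)⟩
    | mul a b ha hb =>
      rw [map_mul]
      refine ⟨?_, ?_⟩
      · exact ha.1.comp hb.1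
      · intro x
        exact hE.trans (ha.2 (Φ b x)) (hb.2 x)
  refine ⟨FreeGroup (ℕ × ℕ × (ℕ × Bool)), inferInstance, inferInstance,
    MulAction.compHom X Φ, ?_, ?_⟩
  · intro γ
    exact (hΦ γ).1
  · intro x y
    constructor
    · intro hxy
      by_cases hne : x = y
      · refine ⟨1, ?_⟩
        subst hne
        change x = Φ 1 x
        rw [map_one]
        rfl
      · obtain ⟨n, hn⟩ := hsel y x (hE.symm hxy)
        obtain ⟨m, hm'⟩ := hsel x y hxy
        have h1 : ι y ≠ ι x := fun h => hne (hinj h).symm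
        obtain ⟨p, hp⟩ := Function.ne_iff.mp h1
        refine ⟨FreeGroup.of (n, m, (p, ι y p)), ?_⟩
        change x = Φ (FreeGroup.of (n, m, (p, ι y p))) y
        have h2 : Φ (FreeGroup.of (n, m, (p, ι y p))) = σ (n, m, (p, ι y p)) :=
          FreeGroup.lift_apply_of
        rw [h2, hσg]
        have h3 : y ∈ fm6_D E (G n) (G m) (A (p, ι y p)) := by
          refine ⟨?_, ?_, ?_, ?_⟩
          · rw [hn]; exact hE.symm hxy
          · rw [hn, hm']
          · rfl
          · rw [hn]
            intro h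
            exact hp h.symm
        unfold fm6_g
        rw [if_pos h3, hn]
    · rintro ⟨γ, rfl⟩
      exact (hΦ γ).2 y

end

end Pool.Agent.Lib.MP_35fb4b_lc
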