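import Mathlib

/-!
# The theorems of Lusin-Novikov and Feldman-Moore (MP_35fb4b_lc): definitions
-/

set_option autoImplicit false

namespace Pool.Agent.Lib.MP_35fb4b_lc

open scoped Classical

noncomputable section

/-- countable union of measurable sets on which `f` is injective -/
def SInj {P X : Type} [MeasurableSpace P] (f : P → X) (B : Set P) : Prop :=
  ∃ C : ℕ → Set P, (∀ n, MeasurableSet (C n)) ∧ (∀ n, Set.InjOn f (C n)) ∧ B = ⋃ n, C n

/-- no set in `SInj` meets all the tuples of `V` over one point -/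
def Large {P X : Type} [MeasurableSpace P] (f : P → X) {ι : Type} (V : ι → Set P) : Prop :=
  ∀ B, SInj f B → ∃ x, ∀ i, ∃ p, p ∈ V i ∧ p ∉ B ∧ f p = x

theorem SInj.measurableSet {P X : Type} [MeasurableSpace P] {f : P → X} {B : Set P}
    (h : SInj f B) : MeasurableSet B := by
  obtain ⟨C, hC, _, rfl⟩ := h
  exact MeasurableSet.iUnion hC

theorem SInj.of_injOn {P X : Type} [MeasurableSpace P] {f : P → X} {B : Set P}
    (hB : MeasurableSet B) (h : Set.InjOn f B) : SInj f B :=
  ⟨fun _ => B, fun _ => hB, fun _ => h, (Set.iUnion_const B).symm⟩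

theorem SInj.iUnion {P X ι : Type} [Countable ι] [MeasurableSpace P] {f : P → X}
    {B : ι → Set P} (h : ∀ i, SInj f (B i)) : SInj f (⋃ i, B i) := by
  rcases isEmpty_or_nonempty ι with hι | hι
  · refine ⟨fun _ => ∅, fun _ => MeasurableSet.empty, fun _ => Set.injOn_empty f, ?_⟩
    simp
  · choose C hC1 hC2 hC3 using h
    obtain ⟨e, he⟩ := exists_surjective_nat (ι × ℕ)
    refine ⟨fun n => C (e n).1 (e n).2, fun n => hC1 _ _, fun n => hC2 _ _, ?_⟩
    ext p
    simp only [Set.mem_iUnion, hC3]
    constructor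
    · rintro ⟨i, n, h⟩
      obtain ⟨m, hm⟩ := he (i, n)
      exact ⟨m, by rw [hm]; exact h⟩
    · rintro ⟨m, h⟩
      exact ⟨_, _, h⟩

theorem SInj.union {P X : Type} [MeasurableSpace P] {f : P → X} {B B' : Set P} (h : SInj f B)
    (h' : SInj f B') : SInj f (B ∪ B') := by
  have := SInj.iUnion (f := f) (B := fun b : Bool => cond b B B') (by
    intro b
    cases b
    · exact h'
    · exact h)
  rwa [Set.union_eq_iUnion]

end

end Pool.Agent.Lib.MP_35fb4b_lc
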