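import Pool.Agent.Lib.MP_35fb4b_lc.Defs

/-! M2: a spectral gap gives a height function. -/

set_option autoImplicit false

namespace Pool.Agent.Lib.MP_35fb4b_lc

open scoped Classical Pointwise

noncomputable section

/-- the sum over a pair of distinct elements is bounded by the full sum -/
theorem m2_pair {α : Type} (T : Finset α) (f : α → ℝ) (hf : ∀ i ∈ T, 0 ≤ f i) (a b : α)
    (ha : a ∈ T) (hb : b ∈ T) (hab : a ≠ b) : f a + f b ≤ ∑ i ∈ T, f i := by
  rw [← Finset.sum_pair hab]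
  refine Finset.sum_le_sum_of_subset_of_nonneg ?_ fun i hi _ => hf i hi
  intro i hi
  rcases Finset.mem_insert.1 hi with rfl | hi
  · exact ha
  · rw [Finset.mem_singleton.1 hi]
    exact hb

/-- variance bound -/
theorem m2_var {α : Type} (T : Finset α) (f : α → ℝ) (a b : α) (ha : a ∈ T) (hb : b ∈ T) :
    (f a - f b) ^ 2 ≤ T.card * ∑ s ∈ T, f s ^ 2 - (∑ s ∈ T, f s) ^ 2 := by
  have h1 : ∑ s ∈ T, ∑ t ∈ T, (f s - f t) ^ 2 =
      2 * (T.card * ∑ s ∈ T, f s ^ 2 - (∑ s ∈ T, f s) ^ 2) := by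
    have h2 : ∀ s t, (f s - f t) ^ 2 = f s ^ 2 + f t ^ 2 - 2 * (f s * f t) := by
      intro s t
      ring
    simp only [h2, Finset.sum_sub_distrib, Finset.sum_add_distrib, Finset.sum_const,
      nsmul_eq_mul, ← Finset.mul_sum, ← Finset.sum_mul]
    ring
  rcases eq_or_ne a b with rfl | hab
  · have h3 : 0 ≤ ∑ s ∈ T, ∑ t ∈ T, (f s - f t) ^ 2 :=
      Finset.sum_nonneg fun s _ => Finset.sum_nonneg fun t _ => sq_nonneg _
    rw [h1] at h3
    rw [sub_self]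
    nlinarith
  · have h3 := m2_pair T (fun s => ∑ t ∈ T, (f s - f t) ^ 2)
      (fun i _ => Finset.sum_nonneg fun t _ => sq_nonneg _) a b ha hb hab
    have h4 : (f a - f b) ^ 2 ≤ ∑ t ∈ T, (f a - f t) ^ 2 :=
      Finset.single_le_sum (f := fun t => (f a - f t) ^ 2) (fun t _ => sq_nonneg _) hb
    have h5 : (f b - f a) ^ 2 ≤ ∑ t ∈ T, (f b - f t) ^ 2 :=
      Finset.single_le_sum (f := fun t => (f b - f t) ^ 2) (fun t _ => sq_nonneg _) ha
    rw [h1] at h3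
    nlinarith

section action
variable {Γ X : Type} [Group Γ] [MulAction Γ X]

theorem m2_summable_smul (s : Γ) {f : X → ℝ} (hf : Summable f) :
    Summable (fun x => f (s • x)) :=
  (MulAction.toPerm s : Equiv.Perm X).summable_iff.2 hf

theorem m2_tsum_smul (s : Γ) (f : X → ℝ) : ∑' x, f (s • x) = ∑' x, f x :=
  (MulAction.toPerm s : Equiv.Perm X).tsum_eq f

/-- a finite sum of translates is square summable -/
theorem m2_summable_sum (T : Finset Γ) {f : X → ℝ} (hf : Summable fun x => f x ^ 2) :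
    Summable (fun x => (∑ s ∈ T, f (s • x)) ^ 2) := by
  have h1 : Summable (fun x => (T.card : ℝ) * ∑ s ∈ T, f (s • x) ^ 2) :=
    (summable_sum fun s _ => m2_summable_smul s hf).mul_left _
  refine Summable.of_nonneg_of_le (fun x => sq_nonneg _) (fun x => ?_) h1
  exact sq_sum_le_card_mul_sum_sq

/-- the averaging operator contracts the squared norm -/
theorem m2_contract (S T : Finset Γ) (hST : S ⊆ T) (h1T : (1 : Γ) ∈ T) (ε : ℝ)
    (h : ∀ ξ : X → ℝ, Summable (fun x => ξ x ^ 2) →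
      ∃ s ∈ S, ε * ∑' x, ξ x ^ 2 ≤ ∑' x, (ξ (s • x) - ξ x) ^ 2)
    (f : X → ℝ) (hf : Summable fun x => f x ^ 2) :
    ∑' x, (∑ s ∈ T, f (s • x)) ^ 2 ≤ ((T.card : ℝ) ^ 2 - ε) * ∑' x, f x ^ 2 := by
  obtain ⟨s0, hs0, hs⟩ := h f hf
  have hsum1 : Summable (fun x => (T.card : ℝ) * ∑ s ∈ T, f (s • x) ^ 2) :=
    (summable_sum fun s _ => m2_summable_smul s hf).mul_left _
  have hsum2 := m2_summable_sum T hf
  have hpt : ∀ x, (f (s0 • x) - f x) ^ 2 ≤
      (T.card : ℝ) * ∑ s ∈ T, f (s • x) ^ 2 - (∑ s ∈ T, f (s • x)) ^ 2 := by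
    intro x
    have h3 := m2_var T (fun s : Γ => f (s • x)) s0 1 (hST hs0) h1T
    simpa using h3
  have hsum3 : Summable (fun x => (f (s0 • x) - f x) ^ 2) :=
    Summable.of_nonneg_of_le (fun x => sq_nonneg _) hpt (hsum1.sub hsum2)
  have h4 := hsum3.tsum_le_tsum hpt (hsum1.sub hsum2)
  rw [hsum1.tsum_sub hsum2, tsum_mul_left, Summable.tsum_finsetSum fun s _ =>
    m2_summable_smul s hf] at h4
  have h5 : ∑ s ∈ T, ∑' x, f (s • x) ^ 2 = T.card * ∑' x, f x ^ 2 := by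
    rw [Finset.sum_congr rfl fun s _ => m2_tsum_smul s fun x => f x ^ 2]
    rw [Finset.sum_const, nsmul_eq_mul]
  rw [h5] at h4
  nlinarith

/-- the averaging operator -/
def m2_P (T : Finset Γ) (f : X → ℝ) : X → ℝ := fun x => (T.card : ℝ)⁻¹ * ∑ s ∈ T, f (s • x)

theorem m2_P_pos (T : Finset Γ) (h1T : (1 : Γ) ∈ T) (f : X → ℝ) (hf : ∀ x, 0 < f x) (x : X) :
    0 < m2_P T f x := by
  have hT : T.Nonempty := ⟨1, h1T⟩
  have hc : 0 < (T.card : ℝ) := by exact_mod_cast hT.card_pos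
  exact mul_pos (inv_pos.2 hc) (Finset.sum_pos (fun s _ => hf _) hT)

theorem m2_P_summable (T : Finset Γ) {f : X → ℝ} (hf : Summable fun x => f x ^ 2) :
    Summable fun x => m2_P T f x ^ 2 := by
  have h1 := (m2_summable_sum T hf).mul_left (((T.card : ℝ)⁻¹) ^ 2)
  refine h1.congr fun x => ?_
  rw [m2_P]
  ring

theorem m2_P_contract (S T : Finset Γ) (hST : S ⊆ T) (h1T : (1 : Γ) ∈ T) (ε l : ℝ)
    (hl : 1 - ε / (T.card : ℝ) ^ 2 ≤ l)
    (h : ∀ ξ : X → ℝ, Summable (fun x => ξ x ^ 2) →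
      ∃ s ∈ S, ε * ∑' x, ξ x ^ 2 ≤ ∑' x, (ξ (s • x) - ξ x) ^ 2)
    (f : X → ℝ) (hf : Summable fun x => f x ^ 2) :
    ∑' x, m2_P T f x ^ 2 ≤ l * ∑' x, f x ^ 2 := by
  have hT : T.Nonempty := ⟨1, h1T⟩
  have hc : 0 < (T.card : ℝ) := by exact_mod_cast hT.card_pos
  have h1 := m2_contract S T hST h1T ε h f hf
  have h2 : ∑' x, m2_P T f x ^ 2 = ((T.card : ℝ)⁻¹) ^ 2 * ∑' x, (∑ s ∈ T, f (s • x)) ^ 2 := by
    rw [← tsum_mul_left]
    refine tsum_congr fun x => ?_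
    rw [m2_P]
    ring
  rw [h2]
  have h3 : 0 ≤ ∑' x, f x ^ 2 := tsum_nonneg fun x => sq_nonneg _
  calc ((T.card : ℝ)⁻¹) ^ 2 * ∑' x, (∑ s ∈ T, f (s • x)) ^ 2
      ≤ ((T.card : ℝ)⁻¹) ^ 2 * (((T.card : ℝ) ^ 2 - ε) * ∑' x, f x ^ 2) :=
        mul_le_mul_of_nonneg_left h1 (sq_nonneg _)
    _ = (1 - ε / (T.card : ℝ) ^ 2) * ∑' x, f x ^ 2 := by
        field_simp
    _ ≤ l * ∑' x, f x ^ 2 := mul_le_mul_of_nonneg_right hl h3

end action

/-! ### M2 (M2.lean) -/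
theorem exists_height {Γ X : Type} [Group Γ] [MulAction Γ X] [Countable X] (S : Finset Γ) (ε : ℝ)
    (hε : 0 < ε) (h : ∀ ξ : X → ℝ, Summable (fun x => ξ x ^ 2) →
      ∃ s ∈ S, ε * ∑' x, ξ x ^ 2 ≤ ∑' x, (ξ (s • x) - ξ x) ^ 2) : Nonempty (Ht Γ X) := by
  -- the symmetric set
  obtain ⟨T, hST, h1T, hTinv⟩ : ∃ T : Finset Γ, S ⊆ T ∧ (1 : Γ) ∈ T ∧ ∀ s ∈ T, s⁻¹ ∈ T := by
    refine ⟨S ∪ S⁻¹ ∪ {1}, fun s hs => ?_, ?_, fun s hs => ?_⟩
    · simp [hs]
    · simp
    · simp only [Finset.mem_union, Finset.mem_inv', Finset.mem_singleton, inv_inv] at hs ⊢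
      rcases hs with (hs | hs) | hs
      · exact Or.inl (Or.inr hs)
      · exact Or.inl (Or.inl hs)
      · right
        rw [hs, inv_one]
  have hT : T.Nonempty := ⟨1, h1T⟩
  have hN1 : 1 ≤ (T.card : ℝ) := by exact_mod_cast hT.card_pos
  have hN0 : 0 < (T.card : ℝ) := by linarith
  -- the constants
  obtain ⟨l0, hl0, hl1, hl⟩ : ∃ l0 : ℝ, 0 < l0 ∧ l0 < 1 ∧ 1 - ε / (T.card : ℝ) ^ 2 ≤ l0 ^ 2 := by
    have hpos : 0 < max (1 - ε / (T.card : ℝ) ^ 2) (1 / 4) :=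
      lt_of_lt_of_le (by norm_num) (le_max_right _ _)
    refine ⟨Real.sqrt (max (1 - ε / (T.card : ℝ) ^ 2) (1 / 4)), Real.sqrt_pos.2 hpos, ?_, ?_⟩
    · rw [Real.sqrt_lt' one_pos, one_pow]
      refine max_lt ?_ (by norm_num)
      have : 0 < ε / (T.card : ℝ) ^ 2 := by positivity
      linarith
    · rw [Real.sq_sqrt hpos.le]
      exact le_max_left _ _
  obtain ⟨l, hl0l, hll1⟩ : ∃ l : ℝ, l0 < l ∧ l < 1 := exists_between hl1
  have hlpos : 0 < l := hl0.trans hl0l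
  -- the starting function
  obtain ⟨ξ0, hξpos, hξsum⟩ : ∃ ξ0 : X → ℝ, (∀ x, 0 < ξ0 x) ∧ Summable (fun x => ξ0 x ^ 2) := by
    obtain ⟨_⟩ := nonempty_encodable X
    obtain ⟨e, he, c, hc, -⟩ := posSumOfEncodable (zero_lt_one' ℝ) X
    refine ⟨fun x => Real.sqrt (e x), fun x => Real.sqrt_pos.2 (he x), ?_⟩
    refine hc.summable.congr fun x => ?_
    rw [Real.sq_sqrt (he x).le]
  set C : ℝ := Real.sqrt (∑' x, ξ0 x ^ 2) with hC
  have hC0 : 0 ≤ C := Real.sqrt_nonneg _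
  set ξ : ℕ → X → ℝ := fun k => (m2_P T)^[k] ξ0 with hξ
  have hξ0 : ξ 0 = ξ0 := rfl
  have hξs : ∀ k, ξ (k + 1) = m2_P T (ξ k) := fun k => Function.iterate_succ_apply' _ _ _
  have hpos : ∀ k x, 0 < ξ k x := by
    intro k
    induction k with
    | zero => exact hξpos
    | succ k ih =>
      intro x
      rw [hξs]
      exact m2_P_pos T h1T _ ih x
  have hsum : ∀ k, Summable (fun x => ξ k x ^ 2) ∧
      ∑' x, ξ k x ^ 2 ≤ (l0 ^ k) ^ 2 * ∑' x, ξ0 x ^ 2 := by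
    intro k
    induction k with
    | zero =>
      refine ⟨hξsum, ?_⟩
      rw [pow_zero, one_pow, one_mul]
      exact le_refl _
    | succ k ih =>
      rw [hξs]
      refine ⟨m2_P_summable T ih.1, ?_⟩
      refine (m2_P_contract S T hST h1T ε (l0 ^ 2) hl h _ ih.1).trans ?_
      calc l0 ^ 2 * ∑' x, ξ k x ^ 2 ≤ l0 ^ 2 * ((l0 ^ k) ^ 2 * ∑' x, ξ0 x ^ 2) :=
            mul_le_mul_of_nonneg_left ih.2 (sq_nonneg _)
        _ = (l0 ^ (k + 1)) ^ 2 * ∑' x, ξ0 x ^ 2 := by ring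
  have hbound : ∀ k x, ξ k x ≤ l0 ^ k * C := by
    intro k x
    have h1 : ξ k x ^ 2 ≤ ∑' x, ξ k x ^ 2 := (hsum k).1.le_tsum x fun y _ => sq_nonneg _
    have h2 : ξ k x ^ 2 ≤ (l0 ^ k * C) ^ 2 := by
      refine h1.trans ((hsum k).2.trans ?_)
      rw [mul_pow, hC, Real.sq_sqrt (tsum_nonneg fun x => sq_nonneg _)]
    exact le_of_sq_le_sq h2 (by positivity)
  -- the resolvent
  have hS : ∀ x, Summable (fun k => (l⁻¹) ^ k * ξ k x) := by
    intro x
    have hgeo : Summable (fun k : ℕ => (l0 / l) ^ k * C) :=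
      (summable_geometric_of_lt_one (by positivity) ((div_lt_one hlpos).2 hl0l)).mul_right _
    refine Summable.of_nonneg_of_le (fun k => ?_) (fun k => ?_) hgeo
    · exact mul_nonneg (by positivity) (hpos k x).le
    · calc (l⁻¹) ^ k * ξ k x ≤ (l⁻¹) ^ k * (l0 ^ k * C) :=
            mul_le_mul_of_nonneg_left (hbound k x) (by positivity)
        _ = (l0 / l) ^ k * C := by
            rw [div_eq_mul_inv, mul_pow]
            ring
  set G : X → ℝ := fun x => ∑' k, (l⁻¹) ^ k * ξ k x with hG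
  have hGpos : ∀ x, 0 < G x := by
    intro x
    refine (hS x).tsum_pos (fun k => mul_nonneg (by positivity) (hpos k x).le) 0 ?_
    exact mul_pos (by positivity) (hpos 0 x)
  have hPG : ∀ x, ∑ s ∈ T, G (s • x) ≤ T.card * (l * G x) := by
    intro x
    have h1 : ∑ s ∈ T, G (s • x) = ∑' k, ∑ s ∈ T, (l⁻¹) ^ k * ξ k (s • x) := by
      rw [Summable.tsum_finsetSum fun s _ => hS (s • x)]
    have h2 : ∀ k, ∑ s ∈ T, (l⁻¹) ^ k * ξ k (s • x) =
        (T.card * l) * ((l⁻¹) ^ (k + 1) * ξ (k + 1) x) := by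
      intro k
      rw [← Finset.mul_sum, hξs, m2_P, pow_succ]
      field_simp
    rw [h1, tsum_congr h2, tsum_mul_left]
    have h3 : ∑' k, (l⁻¹) ^ (k + 1) * ξ (k + 1) x ≤ G x := by
      have h4 := (hS x).tsum_eq_zero_add
      have h5 : 0 ≤ (l⁻¹) ^ 0 * ξ 0 x := mul_nonneg (by positivity) (hpos 0 x).le
      show _ ≤ ∑' k, (l⁻¹) ^ k * ξ k x
      rw [h4]
      linarith
    rw [mul_assoc]
    exact mul_le_mul_of_nonneg_left (mul_le_mul_of_nonneg_left h3 hlpos.le) hN0.le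
  have hGle : ∀ s ∈ T, ∀ x, G (s • x) ≤ T.card * G x := by
    intro s hs x
    have h1 : G (s • x) ≤ ∑ s ∈ T, G (s • x) :=
      Finset.single_le_sum (f := fun s => G (s • x)) (fun t _ => (hGpos _).le) hs
    refine h1.trans ((hPG x).trans ?_)
    refine mul_le_mul_of_nonneg_left ?_ hN0.le
    have := hGpos x
    nlinarith
  refine ⟨{ S := T, h := fun x => -Real.log (G x), H := Real.log T.card, κ := -Real.log l,
            one_mem := h1T, inv_mem := hTinv, κ_pos := ?_, H_nonneg := Real.log_nonneg hN1,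
            lip := ?_, sub := ?_ }⟩
  · rw [neg_pos]
    exact Real.log_neg hlpos hll1
  · intro s hs x
    have h1 : Real.log (G (s • x)) ≤ Real.log T.card + Real.log (G x) := by
      rw [← Real.log_mul hN0.ne' (hGpos x).ne']
      exact Real.log_le_log (hGpos _) (hGle s hs x)
    have h2 : Real.log (G x) ≤ Real.log T.card + Real.log (G (s • x)) := by
      rw [← Real.log_mul hN0.ne' (hGpos _).ne']
      refine Real.log_le_log (hGpos _) ?_
      have := hGle s⁻¹ (hTinv s hs) (s • x)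
      rwa [inv_smul_smul] at this
    rw [abs_le]
    constructor <;> linarith
  · intro x
    have hapos : 0 < l * G x := mul_pos hlpos (hGpos x)
    have h1 : ∀ s ∈ T, Real.log (G (s • x)) ≤ Real.log (l * G x) + (G (s • x) / (l * G x) - 1) := by
      intro s _
      have h2 := Real.log_le_sub_one_of_pos (div_pos (hGpos (s • x)) hapos)
      rw [Real.log_div (hGpos _).ne' hapos.ne'] at h2
      linarith
    have h3 := Finset.sum_le_sum h1
    rw [Finset.sum_add_distrib, Finset.sum_sub_distrib, ← Finset.sum_div, Finset.sum_const,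
      Finset.sum_const, nsmul_eq_mul, nsmul_eq_mul, mul_one] at h3
    have h4 : (∑ s ∈ T, G (s • x)) / (l * G x) ≤ T.card := by
      rw [div_le_iff₀ hapos]
      exact hPG x
    have h5 : Real.log (l * G x) = Real.log l + Real.log (G x) :=
      Real.log_mul hlpos.ne' (hGpos x).ne'
    rw [Finset.sum_neg_distrib]
    rw [h5] at h3
    nlinarith

end

end Pool.Agent.Lib.MP_35fb4b_lc
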