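import Pool.Agent.Lib.MP_35fb4b_lc.Defs

/-! M4a: closure properties of divergences. -/

set_option autoImplicit false

namespace Pool.Agent.Lib.MP_35fb4b_lc

open scoped Classical Pointwise

noncomputable section

section
variable {Γ : Type} [Group Γ] {Z : Type} [MeasurableSpace Z] [MulAction Γ Z]

theorem IsDiv.add {D E : Z → ℤ} (hD : IsDiv Γ D) (hE : IsDiv Γ E) :
    IsDiv Γ (fun z => D z + E z) := by
  obtain ⟨ι, _, γ, A, hA, hD⟩ := hD
  obtain ⟨ι', _, γ', A', hA', hE⟩ := hE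
  refine ⟨ι ⊕ ι', inferInstance, Sum.elim γ γ', Sum.elim A A', ?_, ?_⟩
  · rintro (i | i)
    · exact hA i
    · exact hA' i
  · intro z
    dsimp only
    rw [hD, hE, Fintype.sum_sum_type]
    rfl

theorem m4a_zero : IsDiv Γ (fun _ : Z => 0) := by
  refine ⟨Empty, inferInstance, fun i => i.elim, fun i => i.elim, fun i => i.elim, ?_⟩
  intro z
  simp

theorem IsDiv.sum {κ : Type} (T : Finset κ) {D : κ → Z → ℤ} (hD : ∀ i ∈ T, IsDiv Γ (D i)) :
    IsDiv Γ (fun z => ∑ i ∈ T, D i z) := by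
  induction T using Finset.induction_on with
  | empty =>
    simp only [Finset.sum_empty]
    exact m4a_zero
  | insert a T ha ih =>
    simp only [Finset.sum_insert ha]
    exact (hD a (Finset.mem_insert_self a T)).add
      (ih fun i hi => hD i (Finset.mem_insert_of_mem hi))

theorem IsDiv.mul (c : ℕ) {D : Z → ℤ} (hD : IsDiv Γ D) : IsDiv Γ (fun z => (c : ℤ) * D z) := by
  have h := IsDiv.sum (Γ := Γ) (Finset.range c) (D := fun _ => D) (fun _ _ => hD)
  simpa only [Finset.sum_const, Finset.card_range, nsmul_eq_mul] using h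

theorem IsDiv.comp (hm : ∀ γ : Γ, Measurable (fun z : Z => γ • z)) (p : Γ) {D : Z → ℤ}
    (hD : IsDiv Γ D) : IsDiv Γ (fun z => D (p • z)) := by
  obtain ⟨ι, _, γ, A, hA, hD⟩ := hD
  refine ⟨ι, inferInstance, fun i => p⁻¹ * γ i * p, fun i => {z | p • z ∈ A i}, ?_, ?_⟩
  · intro i
    exact hm p (hA i)
  · intro z
    dsimp only
    rw [hD]
    apply Finset.sum_congr rfl
    intro i _
    have h1 : ((p⁻¹ * γ i * p)⁻¹ • z ∈ {z | p • z ∈ A i}) = ((γ i)⁻¹ • p • z ∈ A i) := by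
      change (p • (p⁻¹ * γ i * p)⁻¹ • z ∈ A i) = _
      rw [smul_smul, smul_smul]
      congr 2
      group
    have h2 : (z ∈ {z | p • z ∈ A i}) = (p • z ∈ A i) := rfl
    simp only [h1, h2]

theorem isDiv_antisymm (S : Finset Γ) (hS : ∀ s ∈ S, s⁻¹ ∈ S) (L : Z → Γ → ℤ)
    (h1 : ∀ z s, L z s = -1 ∨ L z s = 0 ∨ L z s = 1) (h2 : ∀ z s, L (s • z) s⁻¹ = -L z s)
    (h3 : ∀ s, MeasurableSet {z | L z s = 1}) : IsDiv Γ (fun z => ∑ s ∈ S, L z s) := by
  refine ⟨S, inferInstance, fun s => (s : Γ), fun s => {z | L z s = 1}, fun s => h3 s, ?_⟩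
  intro z
  have h4 : ∀ s : Γ, L z s = (if L z s = 1 then (1 : ℤ) else 0) - (if L z s = -1 then 1 else 0) := by
    intro s
    rcases h1 z s with h | h | h <;> rw [h] <;> norm_num
  have h5 : ∀ s : Γ, (s⁻¹ • z ∈ {z | L z s = 1}) = (L z s⁻¹ = -1) := by
    intro s
    change (L (s⁻¹ • z) s = 1) = _
    have h6 := h2 z s⁻¹
    rw [inv_inv] at h6
    rw [h6, neg_eq_iff_eq_neg]
  have h7 : (∑ s : S, ((if z ∈ {z | L z s = 1} then (1 : ℤ) else 0) -
      (if ((s : Γ))⁻¹ • z ∈ {z | L z s = 1} then 1 else 0))) =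
      ∑ s ∈ S, ((if L z s = 1 then (1 : ℤ) else 0) - (if L z s⁻¹ = -1 then 1 else 0)) := by
    rw [← Finset.sum_coe_sort S]
    apply Finset.sum_congr rfl
    intro s _
    simp only [h5]
    rfl
  refine Eq.trans ?_ (Eq.trans h7.symm (Finset.sum_congr rfl fun i _ => by congr))
  dsimp only
  rw [Finset.sum_sub_distrib]
  have h8 : (∑ s ∈ S, (if L z s⁻¹ = -1 then (1 : ℤ) else 0)) =
      ∑ s ∈ S, (if L z s = -1 then (1 : ℤ) else 0) := by
    apply Finset.sum_nbij' (fun s => s⁻¹) (fun s => s⁻¹)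
    · intro s hs
      exact hS s hs
    · intro s hs
      exact hS s hs
    · intro s _
      exact inv_inv s
    · intro s _
      exact inv_inv s
    · intro s _
      rfl
  rw [h8, ← Finset.sum_sub_distrib]
  exact Finset.sum_congr rfl fun s _ => h4 s

end

end

end Pool.Agent.Lib.MP_35fb4b_lc
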