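import Pool.Agent.Lib.MP_35fb4b_lc.Defs

/-!
# Compression from a positive divergence
-/

set_option autoImplicit false

namespace Pool.Agent.Lib.MP_35fb4b_lc

open scoped Classical Pointwise

noncomputable section

section
variable {Γ : Type} [Group Γ] {Z : Type} [MeasurableSpace Z] [MulAction Γ Z]

/-- choice of a matching of the incoming edges to the outgoing ones which leaves one outgoing
edge unmatched -/
theorem m4b_match {ι : Type} (O N : Finset ι) (h : N.card < O.card) :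
    ∃ r ∈ O, ∃ e : ι → ι, (∀ i ∈ N, e i ∈ O ∧ e i ≠ r) ∧ Set.InjOn e (N : Set ι) := by
  have h0 : 0 < O.card := by omega
  obtain ⟨r, hr⟩ := Finset.card_pos.mp h0
  refine ⟨r, hr, ?_⟩
  have h1 : Fintype.card N ≤ Fintype.card (O.erase r) := by
    rw [Fintype.card_coe, Fintype.card_coe, Finset.card_erase_of_mem hr]
    omega
  obtain ⟨φ⟩ := Function.Embedding.nonempty_of_card_le h1
  refine ⟨fun i => if h : i ∈ N then (φ ⟨i, h⟩ : ι) else i, ?_, ?_⟩
  · intro i hi
    have h2 := (φ ⟨i, hi⟩).2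
    rw [Finset.mem_erase] at h2
    simp only [dif_pos hi]
    exact ⟨h2.2, h2.1⟩
  · intro i hi j hj hij
    have hi' : i ∈ N := hi
    have hj' : j ∈ N := hj
    simp only [dif_pos hi', dif_pos hj'] at hij
    have h3 := φ.injective (Subtype.ext hij)
    exact congrArg Subtype.val h3

/-- injectivity of the iterates on an invariant set -/
theorem m4b_iter_inj {P : Type} {τ : P → P} {Y : Set P} (hY : ∀ p ∈ Y, τ p ∈ Y)
    (hinj : Set.InjOn τ Y) (m : ℕ) : (∀ p ∈ Y, τ^[m] p ∈ Y) ∧ Set.InjOn τ^[m] Y := by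
  induction m with
  | zero => exact ⟨fun p hp => hp, fun p _ q _ h => h⟩
  | succ m ih =>
    refine ⟨fun p hp => ?_, fun p hp q hq h => ?_⟩
    · rw [Function.iterate_succ_apply]
      exact ih.1 _ (hY p hp)
    · rw [Function.iterate_succ_apply, Function.iterate_succ_apply] at h
      exact hinj hp hq (ih.2 (hY p hp) (hY q hq) h)

/-- the return maps of an injective map on `Z × ι` -/
theorem m4b_return {ι : Type} [Fintype ι] [MeasurableSpace ι] [DiscreteMeasurableSpace ι]
    (τ : Z × ι → Z × ι) (Y : Set (Z × ι)) (hτ : Measurable τ) (hYm : MeasurableSet Y)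
    (hY : ∀ p ∈ Y, τ p ∈ Y) (hinj : Set.InjOn τ Y)
    (horb : ∀ p, ∃ γ : Γ, (τ p).1 = γ • p.1) (i : ι) :
    ∃ f : Z → Z, Measurable f ∧ Function.Injective f ∧ (∀ z, ∃ γ : Γ, f z = γ • z) ∧
      ∀ (p : Z × ι) (m₀ : ℕ), p ∈ Y → (∀ q ∈ Y, τ q ≠ p) → (τ^[m₀] p).2 = i →
        (∀ m < m₀, (τ^[m] p).2 ≠ i) → (∀ N, ∃ m ≥ N, (τ^[m] p).2 = i) →
          (τ^[m₀] p).1 ∉ Set.range f := by
  set R : Set Z := {z | (z, i) ∈ Y ∧ ∀ N, ∃ m ≥ N, (τ^[m] (z, i)).2 = i} with hR
  have hmk : Measurable (fun z : Z => (z, i)) := by fun_prop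
  have hlev : ∀ m, MeasurableSet {z : Z | (τ^[m] (z, i)).2 = i} := by
    intro m
    have h1 : Measurable (fun z : Z => (τ^[m] (z, i)).2) :=
      measurable_snd.comp ((hτ.iterate m).comp hmk)
    exact h1 (MeasurableSet.of_discrete (s := {i}))
  have hRm : MeasurableSet R := by
    have h1 : R = (fun z : Z => (z, i)) ⁻¹' Y ∩
        ⋂ N : ℕ, ⋃ m : ℕ, ⋃ _ : m ≥ N, {z : Z | (τ^[m] (z, i)).2 = i} := by
      ext z
      simp [hR]
    rw [h1]
    exact (hmk hYm).inter (MeasurableSet.iInter fun N => MeasurableSet.iUnion fun m =>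
      MeasurableSet.iUnion fun _ => hlev m)
  let pr : ℕ → Z → Prop := fun m z => (m = 0 ∧ z ∉ R) ∨ (z ∈ R ∧ 1 ≤ m ∧ (τ^[m] (z, i)).2 = i)
  have hex : ∀ z, ∃ m, pr m z := by
    intro z
    by_cases hz : z ∈ R
    · obtain ⟨m, hm, hm'⟩ := hz.2 1
      exact ⟨m, Or.inr ⟨hz, hm, hm'⟩⟩
    · exact ⟨0, Or.inl ⟨rfl, hz⟩⟩
  have hpm : ∀ m, MeasurableSet {z | pr m z} := by
    intro m
    have h1 : {z | pr m z} = ({z | m = 0} ∩ Rᶜ) ∪ (R ∩ ({z | 1 ≤ m} ∩
        {z : Z | (τ^[m] (z, i)).2 = i})) := by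
      ext z
      simp [pr]
    rw [h1]
    exact ((MeasurableSet.const _).inter hRm.compl).union
      (hRm.inter ((MeasurableSet.const _).inter (hlev m)))
  have hfm : ∀ m, Measurable (fun z : Z => (τ^[m] (z, i)).1) := fun m =>
    measurable_fst.comp ((hτ.iterate m).comp hmk)
  have horbm : ∀ m p, ∃ γ : Γ, (τ^[m] p).1 = γ • p.1 := by
    intro m
    induction m with
    | zero => exact fun p => ⟨1, by simp⟩
    | succ m ih =>
      intro p
      obtain ⟨γ, hγ⟩ := ih (τ p)
      obtain ⟨δ, hδ⟩ := horb p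
      refine ⟨γ * δ, ?_⟩
      rw [Function.iterate_succ_apply, hγ, hδ, mul_smul]
  set f : Z → Z := fun z => (τ^[Nat.find (hex z)] (z, i)).1 with hf
  -- basic facts
  have hout : ∀ z, z ∉ R → f z = z := by
    intro z hz
    have h0 : Nat.find (hex z) = 0 := by
      rw [Nat.find_eq_zero]
      exact Or.inl ⟨rfl, hz⟩
    simp only [hf]
    rw [h0]
    rfl
  have hin : ∀ z, z ∈ R → ∃ N, 1 ≤ N ∧ τ^[N] (z, i) = (f z, i) ∧
      ∀ m, 1 ≤ m → m < N → (τ^[m] (z, i)).2 ≠ i := by
    intro z hz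
    refine ⟨Nat.find (hex z), ?_, ?_, ?_⟩
    · rcases Nat.find_spec (hex z) with h | h
      · exact absurd hz h.2
      · exact h.2.1
    · rcases Nat.find_spec (hex z) with h | h
      · exact absurd hz h.2
      · exact Prod.ext rfl h.2.2
    · intro m hm hmN h
      exact Nat.find_min (hex z) hmN (Or.inr ⟨hz, hm, h⟩)
  have hRf : ∀ z, z ∈ R → f z ∈ R := by
    intro z hz
    obtain ⟨N, hN1, hN2, hN3⟩ := hin z hz
    refine ⟨?_, fun M => ?_⟩
    · rw [← hN2]
      exact (m4b_iter_inj hY hinj N).1 _ hz.1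
    · obtain ⟨m, hm, hm'⟩ := hz.2 (M + N)
      refine ⟨m - N, by omega, ?_⟩
      rw [← hN2, ← Function.iterate_add_apply, Nat.sub_add_cancel (by omega)]
      exact hm'
  refine ⟨f, Measurable.find hfm hpm hex, ?_, fun z => horbm _ _, ?_⟩
  · -- injectivity
    have key : ∀ z z', z ∈ R → z' ∈ R → f z = f z' → ∀ N N', 1 ≤ N → τ^[N] (z, i) = (f z, i) →
        τ^[N'] (z', i) = (f z', i) → (∀ m, 1 ≤ m → m < N' → (τ^[m] (z', i)).2 ≠ i) →
        N ≤ N' → z = z' := by
      intro z z' hz hz' hzz N N' hN1 hN hN' hmin hle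
      have h1 : τ^[N] (z, i) = τ^[N] (τ^[N' - N] (z', i)) := by
        rw [← Function.iterate_add_apply, Nat.add_sub_cancel' hle, hN', hN, hzz]
      have h2 := (m4b_iter_inj hY hinj N).2 hz.1 ((m4b_iter_inj hY hinj (N' - N)).1 _ hz'.1) h1
      rcases Nat.eq_zero_or_pos (N' - N) with h3 | h3
      · rw [h3] at h2
        exact congrArg Prod.fst h2
      · exfalso
        refine hmin (N' - N) h3 (by omega) ?_
        rw [← h2]
    intro z z' hzz
    by_cases hz : z ∈ R <;> by_cases hz' : z' ∈ R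
    · obtain ⟨N, hN1, hN2, hN3⟩ := hin z hz
      obtain ⟨N', hN1', hN2', hN3'⟩ := hin z' hz'
      rcases le_total N N' with h | h
      · exact key z z' hz hz' hzz N N' hN1 hN2 hN2' hN3' h
      · exact (key z' z hz' hz hzz.symm N' N hN1' hN2' hN2 hN3 h).symm
    · exfalso
      apply hz'
      rw [← hout z' hz', ← hzz]
      exact hRf z hz
    · exfalso
      apply hz
      rw [← hout z hz, hzz]
      exact hRf z' hz'
    · rw [← hout z hz, ← hout z' hz', hzz]
  · rintro p m₀ hp hnot hm₀ hmin hinf ⟨y', hy'⟩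
    have hp0 : τ^[m₀] p = ((τ^[m₀] p).1, i) := Prod.ext rfl hm₀
    have hyR : (τ^[m₀] p).1 ∈ R := by
      refine ⟨?_, fun N => ?_⟩
      · rw [← hp0]
        exact (m4b_iter_inj hY hinj m₀).1 _ hp
      · obtain ⟨m, hm, hm'⟩ := hinf (N + m₀)
        refine ⟨m - m₀, by omega, ?_⟩
        rw [← hp0, ← Function.iterate_add_apply, Nat.sub_add_cancel (by omega)]
        exact hm'
    have hy'R : y' ∈ R := by
      by_contra h
      rw [hout y' h] at hy'
      rw [← hy'] at hyR
      exact h hyR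
    obtain ⟨N, hN1, hN2, hN3⟩ := hin y' hy'R
    rw [hy', ← hp0] at hN2
    rcases le_or_gt N m₀ with h | h
    · have h1 : τ^[N] (y', i) = τ^[N] (τ^[m₀ - N] p) := by
        rw [← Function.iterate_add_apply, Nat.add_sub_cancel' h, hN2]
      have h2 := (m4b_iter_inj hY hinj N).2 hy'R.1 ((m4b_iter_inj hY hinj (m₀ - N)).1 _ hp) h1
      refine hmin (m₀ - N) (by omega) ?_
      rw [← h2]
    · have h1 : τ^[m₀] (τ^[N - m₀] (y', i)) = τ^[m₀] p := by
        rw [← Function.iterate_add_apply, Nat.add_sub_cancel' h.le, hN2]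
      have h2 := (m4b_iter_inj hY hinj m₀).2 ((m4b_iter_inj hY hinj (N - m₀)).1 _ hy'R.1) hp h1
      have h3 : N - m₀ = (N - m₀ - 1) + 1 := by omega
      rw [h3, Function.iterate_succ_apply'] at h2
      exact hnot _ ((m4b_iter_inj hY hinj _).1 _ hy'R.1) h2

theorem m4b_compose {ι : Type} (f : ι → Z → Z) (hf1 : ∀ i, Measurable (f i))
    (hf2 : ∀ i, Function.Injective (f i)) (hf3 : ∀ i z, ∃ γ : Γ, f i z = γ • z) (s : Finset ι) :
    ∃ F : Z → Z, Measurable F ∧ Function.Injective F ∧ (∀ z, ∃ γ : Γ, F z = γ • z) ∧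
      ∀ i ∈ s, ∀ y, y ∉ Set.range (f i) → ∃ γ : Γ, γ • y ∉ Set.range F := by
  induction s using Finset.induction_on with
  | empty =>
    exact ⟨id, measurable_id, Function.injective_id, fun z => ⟨1, by simp⟩, by simp⟩
  | insert j s _ ih =>
    obtain ⟨F, h1, h2, h3, h4⟩ := ih
    refine ⟨fun z => f j (F z), (hf1 j).comp h1, (hf2 j).comp h2, fun z => ?_, ?_⟩
    · obtain ⟨γ, hγ⟩ := h3 z
      obtain ⟨δ, hδ⟩ := hf3 j (F z)
      refine ⟨δ * γ, ?_⟩
      change f j (F z) = _
      rw [hδ, hγ, mul_smul]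
    · intro i hi y hy
      rcases Finset.mem_insert.mp hi with h | h
      · subst h
        refine ⟨1, ?_⟩
        rw [one_smul]
        rintro ⟨z, hz⟩
        exact hy ⟨F z, hz⟩
      · obtain ⟨γ, hγ⟩ := h4 i h y hy
        obtain ⟨δ, hδ⟩ := hf3 j (γ • y)
        refine ⟨δ * γ, ?_⟩
        rw [mul_smul, ← hδ]
        rintro ⟨z, hz⟩
        exact hγ ⟨z, hf2 j hz⟩

theorem compress (hm : ∀ γ : Γ, Measurable (fun z : Z => γ • z)) {W : Z → ℤ} (hW : IsDiv Γ W)
    (h1 : ∀ z, 1 ≤ W z) : Compr Γ Z := by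
  obtain ⟨ι, hι, γ, A, hA, hD⟩ := hW
  let _ : MeasurableSpace ι := ⊤
  have _ : DiscreteMeasurableSpace ι := ⟨fun _ => trivial⟩
  let _ : MeasurableSpace (Finset ι) := ⊤
  have _ : DiscreteMeasurableSpace (Finset ι) := ⟨fun _ => trivial⟩
  -- outgoing and incoming edges
  let Out : Z → Finset ι := fun z => Finset.univ.filter (fun i => z ∈ A i)
  let In : Z → Finset ι := fun z => Finset.univ.filter (fun i => (γ i)⁻¹ • z ∈ A i)
  have hcard : ∀ z, (In z).card < (Out z).card := by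
    intro z
    have h2 := h1 z
    rw [hD z, Finset.sum_sub_distrib, Finset.sum_boole, Finset.sum_boole] at h2
    have h3 : ((In z).card : ℤ) + 1 ≤ ((Out z).card : ℤ) := by
      simp only [In, Out]
      linarith
    exact_mod_cast h3
  have hOutm : Measurable Out := by
    refine measurable_to_countable' fun O => ?_
    have h2 : Out ⁻¹' {O} = ⋂ i : ι, {z | z ∈ A i ↔ i ∈ O} := by
      ext z
      simp only [Set.mem_preimage, Set.mem_singleton_iff, Set.mem_iInter, Set.mem_ofPred_eq, Out]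
      constructor
      · intro h i
        rw [← h]
        simp
      · intro h
        ext i
        rw [← h i]
        simp
    rw [h2]
    refine MeasurableSet.iInter fun i => ?_
    by_cases hi : i ∈ O
    · have h4 : {z | z ∈ A i ↔ i ∈ O} = A i := by
        ext z
        simp [hi]
      rw [h4]
      exact hA i
    · have h4 : {z | z ∈ A i ↔ i ∈ O} = (A i)ᶜ := by
        ext z
        simp [hi]
      rw [h4]
      exact (hA i).compl
  have hInm : Measurable In := by
    refine measurable_to_countable' fun O => ?_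
    have h2 : In ⁻¹' {O} = ⋂ i : ι, {z | (γ i)⁻¹ • z ∈ A i ↔ i ∈ O} := by
      ext z
      simp only [Set.mem_preimage, Set.mem_singleton_iff, Set.mem_iInter, Set.mem_ofPred_eq, In]
      constructor
      · intro h i
        rw [← h]
        simp
      · intro h
        ext i
        rw [← h i]
        simp
    rw [h2]
    refine MeasurableSet.iInter fun i => ?_
    have h3 : MeasurableSet {z : Z | (γ i)⁻¹ • z ∈ A i} := hm _ (hA i)
    by_cases hi : i ∈ O
    · have h4 : {z | (γ i)⁻¹ • z ∈ A i ↔ i ∈ O} = {z : Z | (γ i)⁻¹ • z ∈ A i} := by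
        ext z
        simp [hi]
      rw [h4]
      exact h3
    · have h4 : {z | (γ i)⁻¹ • z ∈ A i ↔ i ∈ O} = {z : Z | (γ i)⁻¹ • z ∈ A i}ᶜ := by
        ext z
        simp [hi]
      rw [h4]
      exact h3.compl
  -- the matching
  choose r hr e he1 he2 using fun (O N : Finset ι) (h : N.card < O.card) => m4b_match O N h
  let E : Finset ι → Finset ι → ι → ι := fun O N i => if h : N.card < O.card then e O N h i else i
  have hE : ∀ z i, E (Out z) (In z) i = e (Out z) (In z) (hcard z) i := by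
    intro z i
    simp only [E]
    rw [dif_pos (hcard z)]
  let τ : Z × ι → Z × ι := fun p => (γ p.2 • p.1, E (Out (γ p.2 • p.1)) (In (γ p.2 • p.1)) p.2)
  have hτ : Measurable τ := by
    refine measurable_from_prod_countable_left fun i => ?_
    refine Measurable.prodMk (hm (γ i)) ?_
    have h2 : Measurable (fun z : Z => (Out (γ i • z), In (γ i • z))) :=
      (hOutm.comp (hm _)).prodMk (hInm.comp (hm _))
    have h3 : Measurable (fun q : Finset ι × Finset ι => E q.1 q.2 i) := Measurable.of_discrete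
    exact h3.comp h2
  let Y : Set (Z × ι) := {p | p.1 ∈ A p.2}
  have hYm : MeasurableSet Y := by
    have h2 : Y = ⋃ i : ι, (A i) ×ˢ ({i} : Set ι) := by
      ext ⟨z, i⟩
      simp [Y]
    rw [h2]
    exact MeasurableSet.iUnion fun i => (hA i).prod MeasurableSet.of_discrete
  have hin : ∀ p ∈ Y, p.2 ∈ In (γ p.2 • p.1) := by
    intro p hp
    simp only [In, Finset.mem_filter, Finset.mem_univ, true_and, inv_smul_smul]
    exact hp
  have hY : ∀ p ∈ Y, τ p ∈ Y := by
    intro p hp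
    have h2 := (he1 _ _ (hcard (γ p.2 • p.1)) p.2 (hin p hp)).1
    rw [← hE] at h2
    simp only [Out, Finset.mem_filter, Finset.mem_univ, true_and] at h2
    exact h2
  have hinj : Set.InjOn τ Y := by
    intro p hp q hq hpq
    have h2 : γ p.2 • p.1 = γ q.2 • q.1 := congrArg Prod.fst hpq
    have h3 : E (Out (γ p.2 • p.1)) (In (γ p.2 • p.1)) p.2 =
        E (Out (γ q.2 • q.1)) (In (γ q.2 • q.1)) q.2 := congrArg Prod.snd hpq
    have hpi := hin p hp
    have hqi := hin q hq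
    rw [← h2] at h3 hqi
    rw [hE, hE] at h3
    have h4 := he2 _ _ (hcard (γ p.2 • p.1)) hpi hqi h3
    refine Prod.ext ?_ h4
    rw [h4] at h2
    exact smul_left_cancel _ h2
  have horb : ∀ p, ∃ δ : Γ, (τ p).1 = δ • p.1 := fun p => ⟨γ p.2, rfl⟩
  choose f hf1 hf2 hf3 hf4 using fun i : ι => m4b_return (Γ := Γ) τ Y hτ hYm hY hinj horb i
  obtain ⟨F, hF1, hF2, hF3, hF4⟩ := m4b_compose (Γ := Γ) f hf1 hf2 hf3 Finset.univ
  refine ⟨F, hF1, hF2, hF3, fun z => ?_⟩
  -- the path which starts at the free edge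
  set p : Z × ι := (z, r _ _ (hcard z)) with hp
  have hpY : p ∈ Y := by
    have h2 := hr _ _ (hcard z)
    simp only [Out, Finset.mem_filter, Finset.mem_univ, true_and] at h2
    exact h2
  have hpn : ∀ q ∈ Y, τ q ≠ p := by
    intro q hq h
    have h2 : γ q.2 • q.1 = z := congrArg Prod.fst h
    have h3 : E (Out (γ q.2 • q.1)) (In (γ q.2 • q.1)) q.2 = r _ _ (hcard z) :=
      congrArg Prod.snd h
    have h4 := hin q hq
    rw [h2] at h3 h4
    rw [hE] at h3
    exact (he1 _ _ (hcard z) q.2 h4).2 h3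
  obtain ⟨i, hi⟩ := Finite.exists_infinite_fiber (fun m : ℕ => (τ^[m] p).2)
  rw [Set.infinite_coe_iff] at hi
  have hinf : ∀ N, ∃ m ≥ N, (τ^[m] p).2 = i := by
    intro N
    obtain ⟨m, hm1, hm2⟩ := hi.exists_gt N
    exact ⟨m, hm2.le, hm1⟩
  have hex : ∃ m, (τ^[m] p).2 = i := by
    obtain ⟨m, _, hm⟩ := hinf 0
    exact ⟨m, hm⟩
  have h5 := hf4 i p (Nat.find hex) hpY hpn (Nat.find_spec hex)
    (fun m hm => Nat.find_min hex hm) hinf
  obtain ⟨δ, hδ⟩ := hF4 i (Finset.mem_univ i) _ h5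
  have horbm : ∀ m (q : Z × ι), ∃ γ' : Γ, (τ^[m] q).1 = γ' • q.1 := by
    intro m
    induction m with
    | zero => exact fun q => ⟨1, by simp⟩
    | succ m ih =>
      intro q
      obtain ⟨γ', hγ'⟩ := ih (τ q)
      obtain ⟨δ', hδ'⟩ := horb q
      refine ⟨γ' * δ', ?_⟩
      rw [Function.iterate_succ_apply, hγ', hδ', mul_smul]
  obtain ⟨η, hη⟩ := horbm (Nat.find hex) p
  refine ⟨δ * η, ?_⟩
  rw [mul_smul]
  rw [hη] at hδ
  exact hδ

end

end

end Pool.Agent.Lib.MP_35fb4b_lc
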