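import Pool.Agent.Lib.MP_35fb4b_lc.M3
import Pool.Agent.Lib.MP_35fb4b_lc.M4a
import Pool.Agent.Lib.MP_35fb4b_lc.M4b

/-!
# The subshift (MP_35fb4b_lc)
-/

set_option autoImplicit false

namespace Pool.Agent.Lib.MP_35fb4b_lc

open scoped Classical Pointwise

noncomputable section

section m5cont
variable {Γ : Type} [Group Γ]

theorem m5_clopen_deep (S : Finset Γ) (b : Bool) (g : Γ) :
    IsClopen {z : Γ → Bool | Deep S b z g} := by
  have h : {z : Γ → Bool | Deep S b z g} = ⋂ s ∈ S, {z : Γ → Bool | z (s * g) = b} := by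
    ext z
    simp [Deep]
  rw [h]
  refine isClopen_biInter_finset fun s _ => ?_
  exact (isClopen_discrete {b}).preimage (continuous_apply (s * g))

theorem m5_clopen_flag (S : Finset Γ) (r : ℕ) (b : Bool) (g : Γ) :
    IsClopen {z : Γ → Bool | flag S r b z g} := by
  have h : {z : Γ → Bool | flag S r b z g} =
      ⋃ t ∈ S ^ r, {z : Γ → Bool | Deep S b z (t * g)} := by
    ext z
    simp [flag]
  rw [h]
  exact (S ^ r).finite_toSet.isClopen_biUnion fun t _ => m5_clopen_deep S b (t * g)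

theorem m5_cont_ite {X Y : Type} [TopologicalSpace X] [TopologicalSpace Y] {p : X → Prop}
    (hp : IsClopen {x | p x}) {f g : X → Y} (hf : Continuous f) (hg : Continuous g) :
    Continuous (fun x => if p x then f x else g x) := by
  apply Continuous.if _ hf hg
  intro a ha
  rw [hp.frontier_eq] at ha
  exact absurd ha (Set.notMem_empty a)

theorem m5_cont_code (S : Finset Γ) (r : ℕ) (g : Γ) :
    Continuous (fun z : Γ → Bool => code S r z g) := by
  unfold code
  exact m5_cont_ite (m5_clopen_flag S r false g)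
    (m5_cont_ite (m5_clopen_flag S r true g) continuous_const continuous_const)
    (m5_cont_ite (m5_clopen_flag S r true g) continuous_const continuous_const)

theorem m5_cont_led (S : Finset Γ) (r : ℕ) (g s : Γ) :
    Continuous (fun z : Γ → Bool => Led S r z g s) := by
  unfold Led
  have h : Continuous lft := continuous_of_discreteTopology
  exact h.comp ((m5_cont_code S r (s * g)).sub (m5_cont_code S r g))

theorem m5_cont_Wn (S : Finset Γ) (r n : ℕ) (g : Γ) :
    Continuous (fun z : Γ → Bool => Wn S r n z g) := by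
  induction n generalizing g with
  | zero => exact continuous_const
  | succ n ih =>
    simp only [Wn]
    exact continuous_finsetSum _ fun s _ =>
      (continuous_const.mul (m5_cont_led S r g s)).add (ih (s * g))

/-- the subshift -/
def m5K (S : Finset Γ) (r n : ℕ) : Set (Γ → Bool) := {z | ∀ g, 1 ≤ Wn S r n z g}

theorem m5_closed (S : Finset Γ) (r n : ℕ) : IsClosed (m5K S r n) := by
  have h : m5K S r n = ⋂ g, {z : Γ → Bool | 1 ≤ Wn S r n z g} := by
    ext z
    simp [m5K]
  rw [h]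
  refine isClosed_iInter fun g => ?_
  exact (isClosed_discrete (Set.Ici (1 : ℤ))).preimage (m5_cont_Wn S r n g)

theorem m5_inv (S : Finset Γ) (r n : ℕ) (γ : Γ) (z : Γ → Bool) (hz : z ∈ m5K S r n) :
    act γ z ∈ m5K S r n := by
  intro g
  rw [Wn_act]
  exact hz (g * γ)

/-- the action on the subshift -/
@[instance_reducible]
def m5act (S : Finset Γ) (r n : ℕ) : MulAction Γ (m5K S r n) where
  smul γ z := ⟨act γ z.1, m5_inv S r n γ z.1 z.2⟩
  one_smul z := Subtype.ext (act_one z.1)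
  mul_smul γ δ z := Subtype.ext (act_mul γ δ z.1)

theorem m5_compress [Countable Γ] (S : Finset Γ) (hS : ∀ s ∈ S, s⁻¹ ∈ S) (r n : ℕ) :
    ∃ f : m5K S r n → m5K S r n, Measurable f ∧ Function.Injective f ∧
      (∀ z, ∃ γ : Γ, (f z : Γ → Bool) = act γ z) ∧
        ∀ z : m5K S r n, ∃ γ : Γ, ∃ z' : m5K S r n, (z' : Γ → Bool) = act γ z ∧
          z' ∉ Set.range f := by
  let _ : MulAction Γ (m5K S r n) := m5act S r n
  have hsm : ∀ (γ : Γ) (z : m5K S r n), ((γ • z : m5K S r n) : Γ → Bool) = act γ z :=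
    fun γ z => rfl
  have hm : ∀ γ : Γ, Measurable (fun z : m5K S r n => γ • z) := by
    intro γ
    apply Measurable.subtype_mk
    refine measurable_pi_lambda _ fun g => ?_
    exact (measurable_pi_apply (g * γ)).comp measurable_subtype_coe
  have hL : IsDiv Γ (fun z : m5K S r n => ∑ s ∈ S, Led S r z.1 1 s) := by
    apply isDiv_antisymm S hS (fun (z : m5K S r n) s => Led S r z.1 1 s)
    · intro z s
      exact lft_cases _
    · intro z s
      rw [hsm, Led_act]
      simp only [Led]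
      rw [one_mul, inv_mul_cancel, mul_one, ← lft_neg]
      congr 1
      ring
    · intro s
      exact ((m5_cont_led S r 1 s).measurable.comp measurable_subtype_coe)
        (measurableSet_singleton (1 : ℤ))
  have hW : ∀ k, IsDiv Γ (fun z : m5K S r n => Wn S r k z.1 1) := by
    intro k
    induction k with
    | zero => exact m4a_zero
    | succ k ih =>
      have h1 := (IsDiv.mul (S.card ^ k) hL).add
        (IsDiv.sum S (D := fun s z => Wn S r k (s • z : m5K S r n).1 1)
          fun s _ => ih.comp hm s)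
      convert h1 using 2 with z
      simp only [Wn]
      rw [Finset.sum_add_distrib, ← Finset.mul_sum]
      push_cast
      congr 1
      refine Finset.sum_congr rfl fun s _ => ?_
      rw [hsm, Wn_act, one_mul, mul_one]
  obtain ⟨f, f1, f2, f3, f4⟩ := compress hm (hW n) fun z => z.2 1
  refine ⟨f, f1, f2, fun z => ?_, fun z => ?_⟩
  · obtain ⟨γ, h⟩ := f3 z
    exact ⟨γ, by rw [h]; rfl⟩
  · obtain ⟨γ, h⟩ := f4 z
    exact ⟨γ, γ • z, rfl, h⟩

end m5cont

section m5red
variable {Γ F : Type} [Group Γ] [Group F] (φ : F →* Γ)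

/-- configurations with the pattern `x` on the range of `φ` and the background elsewhere -/
def m5E (z0 : Γ ⧸ φ.range → Bool) (x : F → Bool) (g : Γ) : Bool :=
  if h : ∃ a, φ a = g then x h.choose else z0 (g • ((1 : Γ) : Γ ⧸ φ.range))

variable {φ}

theorem m5_fix_iff (g : Γ) : g • ((1 : Γ) : Γ ⧸ φ.range) = ((1 : Γ) : Γ ⧸ φ.range) ↔
    g ∈ φ.range := by
  have h : g • ((1 : Γ) : Γ ⧸ φ.range) = ((g * 1 : Γ) : Γ ⧸ φ.range) := rfl
  rw [h, mul_one, eq_comm, QuotientGroup.eq]
  simp

theorem m5E_on (hφ : Function.Injective φ) (z0 : Γ ⧸ φ.range → Bool) (x : F → Bool) (a : F) :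
    m5E φ z0 x (φ a) = x a := by
  have h : ∃ b, φ b = φ a := ⟨a, rfl⟩
  unfold m5E
  rw [dif_pos h, hφ h.choose_spec]

theorem m5E_off (z0 : Γ ⧸ φ.range → Bool) (x : F → Bool) {g : Γ} (hg : g ∉ φ.range) :
    m5E φ z0 x g = z0 (g • ((1 : Γ) : Γ ⧸ φ.range)) := by
  unfold m5E
  have h : ¬ ∃ a, φ a = g := hg
  rw [dif_neg h]

theorem m5E_act (hφ : Function.Injective φ) (z0 : Γ ⧸ φ.range → Bool) (x : F → Bool) (a : F) :
    m5E φ z0 (act a x) = act (φ a) (m5E φ z0 x) := by
  funext g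
  simp only [act]
  by_cases hg : g ∈ φ.range
  · obtain ⟨b, rfl⟩ := hg
    rw [m5E_on hφ, ← map_mul, m5E_on hφ]
    rfl
  · rw [m5E_off z0 _ hg, m5E_off z0 x]
    · rw [mul_smul, (m5_fix_iff (φ a)).2 ⟨a, rfl⟩]
    · intro h
      apply hg
      obtain ⟨b, hb⟩ := h
      exact ⟨b * a⁻¹, by rw [map_mul, map_inv, hb, mul_inv_cancel_right]⟩

theorem m5E_inj (hφ : Function.Injective φ) (z0 : Γ ⧸ φ.range → Bool) {x y : F → Bool}
    (h : m5E φ z0 x = m5E φ z0 y) : x = y := by
  funext a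
  rw [← m5E_on hφ z0 x, h, m5E_on hφ]

theorem m5E_meas (z0 : Γ ⧸ φ.range → Bool) : Measurable (m5E φ z0) := by
  refine measurable_pi_lambda _ fun g => ?_
  unfold m5E
  by_cases h : ∃ a, φ a = g
  · simp only [dif_pos h]
    exact measurable_pi_apply _
  · simp only [dif_neg h]
    exact measurable_const

end m5red

theorem m5_symm {G α : Type} [Group G] {x y : G → α} (γ : G) (h : x = act γ y) :
    y = act γ⁻¹ x := by
  rw [h, ← act_mul, inv_mul_cancel, act_one]

theorem m5_core {Γ F : Type} [Group Γ] [Group F] [Countable Γ] (φ : F →* Γ)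
    (hφ : Function.Injective φ) (A : Ht Γ (Γ ⧸ φ.range)) :
    ∃ K : Set (Γ → Bool), K.Nonempty ∧ IsClosed K ∧ (∀ γ, ∀ z ∈ K, act γ z ∈ K) ∧
      (∃ f : K → K, Measurable f ∧ Function.Injective f ∧
        (∀ z, SameOrb (f z : Γ → Bool) z) ∧ ∀ z : K, ∃ z' : K, SameOrb (z' : Γ → Bool) z ∧
          z' ∉ Set.range f) ∧
      (∃ z ∈ K, ∀ a : F, act (φ a) z = z) ∧
      ∃ E : (F → Bool) → K, Measurable E ∧
        ∀ x y, SameOrb x y ↔ SameOrb (E x : Γ → Bool) (E y) := by
  obtain ⟨r, n, q, z0, hz0, hmain⟩ := exists_config A ((1 : Γ) : Γ ⧸ φ.range)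
  have hoff : ∀ x : F → Bool, ∀ g : Γ, g • ((1 : Γ) : Γ ⧸ φ.range) ≠ ((1 : Γ) : Γ ⧸ φ.range) →
      m5E φ z0 x g = z0 (g • ((1 : Γ) : Γ ⧸ φ.range)) := by
    intro x g hg
    exact m5E_off z0 x fun h => hg ((m5_fix_iff g).2 h)
  have hmem : ∀ x, m5E φ z0 x ∈ m5K A.S r n := fun x => (hmain _ (hoff x)).1
  -- the key point
  have key : ∀ (x y : F → Bool) (γ : Γ), m5E φ z0 x = act γ (m5E φ z0 y) →
      (∃ a, x a = true) → γ ∈ φ.range := by
    rintro x y γ h ⟨a, ha⟩
    have h1 := ((hmain _ (hoff x)).2 (φ a)).2 ⟨(m5_fix_iff _).2 ⟨a, rfl⟩, by rw [m5E_on hφ, ha]⟩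
    rw [h, Expl_act] at h1
    have h2 := (((hmain _ (hoff y)).2 (φ a * γ)).1 h1).1
    rw [m5_fix_iff] at h2
    obtain ⟨b, hb⟩ := h2
    exact ⟨a⁻¹ * b, by rw [map_mul, map_inv, hb, inv_mul_cancel_left]⟩
  refine ⟨m5K A.S r n, ⟨_, hmem fun _ => false⟩, m5_closed _ _ _, m5_inv _ _ _, ?_,
    ⟨_, hmem fun _ => false, fun a => (m5E_act hφ z0 (fun _ => false) a).symm⟩, ?_⟩
  · obtain ⟨f, f1, f2, f3, f4⟩ := m5_compress A.S A.inv_mem r n
    refine ⟨f, f1, f2, fun z => f3 z, fun z => ?_⟩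
    obtain ⟨γ, z', h1, h2⟩ := f4 z
    exact ⟨z', ⟨γ, h1⟩, h2⟩
  · refine ⟨fun x => ⟨m5E φ z0 x, hmem x⟩, (m5E_meas z0).subtype_mk, fun x y => ?_⟩
    constructor
    · rintro ⟨a, rfl⟩
      exact ⟨φ a, m5E_act hφ z0 y a⟩
    · rintro ⟨γ, h⟩
      have h' : m5E φ z0 x = act γ (m5E φ z0 y) := h
      have fin : γ ∈ φ.range → SameOrb x y := by
        rintro ⟨c, rfl⟩
        refine ⟨c, m5E_inj hφ z0 ?_⟩
        rw [m5E_act hφ]
        exact h'
      by_cases hx : ∃ a, x a = true
      · exact fin (key x y γ h' hx)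
      · by_cases hy : ∃ a, y a = true
        · have := key y x γ⁻¹ (m5_symm γ h') hy
          exact fin (by simpa using φ.range.inv_mem this)
        · refine ⟨1, ?_⟩
          rw [act_one]
          funext a
          have h1 : x a = false := by
            by_contra h
            exact hx ⟨a, by simpa using h⟩
          have h2 : y a = false := by
            by_contra h
            exact hy ⟨a, by simpa using h⟩
          rw [h1, h2]

end

end Pool.Agent.Lib.MP_35fb4b_lc
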