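import Pool.Agent.Lib.MP_35fb4b_lc.Defs

/-! M6a: a free group of infinite rank in the free group of rank two; extension by zero. -/

set_option autoImplicit false

namespace Pool.Agent.Lib.MP_35fb4b_lc

open scoped Classical Pointwise

noncomputable section

/-- the shift action of the integers on the free group on the integers -/
def m6a_shift : Multiplicative ℤ →* MulAut (FreeGroup ℤ) where
  toFun k := FreeGroup.freeGroupCongr (Equiv.addRight (Multiplicative.toAdd k))
  map_one' := by
    ext x
    simp
  map_mul' k l := by
    ext x
    rw [MulAut.mul_apply]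
    simp only [FreeGroup.freeGroupCongr_apply, toAdd_mul]
    rw [FreeGroup.map.comp]
    congr 2
    funext y
    simp only [Function.comp_apply, Equiv.coe_addRight]
    ring

theorem m6a_shift_of (k : Multiplicative ℤ) (n : ℤ) :
    m6a_shift k (FreeGroup.of n) = FreeGroup.of (n + Multiplicative.toAdd k) := by
  simp [m6a_shift]

theorem exists_free_embedding :
    ∃ κ : FreeGroup ℕ →* FreeGroup (Fin 2), Function.Injective κ := by
  let κ : FreeGroup ℕ →* FreeGroup (Fin 2) := FreeGroup.lift
    (fun n : ℕ => (FreeGroup.of 0) ^ n * FreeGroup.of 1 * ((FreeGroup.of 0) ^ n)⁻¹)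
  let θ : FreeGroup (Fin 2) →* FreeGroup ℤ ⋊[m6a_shift] Multiplicative ℤ :=
    FreeGroup.lift (fun i => if i = 0 then SemidirectProduct.inr (Multiplicative.ofAdd 1)
      else SemidirectProduct.inl (FreeGroup.of 0))
  have hθ : θ.comp κ = (SemidirectProduct.inl (φ := m6a_shift)).comp
      (FreeGroup.map (fun n : ℕ => (n : ℤ))) := by
    ext1 n
    rw [MonoidHom.comp_apply, MonoidHom.comp_apply, FreeGroup.map.of]
    have h1 : κ (FreeGroup.of n) =
        (FreeGroup.of 0) ^ n * FreeGroup.of 1 * ((FreeGroup.of 0) ^ n)⁻¹ :=
      FreeGroup.lift_apply_of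
    have h2 : θ (FreeGroup.of 0) = SemidirectProduct.inr (Multiplicative.ofAdd 1) := by
      simp [θ]
    have h3 : θ (FreeGroup.of 1) = SemidirectProduct.inl (FreeGroup.of 0) := by
      simp [θ]
    rw [h1, map_mul, map_mul, map_inv, map_pow, h2, h3, ← map_pow, ← map_inv,
      ← SemidirectProduct.inl_aut, m6a_shift_of]
    simp
  refine ⟨κ, ?_⟩
  have h4 : Function.Injective (θ.comp κ) := by
    rw [hθ]
    refine SemidirectProduct.inl_injective.comp ?_
    have h5 : Function.LeftInverse (FreeGroup.map Int.toNat)
        (FreeGroup.map (fun n : ℕ => (n : ℤ))) := by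
      intro x
      rw [FreeGroup.map.comp]
      have : Int.toNat ∘ (fun n : ℕ => (n : ℤ)) = id := by
        funext n
        simp
      rw [this, FreeGroup.map.id]
    exact h5.injective
  exact Function.Injective.of_comp (f := θ) h4

theorem extend_by_zero {G H : Type} [Group G] [Group H] (φ : G →* H) (hφ : Function.Injective φ) :
    ∃ e : (G → Bool) → (H → Bool), Measurable e ∧ ∀ x y, SameOrb x y ↔ SameOrb (e x) (e y) := by
  refine ⟨fun x => Function.extend φ x (fun _ => false), ?_, ?_⟩
  · rw [measurable_pi_iff]
    intro h
    by_cases hh : ∃ g, φ g = h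
    · obtain ⟨g, rfl⟩ := hh
      have : (fun x : G → Bool => Function.extend φ x (fun _ => false) (φ g)) = fun x => x g := by
        funext x
        exact hφ.extend_apply _ _ _
      rw [this]
      exact measurable_pi_apply g
    · have : (fun x : G → Bool => Function.extend φ x (fun _ => false) h) = fun _ => false := by
        funext x
        exact Function.extend_apply' _ _ _ hh
      rw [this]
      exact measurable_const
  · intro x y
    constructor
    · rintro ⟨γ, rfl⟩
      refine ⟨φ γ, ?_⟩
      funext h
      dsimp only
      by_cases hh : ∃ g, φ g = h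
      · obtain ⟨g, rfl⟩ := hh
        rw [hφ.extend_apply]
        unfold act
        rw [← map_mul, hφ.extend_apply]
      · rw [Function.extend_apply' _ _ _ hh]
        unfold act
        rw [Function.extend_apply']
        rintro ⟨g, hg⟩
        apply hh
        refine ⟨g * γ⁻¹, ?_⟩
        rw [map_mul, map_inv, hg, mul_inv_cancel_right]
    · rintro ⟨δ, hδ⟩
      have hδ' : ∀ h, Function.extend φ x (fun _ => false) h =
          Function.extend φ y (fun _ => false) (h * δ) := fun h => congrFun hδ h
      by_cases hx : ∃ g, x g = true
      · obtain ⟨g, hg⟩ := hx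
        have h1 := hδ' (φ g)
        rw [hφ.extend_apply, hg] at h1
        have h2 : ∃ g', φ g' = φ g * δ := by
          by_contra hcon
          rw [Function.extend_apply' _ _ _ hcon] at h1
          exact absurd h1 (by decide)
        obtain ⟨g', hg'⟩ := h2
        have h3 : δ = φ (g⁻¹ * g') := by
          rw [map_mul, map_inv, hg', inv_mul_cancel_left]
        refine ⟨g⁻¹ * g', ?_⟩
        funext g''
        have h4 := hδ' (φ g'')
        rw [hφ.extend_apply, h3, ← map_mul, hφ.extend_apply] at h4
        exact h4
      · push Not at hx
        have hx' : ∀ g, x g = false := fun g => by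
          have := hx g
          simpa using this
        have hy' : ∀ g, y g = false := by
          intro g
          have h5 := hδ' (φ g * δ⁻¹)
          rw [inv_mul_cancel_right, hφ.extend_apply] at h5
          rw [← h5]
          by_cases hh : ∃ g', φ g' = φ g * δ⁻¹
          · obtain ⟨g', hg'⟩ := hh
            rw [← hg', hφ.extend_apply]
            exact hx' g'
          · rw [Function.extend_apply' _ _ _ hh]
        refine ⟨1, ?_⟩
        funext g
        rw [act_one, hx', hy']

end

end Pool.Agent.Lib.MP_35fb4b_lc
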