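import Pool.Agent.Lib.MP_35fb4b_lc.Defs

set_option autoImplicit false

namespace Pool.Agent.Lib.MP_35fb4b_lc

open scoped Classical Pointwise

noncomputable section

/-- the shift of the generators -/
def m6b_j : FreeGroup ℕ →* FreeGroup ℕ := FreeGroup.map Nat.succ

theorem m6b_j_inj : Function.Injective m6b_j :=
  FreeGroup.map_injective Nat.succ_injective

/-- the positions of the digits -/
def m6b_t (n : ℕ) : FreeGroup ℕ := FreeGroup.of 0 ^ (n + 1)

/-- an action of the free group on the integers -/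
def m6b_pi : FreeGroup ℕ →* Equiv.Perm ℤ :=
  FreeGroup.lift fun i => if i = 0 then Equiv.addRight (1 : ℤ) else Equiv.neg ℤ

theorem m6b_pi_j (g : FreeGroup ℕ) : m6b_pi (m6b_j g) 0 = 0 := by
  induction g using FreeGroup.induction_on with
  | C1 => simp
  | of i => simp [m6b_pi, m6b_j]
  | inv_of i h =>
    rw [map_inv, map_inv, Equiv.Perm.inv_eq_iff_eq]
    exact h.symm
  | mul a b ha hb => rw [map_mul, map_mul, Equiv.Perm.mul_apply, hb, ha]

theorem m6b_pi_t (n : ℕ) (p : ℤ) : m6b_pi (m6b_t n) p = p + (n + 1) := by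
  have h : ∀ n : ℕ, m6b_pi (FreeGroup.of 0 ^ n) p = p + n := by
    intro n
    induction n with
    | zero => simp
    | succ n ih =>
      rw [pow_succ', map_mul, Equiv.Perm.mul_apply, ih]
      simp [m6b_pi]
      ring
  have := h (n + 1)
  push_cast at this
  exact this

theorem m6b_pi_tj (n : ℕ) (l : FreeGroup ℕ) : m6b_pi (m6b_t n * m6b_j l) 0 = n + 1 := by
  rw [map_mul, Equiv.Perm.mul_apply, m6b_pi_j, m6b_pi_t, zero_add]

theorem m6b_ne (n : ℕ) (l l' : FreeGroup ℕ) : m6b_t n * m6b_j l ≠ m6b_j l' := by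
  intro h
  have h1 := congrArg (fun g => m6b_pi g 0) h
  simp only [m6b_pi_tj, m6b_pi_j] at h1
  omega

theorem m6b_unique {n n' : ℕ} {l l' : FreeGroup ℕ} (h : m6b_t n * m6b_j l = m6b_t n' * m6b_j l') :
    n = n' ∧ l = l' := by
  have h1 := congrArg (fun g => m6b_pi g 0) h
  simp only [m6b_pi_tj] at h1
  have h2 : n = n' := by omega
  subst h2
  exact ⟨rfl, m6b_j_inj (mul_left_cancel h)⟩

/-- the coding map -/
def m6b_e (x : FreeGroup ℕ → (ℕ → Bool)) (g : FreeGroup ℕ) : Bool :=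
  decide ((∃ l, g = m6b_j l) ∨ ∃ n l, g = m6b_t n * m6b_j l ∧ x l n = true)

theorem m6b_e_j (x : FreeGroup ℕ → (ℕ → Bool)) (l : FreeGroup ℕ) : m6b_e x (m6b_j l) = true := by
  simp only [m6b_e, decide_eq_true_eq]
  exact Or.inl ⟨l, rfl⟩

theorem m6b_e_t (x : FreeGroup ℕ → (ℕ → Bool)) (n : ℕ) (l : FreeGroup ℕ) :
    m6b_e x (m6b_t n * m6b_j l) = x l n := by
  rw [Bool.eq_iff_iff]
  simp only [m6b_e, decide_eq_true_eq]
  constructor
  · rintro (⟨l', h⟩ | ⟨n', l', h, h'⟩)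
    · exact absurd h (m6b_ne n l l')
    · obtain ⟨rfl, rfl⟩ := m6b_unique h
      exact h'
  · intro h
    exact Or.inr ⟨n, l, rfl, h⟩

theorem m6b_e_cases (x : FreeGroup ℕ → (ℕ → Bool)) (g : FreeGroup ℕ) (h : m6b_e x g = true) :
    (∃ l, g = m6b_j l) ∨ ∃ n l, g = m6b_t n * m6b_j l := by
  simp only [m6b_e, decide_eq_true_eq] at h
  rcases h with h | ⟨n, l, h, -⟩
  · exact Or.inl h
  · exact Or.inr ⟨n, l, h⟩

theorem m6b_e_meas : Measurable m6b_e := by
  refine measurable_pi_iff.2 fun g => ?_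
  by_cases h1 : ∃ l, g = m6b_j l
  · obtain ⟨l, rfl⟩ := h1
    simp only [m6b_e_j]
    exact measurable_const
  · by_cases h2 : ∃ n l, g = m6b_t n * m6b_j l
    · obtain ⟨n, l, rfl⟩ := h2
      simp only [m6b_e_t]
      exact (measurable_pi_apply n).comp (measurable_pi_apply l)
    · have h3 : (fun x => m6b_e x g) = fun _ => false := by
        funext x
        rw [Bool.eq_false_iff]
        intro h
        rcases m6b_e_cases x g h with h | h
        · exact h1 h
        · exact h2 h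
      rw [h3]
      exact measurable_const

theorem m6b_e_act (x : FreeGroup ℕ → (ℕ → Bool)) (γ : FreeGroup ℕ) :
    m6b_e (act γ x) = act (m6b_j γ) (m6b_e x) := by
  funext g
  rw [Bool.eq_iff_iff]
  simp only [m6b_e, act, decide_eq_true_eq]
  constructor
  · rintro (⟨l, rfl⟩ | ⟨n, l, rfl, h⟩)
    · exact Or.inl ⟨l * γ, by rw [map_mul]⟩
    · exact Or.inr ⟨n, l * γ, by rw [map_mul, mul_assoc], h⟩
  · rintro (⟨l, h⟩ | ⟨n, l, h, h'⟩)
    · refine Or.inl ⟨l * γ⁻¹, ?_⟩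
      rw [map_mul, map_inv, ← h, mul_inv_cancel_right]
    · refine Or.inr ⟨n, l * γ⁻¹, ?_, ?_⟩
      · rw [map_mul, map_inv, ← mul_assoc, ← h, mul_inv_cancel_right]
      · rw [inv_mul_cancel_right]
        exact h'

theorem code_sequences : ∃ e : (FreeGroup ℕ → (ℕ → Bool)) → (FreeGroup ℕ → Bool), Measurable e ∧
    ∀ x y, SameOrb x y ↔ SameOrb (e x) (e y) := by
  refine ⟨m6b_e, m6b_e_meas, fun x y => ⟨?_, ?_⟩⟩
  · rintro ⟨γ, rfl⟩
    exact ⟨m6b_j γ, m6b_e_act y γ⟩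
  · rintro ⟨δ, h⟩
    have key : ∀ l, m6b_e y (m6b_j l * δ) = true := by
      intro l
      have h1 := congrFun h (m6b_j l)
      rw [m6b_e_j] at h1
      exact h1.symm
    have h1 := m6b_e_cases y _ (key 1)
    rw [map_one, one_mul] at h1
    rcases h1 with ⟨γ, rfl⟩ | ⟨n, μ, rfl⟩
    · refine ⟨γ, ?_⟩
      funext l n
      have h2 := congrFun h (m6b_t n * m6b_j l)
      rw [m6b_e_t] at h2
      rw [h2]
      change m6b_e y (m6b_t n * m6b_j l * m6b_j γ) = y (l * γ) n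
      rw [mul_assoc, ← map_mul, m6b_e_t]
    · exfalso
      have h3 : m6b_pi (m6b_j (FreeGroup.of 0) * (m6b_t n * m6b_j μ)) 0 = -(n + 1) := by
        rw [map_mul, Equiv.Perm.mul_apply, m6b_pi_tj]
        simp [m6b_pi, m6b_j]
      rcases m6b_e_cases y _ (key (FreeGroup.of 0)) with ⟨l, h4⟩ | ⟨n', l, h4⟩
      · rw [h4, m6b_pi_j] at h3
        omega
      · rw [h4, m6b_pi_tj] at h3
        omega

theorem action_to_shift (G : Type) [Group G] [Countable G] (Y : Type) [MeasurableSpace Y]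
    [StandardBorelSpace Y] [MulAction G Y] (hG : ∀ γ : G, Measurable (fun y : Y => γ • y)) :
    ∃ f : Y → (FreeGroup ℕ → (ℕ → Bool)), Measurable f ∧
      ∀ y y', (∃ γ : G, y = γ • y') ↔ SameOrb (f y) (f y') := by
  obtain ⟨c, hc⟩ := exists_surjective_nat G
  let ρ : FreeGroup ℕ →* G := FreeGroup.lift c
  have hρ : Function.Surjective ρ := by
    intro g
    obtain ⟨n, rfl⟩ := hc g
    exact ⟨FreeGroup.of n, by simp [ρ]⟩
  obtain ⟨i, hi, hinj⟩ := MeasurableSpace.measurable_injection_nat_bool_of_countablySeparated Y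
  let f : Y → (FreeGroup ℕ → (ℕ → Bool)) := fun y w => i (ρ w • y)
  have hf : ∀ (w : FreeGroup ℕ) (y : Y), f (ρ w • y) = act w (f y) := by
    intro w y
    funext v
    simp only [f, act, map_mul, mul_smul]
  refine ⟨f, ?_, fun y y' => ⟨?_, ?_⟩⟩
  · exact measurable_pi_iff.2 fun w => hi.comp (hG (ρ w))
  · rintro ⟨γ, rfl⟩
    obtain ⟨w, rfl⟩ := hρ γ
    exact ⟨w, hf w y'⟩
  · rintro ⟨w, h⟩
    rw [← hf] at h
    have h1 := congrFun h 1
    simp only [f, map_one, one_smul] at h1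
    exact ⟨ρ w, hinj h1⟩

end

end Pool.Agent.Lib.MP_35fb4b_lc
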