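import Pool.Agent.Lib.MP_35fb4b_lc.Defs

/-!
# Invariant measures from means on coset spaces (MP_35fb4b_lc, module N1)
-/

set_option autoImplicit false

namespace Pool.Agent.Lib.MP_35fb4b_lc

open scoped Classical
open MeasureTheory

noncomputable section

/-- the orbit map on the coset space -/
def n1_rho {Γ : Type} [Group Γ] (Δ : Subgroup Γ) (z : Γ → Bool) (hz : ∀ δ ∈ Δ, act δ z = z) :
    Γ ⧸ Δ → (Γ → Bool) :=
  fun x => Quotient.liftOn' x (fun g => act g z) (by
    intro a b hab
    have h : a⁻¹ * b ∈ Δ := QuotientGroup.leftRel_apply.1 hab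
    have h2 := hz _ h
    change act a z = act b z
    calc act a z = act a (act (a⁻¹ * b) z) := by rw [h2]
      _ = act b z := by rw [← act_mul]; simp)

theorem n1_rho_mk {Γ : Type} [Group Γ] (Δ : Subgroup Γ) (z : Γ → Bool)
    (hz : ∀ δ ∈ Δ, act δ z = z) (g : Γ) : n1_rho Δ z hz (g : Γ ⧸ Δ) = act g z := rfl

theorem n1_rho_smul {Γ : Type} [Group Γ] (Δ : Subgroup Γ) (z : Γ → Bool)
    (hz : ∀ δ ∈ Δ, act δ z = z) (γ : Γ) (x : Γ ⧸ Δ) :
    n1_rho Δ z hz (γ • x) = act γ (n1_rho Δ z hz x) := by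
  obtain ⟨g, rfl⟩ := QuotientGroup.mk_surjective x
  change act (γ * g) z = act γ (act g z)
  exact act_mul γ g z

theorem n1_ring {Γ : Type} : IsSetRing {C : Set (Γ → Bool) | IsClopen C} where
  empty_mem := isClopen_empty
  union_mem := fun _ _ hs ht => IsClopen.union hs ht
  sdiff_mem := fun _ _ hs ht => IsClopen.diff hs ht

theorem n1_gen {Γ : Type} [Countable Γ] :
    (inferInstance : MeasurableSpace (Γ → Bool)) =
      MeasurableSpace.generateFrom {C : Set (Γ → Bool) | IsClopen C} := by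
  apply le_antisymm
  · refine iSup_le fun i => ?_
    rintro s ⟨t, -, rfl⟩
    exact MeasurableSpace.measurableSet_generateFrom
      ((isClopen_discrete t).preimage (continuous_apply i))
  · refine MeasurableSpace.generateFrom_le fun s hs => ?_
    exact IsOpen.measurableSet (IsClopen.isOpen hs)

theorem n1_cont {Γ : Type} [Group Γ] (γ : Γ) :
    Continuous (act γ : (Γ → Bool) → (Γ → Bool)) :=
  continuous_pi fun g => continuous_apply (g * γ)

/-! ### N1 (N1.lean) -/
theorem exists_measure {Γ : Type} [Group Γ] [Countable Γ] (Δ : Subgroup Γ)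
    (hm : HasMean Γ (Γ ⧸ Δ)) (z : Γ → Bool) (hz : ∀ δ ∈ Δ, act δ z = z) :
    ∃ μ : Measure (Γ → Bool), IsProbabilityMeasure μ ∧ (∀ γ : Γ, μ.map (act γ) = μ) ∧
      ∀ K : Set (Γ → Bool), IsClosed K → (∀ γ : Γ, act γ z ∈ K) → μ K = 1 := by
  obtain ⟨m, hm0, hm1, hma, hmi⟩ := hm
  have hme : m ∅ = 0 := by
    have h := hma ∅ ∅ (Set.disjoint_empty _)
    rw [Set.union_empty] at h
    linarith
  let ρ := n1_rho Δ z hz
  let c : AddContent ENNReal {C : Set (Γ → Bool) | IsClopen C} :=
    n1_ring.addContent_of_union (fun C => ENNReal.ofReal (m (ρ ⁻¹' C)))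
      (by simp [hme]) (by
        intro s t _ _ hst
        rw [Set.preimage_union, hma _ _ (hst.preimage _), ENNReal.ofReal_add (hm0 _) (hm0 _)])
  have hc : ∀ C, c C = ENNReal.ofReal (m (ρ ⁻¹' C)) := fun C => rfl
  have hsub : c.IsSigmaSubadditive := by
    intro f hf hU
    have hcomp : IsCompact (⋃ i, f i) := hU.isClosed.isCompact
    obtain ⟨S, hS⟩ := hcomp.elim_finite_subcover f (fun i => (hf i).isOpen) subset_rfl
    calc c (⋃ i, f i) ≤ c (⋃ i ∈ S, f i) :=
          addContent_mono n1_ring.isSetSemiring hU (n1_ring.biUnion_mem S fun i _ => hf i) hS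
      _ ≤ ∑ i ∈ S, c (f i) := addContent_biUnion_le n1_ring fun i _ => hf i
      _ ≤ ∑' i, c (f i) := ENNReal.sum_le_tsum S
  let μ : Measure (Γ → Bool) := c.measure n1_ring.isSetSemiring n1_gen.le hsub
  have hμ : ∀ C, IsClopen C → μ C = ENNReal.ofReal (m (ρ ⁻¹' C)) := by
    intro C hC
    exact c.measure_eq n1_ring.isSetSemiring n1_gen hsub hC
  have hprob : IsProbabilityMeasure μ := by
    constructor
    rw [hμ _ isClopen_univ]
    simp [hm1]
  refine ⟨μ, hprob, ?_, ?_⟩
  · intro γ
    have hmeas : Measurable (act γ : (Γ → Bool) → (Γ → Bool)) := (n1_cont γ).measurable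
    have hfin : IsProbabilityMeasure (μ.map (act γ)) :=
      Measure.isProbabilityMeasure_map hmeas.aemeasurable
    refine ext_of_generate_finite {C : Set (Γ → Bool) | IsClopen C} n1_gen ?_ ?_ ?_
    · intro s hs t ht _
      exact IsClopen.inter hs ht
    · intro s hs
      have hs' : IsClopen s := hs
      rw [Measure.map_apply hmeas hs'.isOpen.measurableSet, hμ _ hs',
        hμ _ (hs'.preimage (n1_cont γ))]
      congr 1
      rw [← hmi γ⁻¹ (ρ ⁻¹' s)]
      congr 1
      ext x
      simp only [Set.mem_preimage, Set.mem_image]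
      constructor
      · intro hx
        refine ⟨γ • x, ?_, by simp⟩
        change n1_rho Δ z hz (γ • x) ∈ s
        rw [n1_rho_smul]
        exact hx
      · rintro ⟨y, hy, rfl⟩
        change act γ (n1_rho Δ z hz (γ⁻¹ • y)) ∈ s
        rw [← n1_rho_smul]
        simpa using hy
    · simp
  · intro K hK hzK
    have hcompl : μ Kᶜ = 0 := by
      obtain ⟨T, hT, hTs, hTU⟩ := TopologicalSpace.isOpen_sUnion_countable
        {s : Set (Γ → Bool) | IsClopen s ∧ s ⊆ Kᶜ} (fun s hs => hs.1.isOpen)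
      have hKc : Kᶜ ⊆ ⋃₀ T := by
        rw [hTU]
        intro x hx
        obtain ⟨s, hs, hxs, hsK⟩ :=
          isTopologicalBasis_isClopen.exists_subset_of_mem_open hx hK.isOpen_compl
        exact ⟨s, ⟨hs, hsK⟩, hxs⟩
      refine measure_mono_null hKc ?_
      rw [measure_sUnion_null_iff hT]
      intro s hs
      have hs' := hTs hs
      rw [hμ s hs'.1]
      have : ρ ⁻¹' s = ∅ := by
        rw [Set.eq_empty_iff_forall_notMem]
        intro x hx
        obtain ⟨g, rfl⟩ := QuotientGroup.mk_surjective x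
        exact hs'.2 hx (hzK g)
      rw [this, hme]
      simp
    exact (prob_compl_eq_zero_iff hK.measurableSet).1 hcompl

end

end Pool.Agent.Lib.MP_35fb4b_lc
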