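import Pool.Agent.Lib.MP_35fb4b_lc.Defs

/-!
# A compressible action has no invariant probability measure
-/

set_option autoImplicit false

namespace Pool.Agent.Lib.MP_35fb4b_lc

open scoped Classical
open MeasureTheory

noncomputable section

theorem n2_act_measurable {Γ : Type} [Group Γ] (γ : Γ) :
    Measurable (act γ : (Γ → Bool) → (Γ → Bool)) := by
  refine measurable_pi_lambda _ fun g => ?_
  exact measurable_pi_apply (g * γ)

theorem n2_act_inv {Γ : Type} [Group Γ] (γ : Γ) (x : Γ → Bool) : act γ⁻¹ (act γ x) = x := by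
  rw [← act_mul, inv_mul_cancel, act_one]

theorem n2_act_inv' {Γ : Type} [Group Γ] (γ : Γ) (x : Γ → Bool) : act γ (act γ⁻¹ x) = x := by
  rw [← act_mul, mul_inv_cancel, act_one]

theorem no_measure {Γ : Type} [Group Γ] [Countable Γ] {K : Set (Γ → Bool)} (hK : IsClosed K)
    (hinv : ∀ γ : Γ, ∀ z ∈ K, act γ z ∈ K) (f : K → K) (hf : Measurable f)
    (hfi : Function.Injective f) (h1 : ∀ z, ∃ γ : Γ, (f z : Γ → Bool) = act γ z)
    (h2 : ∀ z : K, ∃ γ : Γ, ∃ z' : K, (z' : Γ → Bool) = act γ z ∧ z' ∉ Set.range f)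
    (μ : Measure (Γ → Bool)) (hμ0 : IsProbabilityMeasure μ) (hμ : ∀ γ : Γ, μ.map (act γ) = μ)
    (hμK : μ K = 1) : False := by
  obtain ⟨e, he⟩ := exists_surjective_nat Γ
  have hKm : MeasurableSet K := hK.measurableSet
  have hemb : MeasurableEmbedding (Subtype.val : K → (Γ → Bool)) :=
    MeasurableEmbedding.subtype_coe hKm
  -- invariance of the measure
  have hpre : ∀ (γ : Γ) (S : Set (Γ → Bool)), MeasurableSet S → μ (act γ ⁻¹' S) = μ S := by
    intro γ S hS
    rw [← Measure.map_apply (n2_act_measurable γ) hS, hμ]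
  have hex : ∀ z : K, ∃ n, (f z : Γ → Bool) = act (e n) z := by
    intro z
    obtain ⟨γ, hγ⟩ := h1 z
    obtain ⟨n, rfl⟩ := he γ
    exact ⟨n, hγ⟩
  -- the pieces
  let E : ℕ → Set K := fun n => {z | (f z : Γ → Bool) = act (e n) z}
  have hE : ∀ n, MeasurableSet (E n) := by
    intro n
    have h3 : E n = ⋂ g : Γ, {z : K | (f z : Γ → Bool) g = (z : Γ → Bool) (g * e n)} := by
      ext z
      simp only [E, Set.mem_ofPred_eq, Set.mem_iInter]
      exact funext_iff
    rw [h3]
    refine MeasurableSet.iInter fun g => ?_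
    have m1 : Measurable fun z : K => (f z : Γ → Bool) g :=
      (measurable_pi_apply g).comp (measurable_subtype_coe.comp hf)
    have m2 : Measurable fun z : K => (z : Γ → Bool) (g * e n) :=
      (measurable_pi_apply (g * e n)).comp measurable_subtype_coe
    have h4 : {z : K | (f z : Γ → Bool) g = (z : Γ → Bool) (g * e n)} =
        (fun z : K => ((f z : Γ → Bool) g, (z : Γ → Bool) (g * e n))) ⁻¹'
          {q : Bool × Bool | q.1 = q.2} := rfl
    rw [h4]
    exact (m1.prodMk m2) MeasurableSet.of_discrete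
  let A : ℕ → Set K := disjointed E
  have hA : ∀ n, MeasurableSet (A n) := fun n => MeasurableSet.disjointed hE n
  have hAE : ∀ n, A n ⊆ E n := fun n => disjointed_subset E n
  have hAd : Pairwise (Function.onFun Disjoint A) := disjoint_disjointed E
  have hAU : ⋃ n, A n = Set.univ := by
    rw [iUnion_disjointed]
    ext z
    simp only [Set.mem_iUnion, Set.mem_univ, iff_true]
    exact hex z
  have hvA : ∀ n, MeasurableSet (Subtype.val '' A n : Set (Γ → Bool)) := fun n =>
    hemb.measurableSet_image' (hA n)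
  -- images under `f`
  have himg : ∀ n, (Subtype.val '' (f '' A n) : Set (Γ → Bool)) =
      act (e n)⁻¹ ⁻¹' (Subtype.val '' A n) := by
    intro n
    ext x
    constructor
    · rintro ⟨_, ⟨z, hz, rfl⟩, rfl⟩
      refine ⟨z, hz, ?_⟩
      have h3 : (f z : Γ → Bool) = act (e n) z := hAE n hz
      rw [h3, n2_act_inv]
    · rintro ⟨z, hz, hzx⟩
      refine ⟨f z, ⟨z, hz, rfl⟩, ?_⟩
      have h3 : (f z : Γ → Bool) = act (e n) z := hAE n hz
      rw [h3, hzx, n2_act_inv']
  have himgm : ∀ n, MeasurableSet (Subtype.val '' (f '' A n) : Set (Γ → Bool)) := fun n => by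
    rw [himg]
    exact n2_act_measurable _ (hvA n)
  have hμimg : ∀ n, μ (Subtype.val '' (f '' A n)) = μ (Subtype.val '' A n) := fun n => by
    rw [himg, hpre _ _ (hvA n)]
  -- the measure of the range
  have hKU : K = ⋃ n, (Subtype.val '' A n : Set (Γ → Bool)) := by
    rw [← Set.image_iUnion, hAU, Set.image_univ, Subtype.range_val]
  have hRU : (Subtype.val '' Set.range f : Set (Γ → Bool)) =
      ⋃ n, (Subtype.val '' (f '' A n) : Set (Γ → Bool)) := by
    rw [← Set.image_iUnion, ← Set.image_iUnion, hAU, Set.image_univ]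
  have hd1 : Pairwise (Function.onFun Disjoint fun n => (Subtype.val '' A n : Set (Γ → Bool))) := by
    intro i j hij
    exact (Set.disjoint_image_iff Subtype.val_injective).2 (hAd hij)
  have hd2 : Pairwise (Function.onFun Disjoint
      fun n => (Subtype.val '' (f '' A n) : Set (Γ → Bool))) := by
    intro i j hij
    exact (Set.disjoint_image_iff Subtype.val_injective).2
      ((Set.disjoint_image_iff hfi).2 (hAd hij))
  have hRm : MeasurableSet (Subtype.val '' Set.range f : Set (Γ → Bool)) := by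
    rw [hRU]
    exact MeasurableSet.iUnion himgm
  have hR : μ (Subtype.val '' Set.range f) = 1 := by
    rw [hRU, measure_iUnion hd2 himgm]
    simp only [hμimg]
    rw [← measure_iUnion hd1 hvA, ← hKU, hμK]
  -- the complement of the range
  let B : Set (Γ → Bool) := K \ (Subtype.val '' Set.range f)
  have hB : MeasurableSet B := hKm.diff hRm
  have hB0 : μ B = 0 := by
    have hsub : (Subtype.val '' Set.range f : Set (Γ → Bool)) ⊆ K := by
      rintro _ ⟨z, _, rfl⟩
      exact z.2
    have h3 := measure_sdiff hsub hRm.nullMeasurableSet (measure_ne_top μ _)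
    simp only [B]
    rw [h3, hμK, hR]
    simp
  have hcov : K ⊆ ⋃ γ : Γ, act γ ⁻¹' B := by
    intro z hz
    obtain ⟨γ, z', h3, h4⟩ := h2 ⟨z, hz⟩
    rw [Set.mem_iUnion]
    refine ⟨γ, ?_, ?_⟩
    · rw [← h3]
      exact z'.2
    · rintro ⟨y, hy, hyz⟩
      rw [← h3] at hyz
      exact h4 (Subtype.ext hyz ▸ hy)
  have h5 : μ K ≤ 0 := by
    refine (measure_mono hcov).trans ?_
    refine (measure_iUnion_le _).trans ?_
    simp only [hpre _ _ hB, hB0]
    simp
  rw [hμK] at h5
  simp at h5

end

end Pool.Agent.Lib.MP_35fb4b_lc
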