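import Pool.Agent.Lib.MP_35fb4b_lc.M1
import Pool.Agent.Lib.MP_35fb4b_lc.M2
import Pool.Agent.Lib.MP_35fb4b_lc.M5
import Pool.Agent.Lib.MP_35fb4b_lc.M6a
import Pool.Agent.Lib.MP_35fb4b_lc.M6b
import Pool.Agent.Lib.MP_35fb4b_lc.FM6
import Pool.Agent.Lib.MP_35fb4b_lc.N1
import Pool.Agent.Lib.MP_35fb4b_lc.N2

/-!
# Assembly in the internal convention (MP_35fb4b_lc)
-/

set_option autoImplicit false

namespace Pool.Agent.Lib.MP_35fb4b_lc

open scoped Classical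

noncomputable section

theorem universal_F2 (G : Type) [Group G] [Countable G] (Y : Type) [MeasurableSpace Y]
    [StandardBorelSpace Y] [MulAction G Y] (hG : ∀ γ : G, Measurable (fun y : Y => γ • y)) :
    ∃ f : Y → (FreeGroup (Fin 2) → Bool), Measurable f ∧
      ∀ y y', (∃ γ : G, y = γ • y') ↔ SameOrb (f y) (f y') := by
  obtain ⟨κ, hκ⟩ := exists_free_embedding
  obtain ⟨e1, m1, h1⟩ := extend_by_zero κ hκ
  obtain ⟨e2, m2, h2⟩ := code_sequences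
  obtain ⟨f, mf, hf⟩ := action_to_shift G Y hG
  exact ⟨fun y => e1 (e2 (f y)), m1.comp (m2.comp mf), fun y y' => by rw [hf, h2, h1]⟩

/-- all countable Borel equivalence relations reduce to the shift of the free group of rank 2 -/
theorem cber_F2 (X : Type) [MeasurableSpace X] [StandardBorelSpace X] (E : X → X → Prop)
    (hE : Equivalence E) (hm : MeasurableSet {p : X × X | E p.1 p.2})
    (hc : ∀ x, {y | E x y}.Countable) :
    ∃ f : X → (FreeGroup (Fin 2) → Bool), Measurable f ∧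
      ∀ x y, E x y ↔ SameOrb (f x) (f y) := by
  obtain ⟨G, i1, i2, i3, h1, h2⟩ := feldman_moore E hE hm hc
  obtain ⟨f, hf, h3⟩ := universal_F2 G X h1
  exact ⟨f, hf, fun x y => by rw [h2, h3]⟩

theorem main_internal {Γ : Type} [Group Γ] [Countable Γ] (Δ : Subgroup Γ)
    (φ : FreeGroup (Fin 2) →* Δ) (hφ : Function.Injective φ) (hco : ¬ HasMean Γ (Γ ⧸ Δ)) :
    ∃ K : Set (Γ → Bool), K.Nonempty ∧ IsClosed K ∧ (∀ γ, ∀ z ∈ K, act γ z ∈ K) ∧
      (∃ f : K → K, Measurable f ∧ Function.Injective f ∧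
        (∀ z, SameOrb (f z : Γ → Bool) z) ∧ ∀ z : K, ∃ z' : K, SameOrb (z' : Γ → Bool) z ∧
          z' ∉ Set.range f) ∧
      (∃ z ∈ K, ∀ δ ∈ Δ, act δ z = z) ∧
      ∀ (X : Type) [MeasurableSpace X] [StandardBorelSpace X] (E : X → X → Prop), Equivalence E →
        MeasurableSet {p : X × X | E p.1 p.2} → (∀ x, {y | E x y}.Countable) →
          ∃ f : X → K, Measurable f ∧
            ∀ x y, E x y ↔ SameOrb (f x : Γ → Bool) (f y) := by
  have hco' : ¬ HasMean Γ (Γ ⧸ Δ.subtype.range) := by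
    rw [Subgroup.range_subtype]
    exact hco
  have hcnt : Countable (Γ ⧸ Δ.subtype.range) := QuotientGroup.mk_surjective.countable
  obtain ⟨S, ε, hε, hgap⟩ := exists_gap hco'
  obtain ⟨A⟩ := exists_height S ε hε hgap
  obtain ⟨K, k1, k2, k3, k4, ⟨z, hz, hfix⟩, e0, me0, he0⟩ :=
    m5_core Δ.subtype Δ.subtype_injective A
  refine ⟨K, k1, k2, k3, k4, ⟨z, hz, fun δ hδ => hfix ⟨δ, hδ⟩⟩, ?_⟩
  intro X _ _ E hE hm hc
  obtain ⟨f, hf, h1⟩ := cber_F2 X E hE hm hc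
  obtain ⟨e1, me1, he1⟩ := extend_by_zero φ hφ
  exact ⟨fun x => e0 (e1 (f x)), me0.comp (me1.comp hf), fun x y => by rw [h1, he1, he0]⟩

theorem converse_internal {Γ : Type} [Group Γ] [Countable Γ] (Δ : Subgroup Γ)
    {K : Set (Γ → Bool)} (hK : IsClosed K) (hinv : ∀ γ : Γ, ∀ z ∈ K, act γ z ∈ K) (f : K → K)
    (hf : Measurable f) (hfi : Function.Injective f)
    (h1 : ∀ z, SameOrb (f z : Γ → Bool) z)
    (h2 : ∀ z : K, ∃ z' : K, SameOrb (z' : Γ → Bool) z ∧ z' ∉ Set.range f)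
    (z : Γ → Bool) (hz : z ∈ K) (hfix : ∀ δ ∈ Δ, act δ z = z) : ¬ HasMean Γ (Γ ⧸ Δ) := by
  intro hm
  obtain ⟨μ, μ0, μ1, μ2⟩ := exists_measure Δ hm z hfix
  refine no_measure hK hinv f hf hfi h1 ?_ μ μ0 μ1 (μ2 K hK fun γ => hinv γ z hz)
  intro z
  obtain ⟨z', ⟨γ, h3⟩, h4⟩ := h2 z
  exact ⟨γ, z', h3, h4⟩

end

end Pool.Agent.Lib.MP_35fb4b_lc
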