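import Pool.Agent.Lib.MP_35fb4b_lc.Defs

/-! # Module M1: no invariant mean gives a spectral gap -/

set_option autoImplicit false

namespace Pool.Agent.Lib.MP_35fb4b_lc

open scoped Classical Pointwise

noncomputable section

/-- summability of the translate -/
theorem m1_summable_smul {Γ X : Type} [Group Γ] [MulAction Γ X] {f : X → ℝ} (hf : Summable f)
    (s : Γ) : Summable (fun x => f (s • x)) :=
  (MulAction.toPerm s).summable_iff.2 hf

theorem m1_tsum_smul {Γ X : Type} [Group Γ] [MulAction Γ X] (f : X → ℝ)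
    (s : Γ) : ∑' x, f (s • x) = ∑' x, f x :=
  (MulAction.toPerm s).tsum_eq f

theorem m1_sq_summable_sub {X : Type} {a b : X → ℝ} (ha : Summable (fun x => a x ^ 2))
    (hb : Summable (fun x => b x ^ 2)) : Summable (fun x => (a x - b x) ^ 2) := by
  refine Summable.of_nonneg_of_le (fun x => sq_nonneg _) (fun x => ?_)
    ((ha.mul_left 2).add (hb.mul_left 2))
  nlinarith [sq_nonneg (a x + b x)]

theorem m1_sq_summable_add {X : Type} {a b : X → ℝ} (ha : Summable (fun x => a x ^ 2))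
    (hb : Summable (fun x => b x ^ 2)) : Summable (fun x => (a x + b x) ^ 2) := by
  refine Summable.of_nonneg_of_le (fun x => sq_nonneg _) (fun x => ?_)
    ((ha.mul_left 2).add (hb.mul_left 2))
  nlinarith [sq_nonneg (a x - b x)]

/-- the weighted inequality -/
theorem m1_pointwise (a b δ : ℝ) (hδ : 0 < δ) :
    |a ^ 2 - b ^ 2| ≤ (a - b) ^ 2 / (2 * δ) + δ * (a + b) ^ 2 / 2 := by
  have h1 : a ^ 2 - b ^ 2 = (a - b) * (a + b) := by ring
  have h2 : (a - b) ^ 2 / (2 * δ) + δ * (a + b) ^ 2 / 2 =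
      ((a - b) ^ 2 + δ ^ 2 * (a + b) ^ 2) / (2 * δ) := by
    field_simp
  rw [h1, h2, le_div_iff₀ (by positivity), abs_mul]
  have h3 := sq_nonneg (|a - b| - δ * |a + b|)
  have h4 := sq_abs (a - b)
  have h5 := sq_abs (a + b)
  nlinarith

/-- almost invariant vectors give almost invariant densities -/
theorem m1_l1_bound {Γ X : Type} [Group Γ] [MulAction Γ X] (ξ : X → ℝ)
    (hξ : Summable (fun x => ξ x ^ 2)) (s : Γ) (δ : ℝ) (hδ : 0 < δ)
    (h : ∑' x, (ξ (s • x) - ξ x) ^ 2 ≤ δ ^ 2 * ∑' x, ξ x ^ 2) :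
    Summable (fun x => |ξ (s • x) ^ 2 - ξ x ^ 2|) ∧
      ∑' x, |ξ (s • x) ^ 2 - ξ x ^ 2| ≤ 3 * δ * ∑' x, ξ x ^ 2 := by
  have hs : Summable (fun x => ξ (s • x) ^ 2) := m1_summable_smul hξ s
  have hst : ∑' x, ξ (s • x) ^ 2 = ∑' x, ξ x ^ 2 := m1_tsum_smul (fun x => ξ x ^ 2) s
  have hd : Summable (fun x => (ξ (s • x) - ξ x) ^ 2) := m1_sq_summable_sub hs hξ
  have ha : Summable (fun x => (ξ (s • x) + ξ x) ^ 2) := m1_sq_summable_add hs hξ
  have hN : 0 ≤ ∑' x, ξ x ^ 2 := tsum_nonneg fun x => sq_nonneg _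
  have hsum : Summable (fun x => (ξ (s • x) - ξ x) ^ 2 / (2 * δ) +
      δ * (ξ (s • x) + ξ x) ^ 2 / 2) :=
    (hd.div_const _).add ((ha.mul_left δ).div_const 2)
  have habs : Summable (fun x => |ξ (s • x) ^ 2 - ξ x ^ 2|) :=
    Summable.of_nonneg_of_le (fun x => abs_nonneg _)
      (fun x => m1_pointwise (ξ (s • x)) (ξ x) δ hδ) hsum
  refine ⟨habs, ?_⟩
  have h1 : ∑' x, |ξ (s • x) ^ 2 - ξ x ^ 2| ≤
      ∑' x, ((ξ (s • x) - ξ x) ^ 2 / (2 * δ) + δ * (ξ (s • x) + ξ x) ^ 2 / 2) :=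
    habs.tsum_le_tsum (fun x => m1_pointwise (ξ (s • x)) (ξ x) δ hδ) hsum
  have h2 : ∑' x, ((ξ (s • x) - ξ x) ^ 2 / (2 * δ) + δ * (ξ (s • x) + ξ x) ^ 2 / 2) =
      (∑' x, (ξ (s • x) - ξ x) ^ 2) / (2 * δ) + δ * (∑' x, (ξ (s • x) + ξ x) ^ 2) / 2 := by
    rw [(hd.div_const _).tsum_add ((ha.mul_left δ).div_const 2), tsum_div_const, tsum_div_const,
      tsum_mul_left]
  have h3 : ∑' x, (ξ (s • x) + ξ x) ^ 2 ≤ 4 * ∑' x, ξ x ^ 2 := by
    calc ∑' x, (ξ (s • x) + ξ x) ^ 2 ≤ ∑' x, (2 * ξ (s • x) ^ 2 + 2 * ξ x ^ 2) :=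
          ha.tsum_le_tsum (fun x => by nlinarith [sq_nonneg (ξ (s • x) - ξ x)])
            ((hs.mul_left 2).add (hξ.mul_left 2))
      _ = 4 * ∑' x, ξ x ^ 2 := by
          rw [(hs.mul_left 2).tsum_add (hξ.mul_left 2), tsum_mul_left, tsum_mul_left, hst]
          ring
  have h4 : (∑' x, (ξ (s • x) - ξ x) ^ 2) / (2 * δ) ≤ δ * (∑' x, ξ x ^ 2) / 2 := by
    rw [div_le_iff₀ (by positivity)]
    nlinarith
  nlinarith

theorem m1_tsum_image {Γ X : Type} [Group Γ] [MulAction Γ X] (p : X → ℝ) (s : Γ) (A : Set X) :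
    ∑' x, ((fun x => s • x) '' A).indicator p x = ∑' x, A.indicator (fun x => p (s • x)) x := by
  rw [← m1_tsum_smul (fun x => ((fun x => s • x) '' A).indicator p x) s]
  refine tsum_congr fun x => ?_
  by_cases hx : x ∈ A
  · have h1 : s • x ∈ (fun x => s • x) '' A := Set.mem_image_of_mem (fun x => s • x) hx
    rw [Set.indicator_of_mem hx, Set.indicator_of_mem h1]
  · have h1 : s • x ∉ (fun x => s • x) '' A := by
      rintro ⟨y, hy, hyx⟩
      have : y = x := MulAction.injective s hyx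
      exact hx (this ▸ hy)
    rw [Set.indicator_of_notMem hx, Set.indicator_of_notMem h1]

theorem exists_gap {Γ X : Type} [Group Γ] [MulAction Γ X] [Countable Γ] (h : ¬ HasMean Γ X) :
    ∃ (S : Finset Γ) (ε : ℝ), 0 < ε ∧ ∀ ξ : X → ℝ, Summable (fun x => ξ x ^ 2) →
      ∃ s ∈ S, ε * ∑' x, ξ x ^ 2 ≤ ∑' x, (ξ (s • x) - ξ x) ^ 2 := by
  by_contra hcon
  push Not at hcon
  apply h
  obtain ⟨e, he⟩ := exists_surjective_nat Γ
  have hδ : ∀ n : ℕ, (0 : ℝ) < 1 / ((n : ℝ) + 1) := fun n => by positivity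
  choose ξ hξ hlt using fun n : ℕ =>
    hcon ((Finset.range (n + 1)).image e) ((1 / ((n : ℝ) + 1)) ^ 2) (by have := hδ n; positivity)
  have hmem : ∀ n k : ℕ, k ≤ n → e k ∈ (Finset.range (n + 1)).image e := fun n k hk =>
    Finset.mem_image_of_mem e (Finset.mem_range.2 (by omega))
  set N : ℕ → ℝ := fun n => ∑' x, ξ n x ^ 2 with hN
  have hNpos : ∀ n, 0 < N n := by
    intro n
    have h1 := hlt n (e 0) (hmem n 0 (Nat.zero_le n))
    have h2 : 0 ≤ ∑' x, (ξ n (e 0 • x) - ξ n x) ^ 2 := tsum_nonneg fun x => sq_nonneg _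
    have h3 := lt_of_le_of_lt h2 h1
    by_contra h4
    push Not at h4
    have h5 : (0 : ℝ) ≤ (1 / ((n : ℝ) + 1)) ^ 2 := by positivity
    nlinarith [mul_nonpos_of_nonneg_of_nonpos h5 h4]
  set p : ℕ → X → ℝ := fun n x => ξ n x ^ 2 / N n with hp
  have hp0 : ∀ n x, 0 ≤ p n x := fun n x => div_nonneg (sq_nonneg _) (hNpos n).le
  have hps : ∀ n, Summable (p n) := fun n => (hξ n).div_const _
  have hp1 : ∀ n, ∑' x, p n x = 1 := by
    intro n
    simp only [hp]
    rw [tsum_div_const]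
    exact div_self (hNpos n).ne'
  set m : ℕ → Set X → ℝ := fun n A => ∑' x, A.indicator (p n) x with hm
  have hms : ∀ n (A : Set X), Summable (A.indicator (p n)) := fun n A => (hps n).indicator A
  have hm0 : ∀ n A, 0 ≤ m n A := fun n A =>
    tsum_nonneg fun x => Set.indicator_nonneg (fun x _ => hp0 n x) x
  have hm1 : ∀ n A, m n A ≤ 1 := by
    intro n A
    rw [← hp1 n]
    exact (hms n A).tsum_le_tsum (fun x => Set.indicator_le_self' (fun x _ => hp0 n x) x) (hps n)
  -- the ultrafilter limit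
  have hlim : ∀ A : Set X, ∃ a : ℝ, a ∈ Set.Icc (0 : ℝ) 1 ∧
      Filter.Tendsto (fun n => m n A) (Filter.hyperfilter ℕ : Filter ℕ) (nhds a) := by
    intro A
    obtain ⟨a, ha, hle⟩ := (isCompact_Icc (a := (0 : ℝ)) (b := 1)).ultrafilter_le_nhds
      ((Filter.hyperfilter ℕ).map (fun n => m n A))
      (by
        rw [Filter.le_principal_iff]
        refine Filter.mem_map.2 (Filter.Eventually.of_forall fun n => ?_)
        exact ⟨hm0 n A, hm1 n A⟩)
    exact ⟨a, ha, hle⟩
  choose μ hμ1 hμ2 using hlim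
  refine ⟨μ, fun A => (hμ1 A).1, ?_, ?_, ?_⟩
  · refine tendsto_nhds_unique (hμ2 Set.univ) ?_
    have : (fun n => m n Set.univ) = fun _ => (1 : ℝ) := by
      funext n
      simp only [hm, Set.indicator_univ]
      exact hp1 n
    rw [this]
    exact tendsto_const_nhds
  · intro A B hAB
    refine tendsto_nhds_unique (hμ2 (A ∪ B)) ?_
    have : (fun n => m n (A ∪ B)) = fun n => m n A + m n B := by
      funext n
      simp only [hm]
      rw [← (hms n A).tsum_add (hms n B)]
      refine tsum_congr fun x => ?_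
      rw [Set.indicator_union_of_disjoint hAB]
    rw [this]
    exact (hμ2 A).add (hμ2 B)
  · intro γ A
    refine tendsto_nhds_unique (hμ2 _) ?_
    obtain ⟨k, hk⟩ := he γ
    have hbound : ∀ n, k ≤ n → |m n ((fun x => γ • x) '' A) - m n A| ≤ 3 * (1 / ((n : ℝ) + 1)) := by
      intro n hn
      have h1 := hlt n (e k) (hmem n k hn)
      rw [hk] at h1
      obtain ⟨hs, hb⟩ := m1_l1_bound (ξ n) (hξ n) γ (1 / ((n : ℝ) + 1)) (hδ n) h1.le
      have h2 : m n ((fun x => γ • x) '' A) - m n A =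
          ∑' x, (A.indicator (fun x => p n (γ • x)) x - A.indicator (p n) x) := by
        simp only [hm]
        rw [m1_tsum_image, ((m1_summable_smul (hps n) γ).indicator A).tsum_sub (hms n A)]
      have h3 : ∀ x, |A.indicator (fun x => p n (γ • x)) x - A.indicator (p n) x| ≤
          |ξ n (γ • x) ^ 2 - ξ n x ^ 2| / N n := by
        intro x
        by_cases hx : x ∈ A
        · rw [Set.indicator_of_mem hx, Set.indicator_of_mem hx]
          simp only [hp]
          rw [← sub_div, abs_div, abs_of_pos (hNpos n)]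
        · rw [Set.indicator_of_notMem hx, Set.indicator_of_notMem hx]
          simp only [sub_zero, abs_zero]
          exact div_nonneg (abs_nonneg _) (hNpos n).le
      have h4 : Summable (fun x => |ξ n (γ • x) ^ 2 - ξ n x ^ 2| / N n) := hs.div_const _
      have h5 : Summable (fun x =>
          |A.indicator (fun x => p n (γ • x)) x - A.indicator (p n) x|) :=
        Summable.of_nonneg_of_le (fun x => abs_nonneg _) h3 h4
      rw [h2]
      calc |∑' x, (A.indicator (fun x => p n (γ • x)) x - A.indicator (p n) x)|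
          ≤ ∑' x, |A.indicator (fun x => p n (γ • x)) x - A.indicator (p n) x| := by
            have := norm_tsum_le_tsum_norm
              (f := fun x => A.indicator (fun x => p n (γ • x)) x - A.indicator (p n) x)
              (by simpa only [Real.norm_eq_abs] using h5)
            simpa only [Real.norm_eq_abs] using this
        _ ≤ ∑' x, |ξ n (γ • x) ^ 2 - ξ n x ^ 2| / N n := h5.tsum_le_tsum h3 h4
        _ = (∑' x, |ξ n (γ • x) ^ 2 - ξ n x ^ 2|) / N n := tsum_div_const
        _ ≤ 3 * (1 / ((n : ℝ) + 1)) := by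
            rw [div_le_iff₀ (hNpos n)]
            exact hb
    have hzero : Filter.Tendsto (fun n => m n ((fun x => γ • x) '' A) - m n A)
        Filter.atTop (nhds 0) := by
      rw [tendsto_zero_iff_abs_tendsto_zero]
      refine squeeze_zero' (Filter.Eventually.of_forall fun n => abs_nonneg _)
        (Filter.eventually_atTop.2 ⟨k, hbound⟩) ?_
      have := tendsto_one_div_add_atTop_nhds_zero_nat (𝕜 := ℝ)
      simpa using this.const_mul 3
    have hzero' : Filter.Tendsto (fun n => m n ((fun x => γ • x) '' A) - m n A)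
        (Filter.hyperfilter ℕ : Filter ℕ) (nhds 0) :=
      hzero.mono_left (by
        rw [← Nat.cofinite_eq_atTop]
        exact Filter.hyperfilter_le_cofinite)
    have := hzero'.add (hμ2 A)
    simpa using this

end

end Pool.Agent.Lib.MP_35fb4b_lc
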