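import Pool.Agent.Lib.MP_35fb4b_lc.Defs

/-!
# Geometry: the background configuration and its height function (MP_35fb4b_lc)
-/

set_option autoImplicit false

namespace Pool.Agent.Lib.MP_35fb4b_lc

open scoped Classical Pointwise

noncomputable section

section m3
variable {Γ X : Type} [Group Γ] [MulAction Γ X]

theorem m3_one_mem (A : Ht Γ X) (n : ℕ) : (1 : Γ) ∈ A.S ^ n := Finset.one_mem_pow A.one_mem

theorem m3_mono (A : Ht Γ X) {m n : ℕ} (h : m ≤ n) : A.S ^ m ⊆ A.S ^ n :=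
  Finset.pow_subset_pow_right A.one_mem h

theorem m3_mul_mem (A : Ht Γ X) {m n : ℕ} {s t : Γ} (hs : s ∈ A.S ^ m) (ht : t ∈ A.S ^ n) :
    s * t ∈ A.S ^ (m + n) := by
  rw [pow_add]
  exact Finset.mul_mem_mul hs ht

theorem m3_mem_one (A : Ht Γ X) {s : Γ} (hs : s ∈ A.S) : s ∈ A.S ^ 1 := by
  rwa [pow_one]

theorem m3_inv_mem (A : Ht Γ X) {n : ℕ} {t : Γ} (ht : t ∈ A.S ^ n) : t⁻¹ ∈ A.S ^ n := by
  induction n generalizing t with
  | zero =>
    rw [pow_zero, Finset.mem_one] at ht ⊢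
    rw [ht, inv_one]
  | succ n ih =>
    rw [pow_succ] at ht
    obtain ⟨a, ha, b, hb, rfl⟩ := Finset.mem_mul.1 ht
    rw [mul_inv_rev, pow_succ']
    exact Finset.mul_mem_mul (A.inv_mem b hb) (ih ha)

theorem m3_lip (A : Ht Γ X) {n : ℕ} {t : Γ} (ht : t ∈ A.S ^ n) (x : X) :
    |A.h (t • x) - A.h x| ≤ n * A.H := by
  induction n generalizing t with
  | zero =>
    rw [pow_zero, Finset.mem_one] at ht
    rw [ht, one_smul]
    simp
  | succ n ih =>
    rw [pow_succ'] at ht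
    obtain ⟨a, ha, b, hb, rfl⟩ := Finset.mem_mul.1 ht
    rw [mul_smul]
    have h1 := A.lip a ha (b • x)
    have h2 := ih hb
    calc |A.h (a • b • x) - A.h x| = |(A.h (a • b • x) - A.h (b • x)) + (A.h (b • x) - A.h x)| := by
          congr 1; ring
      _ ≤ |A.h (a • b • x) - A.h (b • x)| + |A.h (b • x) - A.h x| := abs_add_le _ _
      _ ≤ A.H + n * A.H := add_le_add h1 h2
      _ = ((n + 1 : ℕ) : ℝ) * A.H := by push_cast; ring

theorem m3_card_pos (A : Ht Γ X) : (0 : ℝ) < (A.S.card : ℝ) := by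
  exact_mod_cast Finset.card_pos.2 ⟨1, A.one_mem⟩

theorem m3_up_one (A : Ht Γ X) (x : X) : ∃ s ∈ A.S, A.h x + A.κ ≤ A.h (s • x) := by
  by_contra hcon
  push Not at hcon
  have h1 : ∑ s ∈ A.S, A.h (s • x) < ∑ _s ∈ A.S, (A.h x + A.κ) :=
    Finset.sum_lt_sum_of_nonempty ⟨1, A.one_mem⟩ hcon
  rw [Finset.sum_const, nsmul_eq_mul] at h1
  exact absurd (A.sub x) (not_le.2 h1)

theorem m3_up (A : Ht Γ X) (m : ℕ) (x : X) : ∃ t ∈ A.S ^ m, A.h x + m * A.κ ≤ A.h (t • x) := by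
  induction m with
  | zero => exact ⟨1, m3_one_mem A 0, by simp⟩
  | succ m ih =>
    obtain ⟨t, ht, h1⟩ := ih
    obtain ⟨s, hs, h2⟩ := m3_up_one A (t • x)
    refine ⟨s * t, ?_, ?_⟩
    · rw [pow_succ']
      exact Finset.mul_mem_mul hs ht
    · rw [mul_smul]
      push_cast
      linarith

theorem m3_not_inv (A : Ht Γ X) (F : Finset X) (hF : F.Nonempty) :
    ∃ s ∈ A.S, ∃ x ∈ F, s • x ∉ F := by
  obtain ⟨x, hx, hmax⟩ := F.exists_max_image A.h hF
  obtain ⟨s, hs, h1⟩ := m3_up_one A x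
  refine ⟨s, hs, x, hx, fun h2 => ?_⟩
  have := hmax _ h2
  have := A.κ_pos
  linarith

theorem m3_not_fixed (A : Ht Γ X) (u : X) : ∃ s ∈ A.S, s • u ≠ u := by
  obtain ⟨s, hs, x, hx, h⟩ := m3_not_inv A {u} ⟨u, Finset.mem_singleton_self u⟩
  rw [Finset.mem_singleton] at hx h
  subst hx
  exact ⟨s, hs, h⟩

theorem m3_far (A : Ht Γ X) (v x0 : X) : ∃ t ∈ A.S ^ 3, ∀ s ∈ A.S, s • x0 ≠ t • v := by
  by_contra hcon
  push Not at hcon
  obtain ⟨s', hs', x, hx, h⟩ := m3_not_inv A (A.S.image fun s => s • x0)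
    ⟨_, Finset.mem_image_of_mem _ A.one_mem⟩
  rw [Finset.mem_image] at hx
  obtain ⟨s, hs, rfl⟩ := hx
  apply h
  obtain ⟨s1, hs1, h1⟩ := hcon 1 (m3_one_mem A 3)
  rw [one_smul] at h1
  have h2 : s' * s * s1⁻¹ ∈ A.S ^ 3 := by
    have e : A.S ^ 3 = A.S * A.S * A.S := by rw [pow_succ, pow_two]
    rw [e]
    exact Finset.mul_mem_mul (Finset.mul_mem_mul hs' hs) (A.inv_mem _ hs1)
  obtain ⟨s2, hs2, h3⟩ := hcon _ h2
  rw [Finset.mem_image]
  refine ⟨s2, hs2, ?_⟩
  rw [h3, ← h1, mul_smul, mul_smul, inv_smul_smul]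

theorem m3_three (A : Ht Γ X) (n : X) : ∃ t ∈ A.S ^ 3, ∀ t' ∈ A.S ^ 2, t' • n ≠ t • n := by
  obtain ⟨s, hs, x, hx, h⟩ := m3_not_inv A ((A.S ^ 2).image fun s => s • n)
    ⟨_, Finset.mem_image_of_mem _ (m3_one_mem A 2)⟩
  rw [Finset.mem_image] at hx
  obtain ⟨t, ht, rfl⟩ := hx
  refine ⟨s * t, ?_, fun t' ht' h' => h ?_⟩
  · rw [show (3 : ℕ) = 2 + 1 from rfl, pow_succ']
    exact Finset.mul_mem_mul hs ht
  · rw [Finset.mem_image]
    exact ⟨t', ht', by rw [h', mul_smul]⟩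

theorem m3_sep (T : Finset Γ) (h1 : (1 : Γ) ∈ T) (hT : ∀ t ∈ T, t⁻¹ ∈ T) :
    ∃ M : Set X, (∀ x ∈ M, ∀ t ∈ T, t • x ∈ M → t • x = x) ∧ ∀ x, ∃ t ∈ T, t • x ∈ M := by
  obtain ⟨M, hM⟩ := zorn_subset {M : Set X | ∀ x ∈ M, ∀ t ∈ T, t • x ∈ M → t • x = x} (by
    intro c hc hchain
    refine ⟨⋃₀ c, ?_, fun s hs => Set.subset_sUnion_of_mem hs⟩
    rintro x ⟨B, hB, hx⟩ t ht ⟨C, hC, htx⟩
    rcases hchain.total hB hC with h | h
    · exact hc hC x (h hx) t ht htx
    · exact hc hB x hx t ht (h htx))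
  refine ⟨M, hM.prop, fun x => ?_⟩
  by_cases hx : x ∈ M
  · exact ⟨1, h1, by rwa [one_smul]⟩
  · have h2 : ¬ (∀ y ∈ insert x M, ∀ t ∈ T, t • y ∈ insert x M → t • y = y) := by
      intro h
      have := hM.le_of_ge (y := insert x M) h (Set.subset_insert x M)
      exact hx (this (Set.mem_insert x M))
    push Not at h2
    obtain ⟨y, hy, t, ht, h3, h4⟩ := h2
    rcases Set.mem_insert_iff.1 hy with rfl | hy
    · rcases Set.mem_insert_iff.1 h3 with h5 | h5
      · exact absurd h5 h4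
      · exact ⟨t, ht, h5⟩
    · rcases Set.mem_insert_iff.1 h3 with h5 | h5
      · refine ⟨t⁻¹, hT t ht, ?_⟩
        rw [← h5, inv_smul_smul]
        exact hy
      · exact absurd (hM.prop y hy t ht h5) h4

/-- the level of a point -/
def m3J (A : Ht Γ X) (x0 : X) (k : ℝ) (x : X) : ℤ := ⌊(A.h x - A.h x0) / k + 1 / 2⌋

theorem m3J_mono (A : Ht Γ X) (x0 : X) {k : ℝ} (hk : 0 < k) {x y : X} (h : A.h x ≤ A.h y) :
    m3J A x0 k x ≤ m3J A x0 k y := by
  unfold m3J
  apply Int.floor_le_floor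
  have : (A.h x - A.h x0) / k ≤ (A.h y - A.h x0) / k :=
    div_le_div_of_nonneg_right (by linarith) hk.le
  linarith

theorem m3J_two (A : Ht Γ X) (x0 : X) {k : ℝ} (hk : 0 < k) {R : ℕ} (hR : 2 * R * A.H < k) (v : X) :
    ∃ i : ℤ, ∀ t ∈ A.S ^ R, m3J A x0 k (t • v) = i ∨ m3J A x0 k (t • v) = i + 1 := by
  refine ⟨⌊(A.h v - R * A.H - A.h x0) / k + 1 / 2⌋, fun t ht => ?_⟩
  have h1 := abs_le.1 (m3_lip A ht v)
  set a := (A.h v - R * A.H - A.h x0) / k + 1 / 2 with ha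
  have h2 : a ≤ (A.h (t • v) - A.h x0) / k + 1 / 2 := by
    rw [ha]
    have : (A.h v - R * A.H - A.h x0) / k ≤ (A.h (t • v) - A.h x0) / k :=
      div_le_div_of_nonneg_right (by linarith) hk.le
    linarith
  have h3 : (A.h (t • v) - A.h x0) / k + 1 / 2 < a + 1 := by
    rw [ha]
    have : (A.h (t • v) - A.h x0) / k < (A.h v - R * A.H - A.h x0) / k + 1 := by
      rw [div_add_one hk.ne']
      exact div_lt_div_of_pos_right (by linarith) hk
    linarith
  have h4 : ⌊a⌋ ≤ m3J A x0 k (t • v) := Int.floor_le_floor h2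
  have h5 : m3J A x0 k (t • v) ≤ ⌊a⌋ + 1 := by
    have : m3J A x0 k (t • v) ≤ ⌊a + 1⌋ := Int.floor_le_floor h3.le
    rwa [Int.floor_add_one] at this
  omega

theorem m3J_zero (A : Ht Γ X) (x0 : X) {k : ℝ} (hk : 0 < k) {R : ℕ} (hR : 2 * R * A.H < k)
    {t : Γ} (ht : t ∈ A.S ^ R) : m3J A x0 k (t • x0) = 0 := by
  have h1 := abs_le.1 (m3_lip A ht x0)
  unfold m3J
  rw [Int.floor_eq_zero_iff]
  have h2 : -(1 / 2) < (A.h (t • x0) - A.h x0) / k := by
    rw [lt_div_iff₀ hk]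
    linarith
  have h3 : (A.h (t • x0) - A.h x0) / k < 1 / 2 := by
    rw [div_lt_iff₀ hk]
    linarith
  constructor <;> linarith

/-- the background ones -/
def m3P (A : Ht Γ X) (J : X → ℤ) (M N : Set X) (x : X) : Prop :=
  J x % 4 = 2 ∨ (J x % 4 = 1 ∧ x ∈ M) ∨
    ∃ n ∈ N, (J n % 4 = 2 ∨ J n % 4 = 3) ∧ ∃ s ∈ A.S, s • n = x

/-- all the data and hypotheses of the geometric part -/
structure m3C (A : Ht Γ X) (x0 : X) (J : X → ℤ) (M N : Set X) (R : ℕ) : Prop where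
  R_ge : 20 ≤ R
  two : ∀ v, ∃ i : ℤ, ∀ t ∈ A.S ^ R, J (t • v) = i ∨ J (t • v) = i + 1
  zero : ∀ t ∈ A.S ^ (2 * R + 10), J (t • x0) = 0
  M1 : ∀ x ∈ M, ∀ t ∈ A.S, t • x ∈ M → t • x = x
  M2 : ∀ x, ∃ t ∈ A.S, t • x ∈ M
  N1 : ∀ x ∈ N, ∀ t ∈ A.S ^ 6, t • x ∈ N → t • x = x
  N2 : ∀ x, ∃ t ∈ A.S ^ 6, t • x ∈ N

section claims
variable {A : Ht Γ X} {x0 : X} {J : X → ℤ} {M N : Set X} {R : ℕ}

theorem m3_notP (C : m3C A x0 J M N R) {t : Γ} (ht : t ∈ A.S ^ (2 * R + 9)) :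
    ¬ m3P A J M N (t • x0) := by
  have h0 : J (t • x0) = 0 := C.zero t (m3_mono A (by omega) ht)
  rintro (h | ⟨h, _⟩ | ⟨n, _, h, s, hs, hsn⟩)
  · rw [h0] at h
    omega
  · rw [h0] at h
    omega
  · have h1 : n = (s⁻¹ * t) • x0 := by
      rw [mul_smul, ← hsn, inv_smul_smul]
    have h2 : s⁻¹ * t ∈ A.S ^ (2 * R + 10) := by
      have := m3_mul_mem A (m3_mem_one A (A.inv_mem s hs)) ht
      exact m3_mono A (by omega) this
    have h3 := C.zero _ h2
    rw [← h1] at h3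
    rw [h3] at h
    omega

/-- case ab -/
theorem m3_ab (C : m3C A x0 J M N R) {v : X} {i : ℤ}
    (hi : ∀ t ∈ A.S ^ 11, J (t • v) = i ∨ J (t • v) = i + 1) (h4 : i % 4 = 0) {t : Γ}
    (ht : t ∈ A.S ^ 9) : ¬ ∀ s ∈ A.S, m3P A J M N (s • t • v) := by
  intro hall
  have key : ∀ s ∈ A.S, s • t • v ∈ M := by
    intro s hs
    have hst : s * t ∈ A.S ^ 10 := by
      have := m3_mul_mem A (m3_mem_one A hs) ht
      exact m3_mono A (by omega) this
    have hJ := hi (s * t) (m3_mono A (by omega) hst)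
    rw [mul_smul] at hJ
    rcases hall s hs with h | ⟨_, h⟩ | ⟨n, hn, h, s', hs', hsn⟩
    · omega
    · exact h
    · exfalso
      have h1 : n = (s'⁻¹ * (s * t)) • v := by
        rw [mul_smul, mul_smul, ← hsn, inv_smul_smul]
      have h2 : s'⁻¹ * (s * t) ∈ A.S ^ 11 := by
        have := m3_mul_mem A (m3_mem_one A (A.inv_mem s' hs')) hst
        exact m3_mono A (by omega) this
      have h3 := hi _ h2
      rw [← h1] at h3
      omega
  obtain ⟨s, hs, hne⟩ := m3_not_fixed A (t • v)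
  have h1 := key 1 A.one_mem
  rw [one_smul] at h1
  exact hne (C.M1 _ h1 s hs (key s hs))

/-- case bc -/
theorem m3_bc (C : m3C A x0 J M N R) {v : X} {i : ℤ} {r : ℕ}
    (hi : ∀ t ∈ A.S ^ (r + 1), J (t • v) = i ∨ J (t • v) = i + 1) (h4 : i % 4 = 1) {t : Γ}
    (ht : t ∈ A.S ^ r) : ¬ ∀ s ∈ A.S, ¬ m3P A J M N (s • t • v) := by
  intro hall
  obtain ⟨s, hs, hM⟩ := C.M2 (t • v)
  have hst : s * t ∈ A.S ^ (r + 1) := by
    have := m3_mul_mem A (m3_mem_one A hs) ht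
    rwa [add_comm] at this
  have hJ := hi (s * t) hst
  rw [mul_smul] at hJ
  apply hall s hs
  rcases hJ with hJ | hJ
  · exact Or.inr (Or.inl ⟨by omega, hM⟩)
  · exact Or.inl (by omega)

/-- case cd -/
theorem m3_cd (C : m3C A x0 J M N R) {v : X} {i : ℤ}
    (hi : ∀ t ∈ A.S ^ 6, J (t • v) = i ∨ J (t • v) = i + 1) (h4 : i % 4 = 2) :
    ∃ t ∈ A.S ^ 6, ∀ s ∈ A.S, m3P A J M N (s • t • v) := by
  obtain ⟨t, ht, hN⟩ := C.N2 v
  refine ⟨t, ht, fun s hs => Or.inr (Or.inr ⟨t • v, hN, ?_, s, hs, rfl⟩)⟩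
  have := hi t ht
  omega

/-- case da -/
theorem m3_da (C : m3C A x0 J M N R) {v : X} {i : ℤ}
    (hi : ∀ t ∈ A.S ^ 11, J (t • v) = i ∨ J (t • v) = i + 1) (h4 : i % 4 = 3) :
    ∃ t ∈ A.S ^ 9, ∀ s ∈ A.S, ¬ m3P A J M N (s • t • v) := by
  obtain ⟨t1, ht1, hN⟩ := C.N2 v
  obtain ⟨t2, ht2, hfar⟩ := m3_three A (t1 • v)
  have h9 : t2 * t1 ∈ A.S ^ 9 := by
    have := m3_mul_mem A ht2 ht1
    exact m3_mono A (by omega) this
  refine ⟨t2 * t1, h9, fun s hs hP => ?_⟩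
  have hst : s * (t2 * t1) ∈ A.S ^ 10 := by
    have := m3_mul_mem A (m3_mem_one A hs) h9
    exact m3_mono A (by omega) this
  have hJ := hi (s * (t2 * t1)) (m3_mono A (by omega) hst)
  rw [mul_smul] at hJ
  rcases hP with h | ⟨h, _⟩ | ⟨n, hn, h, s', hs', hsn⟩
  · omega
  · omega
  · -- n = s'⁻¹ s t2 (t1 v) is in N and within distance 5 of t1 v
    have h1 : n = (s'⁻¹ * (s * t2)) • t1 • v := by
      rw [mul_smul, mul_smul, ← mul_smul t2, ← hsn, inv_smul_smul]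
    have h2 : s'⁻¹ * (s * t2) ∈ A.S ^ 6 := by
      have := m3_mul_mem A (m3_mem_one A (A.inv_mem s' hs'))
        (m3_mul_mem A (m3_mem_one A hs) ht2)
      exact m3_mono A (by omega) this
    have h3 : n = t1 • v := by
      rw [h1] at hn ⊢
      exact C.N1 _ hN _ h2 hn
    apply hfar (s⁻¹ * s')
    · rw [pow_two]
      exact Finset.mul_mem_mul (A.inv_mem s hs) hs'
    · rw [mul_smul, ← h3, hsn, inv_smul_smul, mul_smul, h3]

variable {z : Γ → Bool}

/-- near the base point -/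
theorem m3_near (C : m3C A x0 J M N R)
    (hz : ∀ g, g • x0 ≠ x0 → z g = decide (m3P A J M N (g • x0))) {g : Γ} {t : Γ}
    (ht : t ∈ A.S ^ (2 * R + 5)) (hg : g • x0 = t • x0) :
    (¬ Deep A.S true z g) ∧ flag A.S 3 false z g := by
  constructor
  · intro hd
    obtain ⟨s, hs, hne⟩ := m3_not_fixed A (t • x0)
    have key : ∀ s ∈ A.S, s • t • x0 = x0 := by
      intro s hs
      by_contra hx
      have h1 : (s * g) • x0 = s • t • x0 := by rw [mul_smul, hg]
      have h2 := hz (s * g) (by rwa [h1])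
      rw [hd s hs, h1, ← mul_smul] at h2
      have h3 : s * t ∈ A.S ^ (2 * R + 9) := by
        have := m3_mul_mem A (m3_mem_one A hs) ht
        exact m3_mono A (by omega) this
      exact m3_notP C h3 (of_decide_eq_true h2.symm)
    have h1 := key 1 A.one_mem
    rw [one_smul] at h1
    have h2 := key s hs
    exact hne (by rw [h2, h1])
  · obtain ⟨t', ht', hfar⟩ := m3_far A (t • x0) x0
    refine ⟨t', ht', fun s hs => ?_⟩
    have h1 : (s * (t' * g)) • x0 = s • t' • t • x0 := by rw [mul_smul, mul_smul, hg]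
    have h2 : (s * (t' * g)) • x0 ≠ x0 := by
      rw [h1]
      intro h
      apply hfar s⁻¹ (A.inv_mem s hs)
      rw [inv_smul_eq_iff]
      exact h.symm
    rw [hz _ h2, decide_eq_false_iff_not, h1, ← mul_smul, ← mul_smul]
    apply m3_notP C
    have := m3_mul_mem A (m3_mul_mem A (m3_mem_one A hs) ht') ht
    exact m3_mono A (by omega) this

theorem m3_flag_mono {r r' : ℕ} (h : r ≤ r') {b : Bool} {g : Γ} (hf : flag A.S r b z g) :
    flag A.S r' b z g := by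
  obtain ⟨t, ht, h1⟩ := hf
  exact ⟨t, m3_mono A h ht, h1⟩

/-- far from the base point flags are computed on `X` -/
theorem m3_deep_iff (hz : ∀ g, g • x0 ≠ x0 → z g = decide (m3P A J M N (g • x0))) {g : Γ} {r : ℕ}
    (hfar : ∀ t ∈ A.S ^ (r + 1), t • g • x0 ≠ x0) (b : Bool) {t : Γ} (ht : t ∈ A.S ^ r) :
    Deep A.S b z (t * g) ↔ ∀ s ∈ A.S, decide (m3P A J M N (s • t • g • x0)) = b := by
  unfold Deep
  refine forall₂_congr fun s hs => ?_
  have h1 : (s * (t * g)) • x0 = s • t • g • x0 := by rw [mul_smul, mul_smul]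
  have h2 : (s * (t * g)) • x0 ≠ x0 := by
    have h3 := hfar (s * t) (by
      have := m3_mul_mem A (m3_mem_one A hs) ht
      rwa [add_comm] at this)
    rwa [mul_smul, ← h1] at h3
  rw [hz _ h2, h1]

theorem m3_code (C : m3C A x0 J M N R)
    (hz : ∀ g, g • x0 ≠ x0 → z g = decide (m3P A J M N (g • x0))) {g : Γ} {i : ℤ}
    (hi : ∀ t ∈ A.S ^ 11, J (t • g • x0) = i ∨ J (t • g • x0) = i + 1) :
    (code A.S 9 z g - i) % 4 = 0 ∨ (code A.S 9 z g - i) % 4 = 1 := by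
  have hR := C.R_ge
  by_cases hfar : ∀ t ∈ A.S ^ 10, t • g • x0 ≠ x0
  · have h0 := Int.emod_nonneg i (show (4 : ℤ) ≠ 0 by norm_num)
    have h1 := Int.emod_lt_of_pos i (show (0 : ℤ) < 4 by norm_num)
    have h2 : i % 4 = 0 ∨ i % 4 = 1 ∨ i % 4 = 2 ∨ i % 4 = 3 := by omega
    rcases h2 with h2 | h2 | h2 | h2
    · have h3 : ¬ flag A.S 9 true z g := by
        rintro ⟨t, ht, hd⟩
        rw [m3_deep_iff hz hfar true ht] at hd
        exact m3_ab C hi h2 ht fun s hs => of_decide_eq_true (hd s hs)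
      unfold code
      split_ifs <;> omega
    · have h3 : ¬ flag A.S 9 false z g := by
        rintro ⟨t, ht, hd⟩
        rw [m3_deep_iff hz hfar false ht] at hd
        exact m3_bc C (r := 9) (fun t ht => hi t (m3_mono A (by omega) ht)) h2 ht
          fun s hs => of_decide_eq_false (hd s hs)
      unfold code
      split_ifs <;> omega
    · have h3 : flag A.S 9 true z g := by
        obtain ⟨t, ht, hP⟩ := m3_cd C (fun t ht => hi t (m3_mono A (by omega) ht)) h2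
        refine ⟨t, m3_mono A (by omega) ht, ?_⟩
        rw [m3_deep_iff hz hfar true (m3_mono A (by omega) ht)]
        exact fun s hs => decide_eq_true (hP s hs)
      unfold code
      split_ifs <;> omega
    · have h3 : flag A.S 9 false z g := by
        obtain ⟨t, ht, hP⟩ := m3_da C hi h2
        refine ⟨t, ht, ?_⟩
        rw [m3_deep_iff hz hfar false ht]
        exact fun s hs => decide_eq_false (hP s hs)
      unfold code
      split_ifs <;> omega
  · push Not at hfar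
    obtain ⟨t0, ht0, h0⟩ := hfar
    have hg : g • x0 = t0⁻¹ • x0 := by rw [eq_inv_smul_iff, h0]
    have h1 : flag A.S 9 false z g := by
      apply m3_flag_mono (r := 3) (by omega)
      exact (m3_near C hz (m3_mono A (by omega) (m3_inv_mem A ht0)) hg).2
    have h2 : ¬ flag A.S 9 true z g := by
      rintro ⟨t, ht, hd⟩
      have h3 : (t * g) • x0 = (t * t0⁻¹) • x0 := by rw [mul_smul, mul_smul, hg]
      refine (m3_near C hz (t := t * t0⁻¹) ?_ h3).1 hd
      have := m3_mul_mem A ht (m3_inv_mem A ht0)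
      exact m3_mono A (by omega) this
    have h3 : J (g • x0) = 0 := by
      rw [hg]
      exact C.zero _ (m3_mono A (by omega) (m3_inv_mem A ht0))
    have h4 := hi 1 (m3_one_mem A 11)
    rw [one_smul, h3] at h4
    unfold code
    rw [if_pos h1, if_neg h2]
    omega

end claims

/-- the integer height of `g` -/
def m3h (A : Ht Γ X) (x0 : X) (J : X → ℤ) (z : Γ → Bool) (g : Γ) : ℤ :=
  J (g • x0) + lft (code A.S 9 z g - J (g • x0))

theorem m3_lift_aux {i c j : ℤ} (hc : (c - i) % 4 = 0 ∨ (c - i) % 4 = 1)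
    (hj : j = i ∨ j = i + 1) :
    j + lft (c - j) = if (c - i) % 4 = 0 then i else i + 1 := by
  unfold lft
  split_ifs <;> omega

theorem m3_lift_aux' {i c c' : ℤ} (hc : (c - i) % 4 = 0 ∨ (c - i) % 4 = 1)
    (hc' : (c' - i) % 4 = 0 ∨ (c' - i) % 4 = 1) :
    lft (c' - c) = (if (c' - i) % 4 = 0 then i else i + 1) -
      (if (c - i) % 4 = 0 then i else i + 1) := by
  unfold lft
  split_ifs <;> omega

theorem m3_led {A : Ht Γ X} {x0 : X} {J : X → ℤ} {M N : Set X} {R : ℕ} {z : Γ → Bool}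
    (C : m3C A x0 J M N R)
    (hz : ∀ g, g • x0 ≠ x0 → z g = decide (m3P A J M N (g • x0))) (g s : Γ) (hs : s ∈ A.S) :
    Led A.S 9 z g s = m3h A x0 J z (s * g) - m3h A x0 J z g := by
  have hR := C.R_ge
  obtain ⟨i, hi⟩ := C.two (g • x0)
  have h1 : ∀ t ∈ A.S ^ 11, J (t • g • x0) = i ∨ J (t • g • x0) = i + 1 :=
    fun t ht => hi t (m3_mono A (by omega) ht)
  have h2 : ∀ t ∈ A.S ^ 11, J (t • (s * g) • x0) = i ∨ J (t • (s * g) • x0) = i + 1 := by
    intro t ht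
    have h3 := hi (t * s) (m3_mono A (by omega) (m3_mul_mem A ht (m3_mem_one A hs)))
    rwa [mul_smul, ← mul_smul s g] at h3
  have c1 := m3_code C hz h1
  have c2 := m3_code C hz h2
  have j1 := h1 1 (m3_one_mem A 11)
  have j2 := h2 1 (m3_one_mem A 11)
  rw [one_smul] at j1 j2
  unfold Led m3h
  rw [m3_lift_aux c1 j1, m3_lift_aux c2 j2, m3_lift_aux' c1 c2]

/-- iterated sums -/
def m3Q (S : Finset Γ) (f : Γ → ℤ) : ℕ → Γ → ℤ
  | 0, g => f g
  | n + 1, g => ∑ s ∈ S, m3Q S f n (s * g)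

theorem m3_W {A : Ht Γ X} {x0 : X} {J : X → ℤ} {M N : Set X} {R : ℕ} {z : Γ → Bool}
    (C : m3C A x0 J M N R)
    (hz : ∀ g, g • x0 ≠ x0 → z g = decide (m3P A J M N (g • x0))) (n : ℕ) (g : Γ) :
    Wn A.S 9 n z g = m3Q A.S (m3h A x0 J z) n g - (A.S.card : ℤ) ^ n * m3h A x0 J z g := by
  induction n generalizing g with
  | zero => simp [Wn, m3Q]
  | succ n ih =>
    simp only [Wn, m3Q]
    have h1 : ∀ s ∈ A.S, (A.S.card : ℤ) ^ n * Led A.S 9 z g s + Wn A.S 9 n z (s * g) =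
        m3Q A.S (m3h A x0 J z) n (s * g) - (A.S.card : ℤ) ^ n * m3h A x0 J z g := by
      intro s hs
      rw [m3_led C hz g s hs, ih]
      ring
    rw [Finset.sum_congr rfl h1, Finset.sum_sub_distrib, Finset.sum_const, nsmul_eq_mul]
    ring

theorem m3_lft_bound (d : ℤ) : -1 ≤ lft d ∧ lft d ≤ 1 := by
  rcases lft_cases d with h | h | h <;> rw [h] <;> norm_num

theorem m3_Q_lower (A : Ht Γ X) (x0 : X) {k : ℝ} (hk : 0 < k) (z : Γ → Bool) (n : ℕ) (g : Γ) :
    (A.S.card : ℝ) ^ n * ((A.h (g • x0) - A.h x0) / k - 3 / 2 + n * A.κ / k) ≤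
      (m3Q A.S (m3h A x0 (m3J A x0 k) z) n g : ℝ) := by
  induction n generalizing g with
  | zero =>
    simp only [m3Q, m3h]
    have h1 : (A.h (g • x0) - A.h x0) / k + 1 / 2 < (m3J A x0 k (g • x0) : ℝ) + 1 :=
      Int.lt_floor_add_one _
    have h2 := (m3_lft_bound (code A.S 9 z g - m3J A x0 k (g • x0))).1
    have h3 : (-1 : ℝ) ≤ (lft (code A.S 9 z g - m3J A x0 k (g • x0)) : ℝ) := by exact_mod_cast h2
    push_cast
    simp only [pow_zero, one_mul, CharP.cast_eq_zero, zero_mul, zero_div, add_zero]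
    linarith
  | succ n ih =>
    simp only [m3Q]
    push_cast
    have hS := m3_card_pos A
    calc (A.S.card : ℝ) ^ (n + 1) * ((A.h (g • x0) - A.h x0) / k - 3 / 2 + (n + 1) * A.κ / k)
        = (A.S.card : ℝ) ^ n * ((1 / k) * ((A.S.card : ℝ) * (A.h (g • x0) + A.κ)) +
          (A.S.card : ℝ) * (-(A.h x0 / k) - 3 / 2 + n * A.κ / k)) := by
          field_simp
          ring
      _ ≤ (A.S.card : ℝ) ^ n * ((1 / k) * (∑ s ∈ A.S, A.h (s • g • x0)) +
          (A.S.card : ℝ) * (-(A.h x0 / k) - 3 / 2 + n * A.κ / k)) := by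
          apply mul_le_mul_of_nonneg_left _ (by positivity)
          have := mul_le_mul_of_nonneg_left (A.sub (g • x0)) (by positivity : (0 : ℝ) ≤ 1 / k)
          linarith
      _ = ∑ s ∈ A.S, (A.S.card : ℝ) ^ n *
          ((A.h ((s * g) • x0) - A.h x0) / k - 3 / 2 + n * A.κ / k) := by
          rw [← Finset.mul_sum]
          congr 1
          have h1 : ∀ s ∈ A.S, (A.h ((s * g) • x0) - A.h x0) / k - 3 / 2 + n * A.κ / k =
              (1 / k) * A.h (s • g • x0) + (-(A.h x0 / k) - 3 / 2 + n * A.κ / k) := by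
            intro s _
            rw [mul_smul]
            ring
          rw [Finset.sum_congr rfl h1, Finset.sum_add_distrib, ← Finset.mul_sum,
            Finset.sum_const, nsmul_eq_mul]
      _ ≤ _ := Finset.sum_le_sum fun s _ => ih (s * g)

theorem m3_h_upper (A : Ht Γ X) (x0 : X) {k : ℝ} (z : Γ → Bool) (g : Γ) :
    (m3h A x0 (m3J A x0 k) z g : ℝ) ≤ (A.h (g • x0) - A.h x0) / k + 3 / 2 := by
  unfold m3h
  have h1 : (m3J A x0 k (g • x0) : ℝ) ≤ (A.h (g • x0) - A.h x0) / k + 1 / 2 := Int.floor_le _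
  have h2 := (m3_lft_bound (code A.S 9 z g - m3J A x0 k (g • x0))).2
  have h3 : (lft (code A.S 9 z g - m3J A x0 k (g • x0)) : ℝ) ≤ 1 := by exact_mod_cast h2
  push_cast
  linarith

theorem m3_W_pos {A : Ht Γ X} {x0 : X} {k : ℝ} (hk : 0 < k) {M N : Set X} {R : ℕ} {z : Γ → Bool}
    (C : m3C A x0 (m3J A x0 k) M N R)
    (hz : ∀ g, g • x0 ≠ x0 → z g = decide (m3P A (m3J A x0 k) M N (g • x0))) {n : ℕ}
    (hn : 3 * k < n * A.κ) (g : Γ) : 1 ≤ Wn A.S 9 n z g := by
  have hS := m3_card_pos A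
  have h1 : (0 : ℝ) < (Wn A.S 9 n z g : ℝ) := by
    rw [m3_W C hz]
    push_cast
    have h2 := m3_Q_lower A x0 hk z n g
    have h3 := mul_le_mul_of_nonneg_left (m3_h_upper A x0 (k := k) z g)
      (by positivity : (0 : ℝ) ≤ (A.S.card : ℝ) ^ n)
    have h4 : 3 < n * A.κ / k := by
      rw [lt_div_iff₀ hk]
      exact hn
    have h5 : (0 : ℝ) < (A.S.card : ℝ) ^ n * (n * A.κ / k - 3) :=
      mul_pos (by positivity) (by linarith)
    nlinarith
  have h2 : (0 : ℤ) < Wn A.S 9 n z g := by exact_mod_cast h1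
  omega

theorem m3_expl_iff {A : Ht Γ X} {x0 : X} {k : ℝ} (hk : 0 < k) {M N : Set X} {R m : ℕ}
    {z : Γ → Bool} (C : m3C A x0 (m3J A x0 k) M N R) (hm : 4 * A.H ≤ m * A.κ)
    (hmR : m + 20 ≤ R)
    (hz : ∀ g, g • x0 ≠ x0 → z g = decide (m3P A (m3J A x0 k) M N (g • x0))) (g : Γ) :
    (z g = true ∧ ¬ Expl A.S (m + 6) z g) ↔ (g • x0 = x0 ∧ z g = true) := by
  constructor
  · rintro ⟨h1, h2⟩
    refine ⟨?_, h1⟩
    by_contra hx
    apply h2
    have hP : m3P A (m3J A x0 k) M N (g • x0) := by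
      have := hz g hx
      rw [h1] at this
      exact of_decide_eq_true this.symm
    have hfar : ∀ t ∈ A.S ^ (m + 12), t • g • x0 ≠ x0 := by
      intro t ht h0
      have hg : g • x0 = t⁻¹ • x0 := by rw [eq_inv_smul_iff, h0]
      rw [hg] at hP
      exact m3_notP C (m3_mono A (by omega) (m3_inv_mem A ht)) hP
    have hdeep : ∀ (b : Bool) (t : Γ), t ∈ A.S ^ (m + 11) →
        (Deep A.S b z (t * g) ↔
          ∀ s ∈ A.S, decide (m3P A (m3J A x0 k) M N (s • t • g • x0)) = b) :=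
      fun b t ht => m3_deep_iff hz hfar b ht
    obtain ⟨i, hi⟩ := C.two (g • x0)
    have hJ := hi 1 (m3_one_mem A R)
    rw [one_smul] at hJ
    -- no deep zero around g if i is 1 modulo 4
    have hbc : i % 4 = 1 → Expl A.S (m + 6) z g := by
      intro h4
      refine ⟨1, m3_one_mem A _, Or.inr ?_⟩
      rintro ⟨t, ht, hd⟩
      rw [one_mul, hdeep false t (m3_mono A (by omega) ht)] at hd
      exact m3_bc C (r := 3) (fun t ht => hi t (m3_mono A (by omega) ht)) h4 ht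
        fun s hs => of_decide_eq_false (hd s hs)
    rcases hP with h | ⟨h, _⟩ | ⟨n, hn, h, s, hs, hsn⟩
    · -- phase c
      have h3 : i % 4 = 2 ∨ i % 4 = 1 := by omega
      rcases h3 with h3 | h3
      · obtain ⟨t, ht, hPt⟩ := m3_cd C (fun t ht => hi t (m3_mono A (by omega) ht)) h3
        refine ⟨t, m3_mono A (by omega) ht, Or.inl ?_⟩
        rw [hdeep true t (m3_mono A (by omega) ht)]
        exact fun s hs => decide_eq_true (hPt s hs)
      · exact hbc h3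
    · -- phase b
      have h3 : i % 4 = 1 ∨ (i % 4 = 0 ∧ m3J A x0 k (g • x0) = i + 1) := by omega
      rcases h3 with h3 | ⟨h3, h4⟩
      · exact hbc h3
      · obtain ⟨t, ht, hup⟩ := m3_up A m (g • x0)
        refine ⟨t, m3_mono A (by omega) ht, Or.inr ?_⟩
        rintro ⟨t', ht', hd⟩
        have h5 : t' * t ∈ A.S ^ (m + 3) := by
          have := m3_mul_mem A ht' ht
          exact m3_mono A (by omega) this
        rw [← mul_assoc, hdeep false (t' * t) (m3_mono A (by omega) h5)] at hd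
        obtain ⟨s, hs, hM⟩ := C.M2 ((t' * t) • g • x0)
        have h6 : s * (t' * t) ∈ A.S ^ (m + 4) := by
          have := m3_mul_mem A (m3_mem_one A hs) h5
          exact m3_mono A (by omega) this
        have h7 := hi _ (m3_mono A (by omega : m + 4 ≤ R) h6)
        have h8 : A.h (g • x0) ≤ A.h ((s * (t' * t)) • g • x0) := by
          have h9 : s * t' ∈ A.S ^ 4 := by
            have := m3_mul_mem A (m3_mem_one A hs) ht'
            exact m3_mono A (by omega) this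
          have h10 := (abs_le.1 (m3_lip A h9 (t • g • x0))).1
          rw [← mul_assoc, mul_smul (s * t')]
          push_cast at h10
          linarith
        have h9 := m3J_mono A x0 hk h8
        have h10 : m3J A x0 k ((s * (t' * t)) • g • x0) = i + 1 := by omega
        have h11 := of_decide_eq_false (hd s hs)
        apply h11
        rw [mul_smul] at h10
        exact Or.inr (Or.inl ⟨by omega, hM⟩)
    · -- ball around n
      have hn1 : n = s⁻¹ • g • x0 := by rw [← hsn, inv_smul_smul]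
      have hs1 : s⁻¹ ∈ A.S ^ 1 := m3_mem_one A (A.inv_mem s hs)
      refine ⟨s⁻¹, m3_mono A (by omega) hs1, Or.inl ?_⟩
      rw [hdeep true _ (m3_mono A (by omega) hs1)]
      intro s' hs'
      apply decide_eq_true
      rw [← hn1]
      exact Or.inr (Or.inr ⟨n, hn, h, s', hs', rfl⟩)
  · rintro ⟨h1, h2⟩
    refine ⟨h2, ?_⟩
    rintro ⟨t, ht, hex⟩
    have h3 : (t * g) • x0 = t • x0 := by rw [mul_smul, h1]
    have h4 := m3_near C hz (m3_mono A (by omega) ht) h3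
    rcases hex with hex | hex
    · exact h4.1 hex
    · exact hex h4.2

end m3

theorem exists_config {Γ X : Type} [Group Γ] [MulAction Γ X] (A : Ht Γ X) (x0 : X) :
    ∃ (r n q : ℕ) (z0 : X → Bool), z0 x0 = false ∧
      ∀ z : Γ → Bool, (∀ g, g • x0 ≠ x0 → z g = z0 (g • x0)) →
        (∀ g, 1 ≤ Wn A.S r n z g) ∧
          ∀ g, (z g = true ∧ ¬ Expl A.S q z g) ↔ (g • x0 = x0 ∧ z g = true) := by
  obtain ⟨m, hm⟩ := exists_nat_ge (4 * A.H / A.κ)
  have hm' : 4 * A.H ≤ m * A.κ := by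
    rwa [div_le_iff₀ A.κ_pos] at hm
  obtain ⟨R, hR⟩ : ∃ R : ℕ, R = m + 20 := ⟨_, rfl⟩
  have hH := A.H_nonneg
  obtain ⟨k, hk⟩ : ∃ k : ℝ, k = 2 * (2 * R + 10 : ℕ) * A.H + 1 := ⟨_, rfl⟩
  have hk0 : 0 < k := by
    rw [hk]
    positivity
  obtain ⟨M, hM1, hM2⟩ := m3_sep (X := X) A.S A.one_mem A.inv_mem
  obtain ⟨N, hN1, hN2⟩ := m3_sep (X := X) (A.S ^ 6) (m3_one_mem A 6) fun t ht => m3_inv_mem A ht
  have C : m3C A x0 (m3J A x0 k) M N R :=
    { R_ge := by omega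
      two := m3J_two A x0 hk0 (by
        rw [hk]
        push_cast
        nlinarith [mul_nonneg (Nat.cast_nonneg (α := ℝ) R) hH])
      zero := fun t ht => m3J_zero A x0 hk0 (by
        rw [hk]
        linarith) ht
      M1 := hM1
      M2 := hM2
      N1 := hN1
      N2 := hN2 }
  obtain ⟨n, hn⟩ := exists_nat_gt (3 * k / A.κ)
  have hn' : 3 * k < n * A.κ := by
    rwa [div_lt_iff₀ A.κ_pos] at hn
  refine ⟨9, n, m + 6, fun x => decide (m3P A (m3J A x0 k) M N x), ?_, fun z hz => ⟨?_, ?_⟩⟩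
  · apply decide_eq_false
    have := m3_notP C (m3_one_mem A _)
    rwa [one_smul] at this
  · exact fun g => m3_W_pos hk0 C hz hn' g
  · exact fun g => m3_expl_iff hk0 C hm' (by omega) hz g

end

end Pool.Agent.Lib.MP_35fb4b_lc
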